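import Pool.Agent.BICS.Defs
import Pool.Agent.Helper34.BIC.A2

open Set BIC
open scoped Matroid

namespace BICS

universe u

variable {α : Type*}

/-- `Grd` gives `BicGrid`. -/
theorem bicGrid_of_Grd {M : Matroid α} {S : Set α} {ends : α → Sym2 (ℕ × ℕ)} {x y n : ℕ}
    (hn : 2 ≤ n) (hB : Bic M S ends) (hG : Grd S ends x y n n) : BicGrid M S n := by
  classical
  have hn0 : 0 < n := by omega
  set g : ℕ × ℕ → Fin n × Fin n := fun v =>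
    (⟨(v.1 - x) % n, Nat.mod_lt _ hn0⟩, ⟨(v.2 - y) % n, Nat.mod_lt _ hn0⟩) with hg
  refine bicGrid_of_coord (U := rect x y n n) (g := g) hn hB ?_ ?_ ?_
  · intro e he v hv
    obtain ⟨p, q, h1, _, hp, hq⟩ := hG.mem e he
    rw [h1] at hv
    rcases Sym2.mem_iff.1 hv with rfl | rfl
    · exact hp
    · exact hq
  · rintro ⟨a, b⟩ ha ⟨a', b'⟩ ha' h
    simp only [rect, mem_setOf_eq] at ha ha'
    simp only [hg, Prod.mk.injEq, Fin.mk.injEq] at h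
    rw [Nat.mod_eq_of_lt (show a - x < n by omega), Nat.mod_eq_of_lt (show a' - x < n by omega),
      Nat.mod_eq_of_lt (show b - y < n by omega), Nat.mod_eq_of_lt (show b' - y < n by omega)] at h
    exact Prod.ext (by simp only; omega) (by simp only; omega)
  · rintro ⟨⟨i, hi⟩, ⟨j, hj⟩⟩ ⟨⟨i', hi'⟩, ⟨j', hj'⟩⟩ h
    obtain ⟨e, he, he'⟩ := hG.surj (x + i, y + j) (x + i', y + j') (by
      rcases h with ⟨h1, h2⟩ | ⟨h1, h2⟩
      · simp only at h1 h2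
        cases h1
        exact Or.inl ⟨rfl, by simp only; omega⟩
      · simp only at h1 h2
        cases h1
        exact Or.inr ⟨rfl, by simp only; omega⟩)
      (by simp only [rect, mem_setOf_eq]; omega) (by simp only [rect, mem_setOf_eq]; omega)
    refine ⟨e, he, ?_⟩
    rw [he', Sym2.map_mk]
    simp only [hg, Nat.add_sub_cancel_left, Nat.mod_eq_of_lt hi, Nat.mod_eq_of_lt hj,
      Nat.mod_eq_of_lt hi', Nat.mod_eq_of_lt hj']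

theorem thmA2 (k : ℕ) (hk : 1 ≤ k) : ∃ n h N₀ : ℕ, 1 ≤ h ∧ ∀ (N₁ N₂ : ℕ), N₀ ≤ N₁ → N₀ ≤ N₂ →
    ∀ {α : Type u} (M : Matroid α) [M.Finite] (S T : Set α) (e₁ e₂ : α → Sym2 (ℕ × ℕ))
    (x y x' y' : ℕ), Disjoint S T → Bic M S e₁ → Grd S e₁ x y (2 * h * N₁) (2 * h * N₁) →
    Bic M✶ T e₂ → Grd T e₂ x' y' (2 * h * N₂) (2 * h * N₂) → KGe M S T n →
    HasUniformMinor M k := by
  obtain ⟨κ₀, N₀, hmain⟩ := thmBG.{u} k hk
  have h1 : 1 ≤ 4 ^ k := Nat.one_le_pow _ _ (by norm_num)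
  have h2 : ∀ N, N₀ + 1 ≤ N → 2 ≤ 2 * 4 ^ k * N := by
    intro N hN
    calc 2 = 2 * 1 * 1 := by norm_num
      _ ≤ 2 * 4 ^ k * N := Nat.mul_le_mul (Nat.mul_le_mul_left _ h1) (by omega)
  refine ⟨κ₀, 4 ^ k, N₀ + 1, h1, ?_⟩
  intro N₁ N₂ hN₁ hN₂ α M _ S T e₁ e₂ x y x' y' hST hB₁ hG₁ hB₂ hG₂ hκ
  exact hmain M S T hST N₁ N₂ (by omega) (by omega) (bicGrid_of_Grd (h2 _ hN₁) hB₁ hG₁)
    (bicGrid_of_Grd (h2 _ hN₂) hB₂ hG₂) hκ

end BICS
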