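import Pool.Agent.Helper34.BIC.Tutte
import Pool.Agent.Helper34.BIC.Unif
import Pool.Agent.Helper34.BIC.ToBic

open Set BIC
open scoped Matroid

namespace BICS

variable {α V : Type*}

/-- Adjacency in the infinite plain grid on `ℕ × ℕ`. -/
def adj (p q : ℕ × ℕ) : Prop :=
  (p.1 = q.1 ∧ (p.2 + 1 = q.2 ∨ q.2 + 1 = p.2)) ∨ (p.2 = q.2 ∧ (p.1 + 1 = q.1 ∨ q.1 + 1 = p.1))

/-- The vertices of the `a × b` rectangle with corner `(x, y)`. -/
def rect (x y a b : ℕ) : Set (ℕ × ℕ) := {p | x ≤ p.1 ∧ p.1 < x + a ∧ y ≤ p.2 ∧ p.2 < y + b}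

/-- `S` carries, by `ends`, exactly the edges of the plain `a × b` grid with corner `(x, y)`. -/
structure Grd (S : Set α) (ends : α → Sym2 (ℕ × ℕ)) (x y a b : ℕ) : Prop where
  inj : InjOn ends S
  mem : ∀ e ∈ S, ∃ p q, ends e = s(p, q) ∧ adj p q ∧ p ∈ rect x y a b ∧ q ∈ rect x y a b
  surj : ∀ p q, adj p q → p ∈ rect x y a b → q ∈ rect x y a b → ∃ e ∈ S, ends e = s(p, q)

/-- The block (elements of the subgrid) with corner `(x, y)` and side `m`. -/
def blk (S : Set α) (ends : α → Sym2 (ℕ × ℕ)) (x y m : ℕ) : Set α := ins S ends (rect x y m m)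

/-- `N` is a quotient of `L` on the subsets of `S`. -/
def Quo (L N : Matroid α) (S : Set α) : Prop :=
  ∀ X Y : Set α, X ⊆ Y → Y ⊆ S → rk N Y + rk L X ≤ rk L Y + rk N X

end BICS
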