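import Pool.Agent.Helper77.G.C1
import Pool.Agent.Helper33.G.Snake

open Set BIC
open scoped Matroid

namespace BICS

universe u

/-- A stable lift defect `u ≥ k` over a large bicircular grid gives a `U_{k,2k}`-minor. -/
theorem thmC1 (k s : ℕ) : ∃ m : ℕ, ∀ {α : Type u} (L N : Matroid α) [L.Finite] [N.Finite]
    (S : Set α) (ends : α → Sym2 (ℕ × ℕ)) (x y u : ℕ), S ⊆ L.E → Bic N S ends →
    Grd S ends x y m m → Quo L N S → k ≤ u →
    (∀ a b c, s ≤ c → rect a b c c ⊆ rect x y m m →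
      rk L (blk S ends a b c) = rk N (blk S ends a b c) + u) → HasUniformMinor L k := by
  refine C1Q.thmC1_of.{u} ?_ k s
  intro α S ends x y m x' H q hG hr hq hH
  obtain ⟨el, rg, hB⟩ := C1Q.exists_block hG hr hq hH
  exact ⟨C1Q.posAt q x' y, el, rg, fun p hp r hr h => C1Q.posAt_inj hp hr h, hB,
    fun t c ht hc => C1Q.blk_sub ht hc⟩

end BICS
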