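import Pool.Agent.BICS.Base

/-!
# The dominoes of a grid generate
-/

set_option autoImplicit false

open Set BIC
open scoped Matroid

namespace BICS

variable {α : Type*} {S : Set α} {ends : α → Sym2 (ℕ × ℕ)} {x y a b : ℕ}

lemma dmem_rect {x y a b r c : ℕ} :
    (r, c) ∈ rect x y a b ↔ x ≤ r ∧ r < x + a ∧ y ≤ c ∧ c < y + b := Iff.rfl

lemma Grd.deh (hG : Grd S ends x y a b) {r c : ℕ} (h : (r, c) ∈ rect x y a b)
    (h' : (r, c + 1) ∈ rect x y a b) : ∃ e ∈ S, ends e = s((r, c), (r, c + 1)) :=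
  hG.surj _ _ (Or.inl ⟨rfl, Or.inl rfl⟩) h h'

lemma Grd.dev (hG : Grd S ends x y a b) {r c : ℕ} (h : (r, c) ∈ rect x y a b)
    (h' : (r + 1, c) ∈ rect x y a b) : ∃ e ∈ S, ends e = s((r, c), (r + 1, c)) :=
  hG.surj _ _ (Or.inr ⟨rfl, Or.inl rfl⟩) h h'

lemma Grd.dcases (hG : Grd S ends x y a b) {e : α} (he : e ∈ S) :
    (∃ r c, (r, c) ∈ rect x y a b ∧ (r, c + 1) ∈ rect x y a b ∧
      ends e = s((r, c), (r, c + 1))) ∨
    (∃ r c, (r, c) ∈ rect x y a b ∧ (r + 1, c) ∈ rect x y a b ∧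
      ends e = s((r, c), (r + 1, c))) := by
  obtain ⟨⟨p1, p2⟩, ⟨q1, q2⟩, h1, h2, h3, h4⟩ := hG.mem e he
  rcases h2 with ⟨h, h' | h'⟩ | ⟨h, h' | h'⟩ <;> simp only at h h' <;> subst h <;> subst h'
  · exact Or.inl ⟨_, _, h3, h4, h1⟩
  · exact Or.inl ⟨_, _, h4, h3, h1.trans Sym2.eq_swap⟩
  · exact Or.inr ⟨_, _, h3, h4, h1⟩
  · exact Or.inr ⟨_, _, h4, h3, h1.trans Sym2.eq_swap⟩

lemma dmem_ins_of {z : α} {T : Set (ℕ × ℕ)} {p q : ℕ × ℕ} (hz : z ∈ S)
    (he : ends z = s(p, q)) (h1 : p ∈ T) (h2 : q ∈ T) : z ∈ ins S ends T := by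
  refine ⟨hz, fun v hv => ?_⟩
  rw [he] at hv
  rcases Sym2.mem_iff.1 hv with rfl | rfl
  · exact h1
  · exact h2

/-- the elements added with one more vertex -/
lemma Grd.dins_insert (hG : Grd S ends x y a b) {T : Set (ℕ × ℕ)} {r c : ℕ}
    (hup : (r + 1, c) ∉ T) (hri : (r, c + 1) ∉ T) :
    ins S ends (insert (r, c) T) ⊆ ins S ends T ∪
      ({e | e ∈ S ∧ ∃ c', c' + 1 = c ∧ (r, c') ∈ T ∧ ends e = s((r, c'), (r, c))} ∪
       {e | e ∈ S ∧ ∃ r', r' + 1 = r ∧ (r', c) ∈ T ∧ ends e = s((r', c), (r, c))}) := by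
  rintro e ⟨heS, he⟩
  rcases hG.dcases heS with ⟨r', c', h1, h2, h3⟩ | ⟨r', c', h1, h2, h3⟩
  · have m1 := he (r', c') (by rw [h3]; simp)
    have m2 := he (r', c' + 1) (by rw [h3]; simp)
    rcases m1 with m1 | m1
    · obtain ⟨rfl, rfl⟩ := Prod.mk.inj m1
      rcases m2 with m2 | m2
      · have := (Prod.mk.inj m2).2
        omega
      · exact absurd m2 hri
    · rcases m2 with m2 | m2
      · obtain ⟨rfl, rfl⟩ := Prod.mk.inj m2
        exact Or.inr (Or.inl ⟨heS, c', rfl, m1, h3⟩)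
      · exact Or.inl (dmem_ins_of heS h3 m1 m2)
  · have m1 := he (r', c') (by rw [h3]; simp)
    have m2 := he (r' + 1, c') (by rw [h3]; simp)
    rcases m1 with m1 | m1
    · obtain ⟨rfl, rfl⟩ := Prod.mk.inj m1
      rcases m2 with m2 | m2
      · have := (Prod.mk.inj m2).1
        omega
      · exact absurd m2 hup
    · rcases m2 with m2 | m2
      · obtain ⟨rfl, rfl⟩ := Prod.mk.inj m2
        exact Or.inr (Or.inr ⟨heS, r', rfl, m1, h3⟩)
      · exact Or.inl (dmem_ins_of heS h3 m1 m2)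

lemma Grd.dedge_sub (hG : Grd S ends x y a b) {z : Sym2 (ℕ × ℕ)} :
    ({e | e ∈ S ∧ ends e = z} : Set α).Subsingleton :=
  fun _ h1 _ h2 => hG.inj h1.1 h2.1 (h1.2.trans h2.2.symm)

lemma dindep_range {ι V : Type*} {M : Matroid α} {S : Set α} {ends : α → Sym2 V}
    (hB : Bic M S ends) (e : ι → α) (w : ι → V) (he : Function.Injective e)
    (hw : Function.Injective w) (hS : ∀ i, e i ∈ S) (hm : ∀ i, w i ∈ ends (e i)) :
    M.Indep (range e) := by
  classical
  have hc : ∀ i (h : ∃ j, e j = e i), w h.choose = w i := by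
    intro i h
    rw [he h.choose_spec]
  refine hB.ind (range e) (fun x => if h : ∃ j, e j = x then w h.choose else
    (exists_mem_ends ends x).choose) ?_ ?_ ?_
  · rintro _ ⟨i, rfl⟩
    exact hS i
  · rintro _ ⟨i, rfl⟩ _ ⟨j, rfl⟩ h
    have hi : ∃ k, e k = e i := ⟨i, rfl⟩
    have hj : ∃ k, e k = e j := ⟨j, rfl⟩
    simp only [dif_pos hi, dif_pos hj] at h
    rw [hc i hi, hc j hj] at h
    rw [hw h]
  · rintro _ ⟨i, rfl⟩
    have hi : ∃ k, e k = e i := ⟨i, rfl⟩
    simp only [dif_pos hi]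
    rw [hc i hi]
    exact hm i

/-- a square with one more edge has rank five -/
lemma Grd.dfive {N : Matroid α} [N.Finite] (hB : Bic N S ends) (hG : Grd S ends x y a b) {r c : ℕ}
    (hr : rect r c 2 2 ⊆ rect x y a b) {e₅ : α} {v w : ℕ × ℕ} (h₅ : e₅ ∈ S)
    (he₅ : ends e₅ = s(v, w)) (hw : w ∉ rect r c 2 2) :
    ∃ C : Set α, C ⊆ ins S ends (rect r c 2 2 ∪ {v, w}) ∧ rk N C = 5 := by
  have k1 : (r, c) ∈ rect r c 2 2 := by rw [dmem_rect]; omega
  have k2 : (r, c + 1) ∈ rect r c 2 2 := by rw [dmem_rect]; omega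
  have k3 : (r + 1, c) ∈ rect r c 2 2 := by rw [dmem_rect]; omega
  have k4 : (r + 1, c + 1) ∈ rect r c 2 2 := by rw [dmem_rect]; omega
  obtain ⟨x1, s1, e1⟩ := hG.deh (hr k1) (hr k2)
  obtain ⟨x2, s2, e2⟩ := hG.deh (hr k3) (hr k4)
  obtain ⟨x3, s3, e3⟩ := hG.dev (hr k1) (hr k3)
  obtain ⟨x4, s4, e4⟩ := hG.dev (hr k2) (hr k4)
  set ev : Fin 5 → α := ![x1, x2, x3, x4, e₅] with hev
  set wv : Fin 5 → ℕ × ℕ := ![(r, c + 1), (r + 1, c), (r, c), (r + 1, c + 1), w]
    with hwv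
  have hm : ∀ i, wv i ∈ ends (ev i) := by
    intro i
    fin_cases i
    · show (r, c + 1) ∈ ends x1
      rw [e1]; simp
    · show (r + 1, c) ∈ ends x2
      rw [e2]; simp
    · show (r, c) ∈ ends x3
      rw [e3]; simp
    · show (r + 1, c + 1) ∈ ends x4
      rw [e4]; simp
    · show w ∈ ends e₅
      rw [he₅]; simp
  have n12 : x1 ≠ x2 := by
    rintro rfl
    rw [e1, Sym2.eq_iff] at e2
    simp at e2
  have n13 : x1 ≠ x3 := by
    rintro rfl
    rw [e1, Sym2.eq_iff] at e3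
    simp at e3
  have n14 : x1 ≠ x4 := by
    rintro rfl
    rw [e1, Sym2.eq_iff] at e4
    simp at e4
  have n23 : x2 ≠ x3 := by
    rintro rfl
    rw [e2, Sym2.eq_iff] at e3
    simp at e3
  have n24 : x2 ≠ x4 := by
    rintro rfl
    rw [e2, Sym2.eq_iff] at e4
    simp at e4
  have n34 : x3 ≠ x4 := by
    rintro rfl
    rw [e3, Sym2.eq_iff] at e4
    simp at e4
  have n5 : ∀ {z : α} {p q : ℕ × ℕ}, ends z = s(p, q) → p ∈ rect r c 2 2 → q ∈ rect r c 2 2 →
      z ≠ e₅ := by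
    rintro z p q hz hp hq rfl
    have : w ∈ ends z := by rw [he₅]; simp
    rw [hz] at this
    rcases Sym2.mem_iff.1 this with h | h
    · exact hw (h ▸ hp)
    · exact hw (h ▸ hq)
  have n15 := n5 e1 k1 k2
  have n25 := n5 e2 k3 k4
  have n35 := n5 e3 k1 k3
  have n45 := n5 e4 k2 k4
  have w1 : w ≠ (r, c) := fun h => hw (h ▸ k1)
  have w2 : w ≠ (r, c + 1) := fun h => hw (h ▸ k2)
  have w3 : w ≠ (r + 1, c) := fun h => hw (h ▸ k3)
  have w4 : w ≠ (r + 1, c + 1) := fun h => hw (h ▸ k4)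
  have hinj : Function.Injective ev := by
    intro i j hij
    fin_cases i <;> fin_cases j <;> first | rfl | (exfalso; simp [ev] at hij; done) | (exfalso; simp [ev] at hij; simp_all)
  have hwinj : Function.Injective wv := by
    intro i j hij
    fin_cases i <;> fin_cases j <;> first | rfl | (exfalso; simp [wv] at hij; done) | (exfalso; simp [wv] at hij; simp_all)
  have hS : ∀ i, ev i ∈ S := by
    intro i
    fin_cases i <;> assumption
  have hI := dindep_range hB ev wv hinj hwinj hS hm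
  refine ⟨range ev, ?_, ?_⟩
  · rintro _ ⟨i, rfl⟩
    fin_cases i
    · exact dmem_ins_of s1 e1 (Or.inl k1) (Or.inl k2)
    · exact dmem_ins_of s2 e2 (Or.inl k3) (Or.inl k4)
    · exact dmem_ins_of s3 e3 (Or.inl k1) (Or.inl k3)
    · exact dmem_ins_of s4 e4 (Or.inl k2) (Or.inl k4)
    · exact dmem_ins_of h₅ he₅ (Or.inr (by simp)) (Or.inr (by simp))
  · rw [rk_indep hI, ← Set.image_univ, Set.ncard_image_of_injective _ hinj, Set.ncard_univ,
      Nat.card_eq_fintype_card, Fintype.card_fin]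


section fill

variable {L N : Matroid α} [L.Finite] [N.Finite] {Z : Set α}

lemma drk_step (L : Matroid α) [L.Finite] (Z : Set α) {A B C : Set α} (h : A ⊆ B ∪ C)
    (hC : C.Subsingleton) : rk L (Z ∪ A) ≤ rk L (Z ∪ B) + 1 := by
  have h1 : rk L (Z ∪ A) ≤ rk L ((Z ∪ B) ∪ C) := rk_mono L (by
    rw [union_assoc]
    exact union_subset_union_right _ h)
  have h2 := rk_union_le L (X := Z ∪ B) (Y := C) hC.finite
  have h3 := ncard_le_one_of_sub hC
  omega

/-- a new vertex with no neighbour -/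
lemma dadd0 (hG : Grd S ends x y a b) {T : Set (ℕ × ℕ)} {r c : ℕ}
    (hup : (r + 1, c) ∉ T) (hri : (r, c + 1) ∉ T) (hle : ∀ c', c' + 1 = c → (r, c') ∉ T)
    (hdo : ∀ r', r' + 1 = r → (r', c) ∉ T) :
    rk L (Z ∪ ins S ends (insert (r, c) T)) ≤ rk L (Z ∪ ins S ends T) := by
  refine rk_mono L (union_subset_union_right _ ((hG.dins_insert hup hri).trans ?_))
  refine union_subset le_rfl (union_subset ?_ ?_)
  · rintro e ⟨_, c', h1, h2, _⟩
    exact absurd h2 (hle c' h1)
  · rintro e ⟨_, r', h1, h2, _⟩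
    exact absurd h2 (hdo r' h1)

/-- a new vertex with no neighbour in its column -/
lemma dadd1l (hG : Grd S ends x y a b) {T : Set (ℕ × ℕ)} {r c : ℕ}
    (hup : (r + 1, c) ∉ T) (hri : (r, c + 1) ∉ T)
    (hdo : ∀ r', r' + 1 = r → (r', c) ∉ T) :
    rk L (Z ∪ ins S ends (insert (r, c) T)) ≤ rk L (Z ∪ ins S ends T) + 1 := by
  refine drk_step L Z (C := {e | e ∈ S ∧ ends e = s((r, c - 1), (r, c))})
    ((hG.dins_insert hup hri).trans ?_) hG.dedge_sub
  refine union_subset_union_right _ (union_subset ?_ ?_)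
  · rintro e ⟨h0, c', rfl, h2, h3⟩
    exact ⟨h0, by rw [h3, Nat.add_sub_cancel]⟩
  · rintro e ⟨_, r', h1, h2, _⟩
    exact absurd h2 (hdo r' h1)

/-- a new vertex with no neighbour in its row -/
lemma dadd1d (hG : Grd S ends x y a b) {T : Set (ℕ × ℕ)} {r c : ℕ}
    (hup : (r + 1, c) ∉ T) (hri : (r, c + 1) ∉ T)
    (hle : ∀ c', c' + 1 = c → (r, c') ∉ T) :
    rk L (Z ∪ ins S ends (insert (r, c) T)) ≤ rk L (Z ∪ ins S ends T) + 1 := by
  refine drk_step L Z (C := {e | e ∈ S ∧ ends e = s((r - 1, c), (r, c))})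
    ((hG.dins_insert hup hri).trans ?_) hG.dedge_sub
  refine union_subset_union_right _ (union_subset ?_ ?_)
  · rintro e ⟨h0, c', h1, h2, _⟩
    exact absurd h2 (hle c' h1)
  · rintro e ⟨h0, r', rfl, h2, h3⟩
    exact ⟨h0, by rw [h3, Nat.add_sub_cancel]⟩

/-- any new vertex -/
lemma dadd2 (hG : Grd S ends x y a b) {T : Set (ℕ × ℕ)} {r c : ℕ}
    (hup : (r + 1, c) ∉ T) (hri : (r, c + 1) ∉ T) :
    rk L (Z ∪ ins S ends (insert (r, c) T)) ≤ rk L (Z ∪ ins S ends T) + 2 := by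
  have h1 := drk_step L Z (A := ins S ends (insert (r, c) T))
    (B := ins S ends T ∪ {e | e ∈ S ∧ ends e = s((r, c - 1), (r, c))})
    (C := {e | e ∈ S ∧ ends e = s((r - 1, c), (r, c))}) (by
      rw [union_assoc]
      refine (hG.dins_insert hup hri).trans
        (union_subset_union_right _ (union_subset_union ?_ ?_))
      · rintro e ⟨h0, c', rfl, h2, h3⟩
        exact ⟨h0, by rw [h3, Nat.add_sub_cancel]⟩
      · rintro e ⟨h0, r', rfl, h2, h3⟩
        exact ⟨h0, by rw [h3, Nat.add_sub_cancel]⟩) hG.dedge_sub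
  have h2 := drk_step L Z (A := ins S ends T ∪ {e | e ∈ S ∧ ends e = s((r, c - 1), (r, c))})
    (B := ins S ends T) (C := {e | e ∈ S ∧ ends e = s((r, c - 1), (r, c))}) le_rfl hG.dedge_sub
  omega

omit [N.Finite] in
/-- a new vertex which closes a domino -/
lemma daddD (hG : Grd S ends x y a b) (hQ : ∀ X ⊆ S, rk L Z + rk N X ≤ rk L (Z ∪ X))
    {T D : Set (ℕ × ℕ)} {r c : ℕ}
    (hup : (r + 1, c) ∉ T) (hri : (r, c + 1) ∉ T) (hD : (r, c) ∈ D)
    (hle : ∀ c', c' + 1 = c → (r, c') ∈ D) (hdo : ∀ r', r' + 1 = r → (r', c) ∈ D)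
    (hD6 : rk L (Z ∪ ins S ends D) ≤ rk L Z + 6)
    {C : Set α} (h5 : rk N C = 5) (hCT : C ⊆ ins S ends T) (hCD : C ⊆ ins S ends D) :
    rk L (Z ∪ ins S ends (insert (r, c) T)) ≤ rk L (Z ∪ ins S ends T) + 1 := by
  have h1 : rk L (Z ∪ ins S ends (insert (r, c) T)) ≤
      rk L ((Z ∪ ins S ends T) ∪ (Z ∪ ins S ends D)) := by
    refine rk_mono L ?_
    refine union_subset (subset_union_left.trans subset_union_left)
      ((hG.dins_insert hup hri).trans (union_subset ?_ (union_subset ?_ ?_)))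
    · exact subset_union_right.trans subset_union_left
    · rintro e ⟨h0, c', h1, h2, h3⟩
      exact Or.inr (Or.inr (dmem_ins_of h0 h3 (hle c' h1) hD))
    · rintro e ⟨h0, r', h1, h2, h3⟩
      exact Or.inr (Or.inr (dmem_ins_of h0 h3 (hdo r' h1) hD))
  have h2 := rk_submod L (Z ∪ ins S ends T) (Z ∪ ins S ends D)
  have h3 : rk L (Z ∪ C) ≤ rk L ((Z ∪ ins S ends T) ∩ (Z ∪ ins S ends D)) := by
    refine rk_mono L (union_subset (subset_inter subset_union_left subset_union_left)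
      (subset_inter (hCT.trans subset_union_right) (hCD.trans subset_union_right)))
  have h4 := hQ C (hCT.trans (fun e he => he.1))
  omega

/-- row-major initial segments -/
def DSeg (x y b r c : ℕ) : Set (ℕ × ℕ) :=
  {p | x ≤ p.1 ∧ y ≤ p.2 ∧ p.2 < y + b ∧ (p.1 < x + r ∨ (p.1 = x + r ∧ p.2 < y + c))}

lemma dmem_Seg {x y b r c u v : ℕ} : (u, v) ∈ DSeg x y b r c ↔
    x ≤ u ∧ y ≤ v ∧ v < y + b ∧ (u < x + r ∨ (u = x + r ∧ v < y + c)) := Iff.rfl

lemma DSeg_succ {x y b r c : ℕ} (hc : c < b) :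
    DSeg x y b r (c + 1) = insert (x + r, y + c) (DSeg x y b r c) := by
  ext ⟨u, v⟩
  rw [mem_insert_iff, dmem_Seg, dmem_Seg, Prod.mk.injEq]
  omega

lemma DSeg_full {x y b r : ℕ} : DSeg x y b r b = DSeg x y b (r + 1) 0 := by
  ext ⟨u, v⟩
  rw [dmem_Seg, dmem_Seg]
  omega

lemma DSeg_zero {x y b : ℕ} : DSeg x y b 0 0 = ∅ := by
  ext ⟨u, v⟩
  rw [dmem_Seg]
  simp only [mem_empty_iff_false, iff_false]
  omega

lemma DSeg_rect {x y a b : ℕ} : DSeg x y b a 0 = rect x y a b := by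
  ext ⟨u, v⟩
  rw [dmem_Seg, dmem_rect]
  omega

lemma dins_empty : ins S ends (∅ : Set (ℕ × ℕ)) = ∅ := by
  ext e
  simp only [mem_empty_iff_false, iff_false]
  rintro ⟨_, h⟩
  obtain ⟨v, hv⟩ := exists_mem_ends ends e
  exact h v hv

/-- the first row -/
lemma drow0 (hG : Grd S ends x y a b) : ∀ c, c ≤ b →
    rk L (Z ∪ ins S ends (DSeg x y b 0 c)) + (if c = 0 then 0 else 1) ≤ rk L Z + c := by
  intro c
  induction c with
  | zero =>
    intro _
    rw [DSeg_zero, dins_empty, union_empty]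
    simp
  | succ c ih =>
    intro hc
    have ih' := ih (by omega)
    rw [DSeg_succ (by omega), if_neg (by omega)]
    rcases Nat.eq_zero_or_pos c with h0 | h0
    · subst h0
      have := dadd0 (L := L) (Z := Z) hG (T := DSeg x y b 0 0) (r := x + 0) (c := y + 0)
        (by rw [dmem_Seg]; omega) (by rw [dmem_Seg]; omega) (by intro c' _; rw [dmem_Seg]; omega)
        (by intro r' _; rw [dmem_Seg]; omega)
      simp only [if_true] at ih'
      omega
    · have := dadd1l (L := L) (Z := Z) hG (T := DSeg x y b 0 c) (r := x + 0) (c := y + c)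
        (by rw [dmem_Seg]; omega) (by rw [dmem_Seg]; omega)
        (by intro r' _; rw [dmem_Seg]; omega)
      rw [if_neg (by omega)] at ih'
      omega

/-- the second row -/
lemma drow1 (hB : Bic N S ends) (hG : Grd S ends x y a b)
    (hQ : ∀ X ⊆ S, rk L Z + rk N X ≤ rk L (Z ∪ X)) (ha : 2 ≤ a)
    (hd : ∀ r c, rect r c 2 3 ⊆ rect x y a b → rk L (Z ∪ ins S ends (rect r c 2 3)) ≤ rk L Z + 6)
    (h0 : rk L (Z ∪ ins S ends (DSeg x y b 1 0)) + 1 ≤ rk L Z + b) : ∀ c, c ≤ b →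
    rk L (Z ∪ ins S ends (DSeg x y b 1 c)) + (if c ≤ 1 then 1 else 0) ≤ rk L Z + b + c := by
  intro c
  induction c with
  | zero =>
    intro _
    simpa using h0
  | succ c ih =>
    intro hc
    have ih' := ih (by omega)
    rw [DSeg_succ (by omega)]
    rcases Nat.lt_or_ge c 2 with h2 | h2
    · rcases Nat.eq_zero_or_pos c with h0 | h0
      · subst h0
        have := dadd1d (L := L) (Z := Z) hG (T := DSeg x y b 1 0) (r := x + 1) (c := y + 0)
          (by rw [dmem_Seg]; omega) (by rw [dmem_Seg]; omega) (by intro c' _; rw [dmem_Seg]; omega)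
        simp only [Nat.zero_le, if_true] at ih'
        rw [if_pos (by omega)]
        omega
      · obtain rfl : c = 1 := by omega
        have := dadd2 (L := L) (Z := Z) hG (T := DSeg x y b 1 1) (r := x + 1) (c := y + 1)
          (by rw [dmem_Seg]; omega) (by rw [dmem_Seg]; omega)
        rw [if_pos le_rfl] at ih'
        rw [if_neg (by omega)]
        omega
    · obtain ⟨d, rfl⟩ : ∃ d, c = d + 2 := ⟨c - 2, by omega⟩
      have hr : rect x (y + d) 2 3 ⊆ rect x y a b := by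
        rintro ⟨u, v⟩ huv
        rw [dmem_rect] at huv ⊢
        omega
      obtain ⟨e₅, s5, he5⟩ := hG.deh (r := x) (c := y + d + 1) (by rw [dmem_rect]; omega)
        (by rw [dmem_rect]; omega)
      obtain ⟨C, hC, h5⟩ := hG.dfive hB (r := x) (c := y + d) (by
        rintro ⟨u, v⟩ huv
        rw [dmem_rect] at huv ⊢
        omega) s5 he5 (by rw [dmem_rect]; omega)
      have := daddD (L := L) (Z := Z) hG hQ (T := DSeg x y b 1 (d + 2)) (D := rect x (y + d) 2 3)
        (r := x + 1) (c := y + (d + 2)) (by rw [dmem_Seg]; omega) (by rw [dmem_Seg]; omega)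
        (by rw [dmem_rect]; omega) (by intro c' _; rw [dmem_rect]; omega)
        (by intro c' _; rw [dmem_rect]; omega) (hd _ _ hr) h5 (hC.trans (ins_mono (by
          rintro ⟨u, v⟩ (huv | huv | huv)
          · rw [dmem_rect] at huv
            rw [dmem_Seg]
            omega
          · obtain ⟨rfl, rfl⟩ := Prod.mk.inj huv
            rw [dmem_Seg]
            omega
          · obtain ⟨rfl, rfl⟩ := Prod.mk.inj huv
            rw [dmem_Seg]
            omega))) (hC.trans (ins_mono (by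
          rintro ⟨u, v⟩ (huv | huv | huv)
          · rw [dmem_rect] at huv ⊢
            omega
          · obtain ⟨rfl, rfl⟩ := Prod.mk.inj huv
            rw [dmem_rect]
            omega
          · obtain ⟨rfl, rfl⟩ := Prod.mk.inj huv
            rw [dmem_rect]
            omega)))
      rw [if_neg (by omega)] at ih' ⊢
      omega

/-- the other rows -/
lemma drow2 (hB : Bic N S ends) (hG : Grd S ends x y a b)
    (hQ : ∀ X ⊆ S, rk L Z + rk N X ≤ rk L (Z ∪ X)) {r : ℕ} (hr : r + 2 < a)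
    (hd : ∀ r c, rect r c 3 2 ⊆ rect x y a b → rk L (Z ∪ ins S ends (rect r c 3 2)) ≤ rk L Z + 6)
    (h0 : rk L (Z ∪ ins S ends (DSeg x y b (r + 2) 0)) ≤ rk L Z + (r + 2) * b) : ∀ c, c ≤ b →
    rk L (Z ∪ ins S ends (DSeg x y b (r + 2) c)) ≤ rk L Z + (r + 2) * b + c := by
  intro c
  induction c with
  | zero =>
    intro _
    simpa using h0
  | succ c ih =>
    intro hc
    have ih' := ih (by omega)
    rw [DSeg_succ (by omega)]
    rcases Nat.eq_zero_or_pos c with h0 | h0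
    · subst h0
      have := dadd1d (L := L) (Z := Z) hG (T := DSeg x y b (r + 2) 0) (r := x + (r + 2))
        (c := y + 0)
        (by rw [dmem_Seg]; omega) (by rw [dmem_Seg]; omega) (by intro c' _; rw [dmem_Seg]; omega)
      omega
    · obtain ⟨d, rfl⟩ : ∃ d, c = d + 1 := ⟨c - 1, by omega⟩
      have hrr : rect (x + r) (y + d) 3 2 ⊆ rect x y a b := by
        rintro ⟨u, v⟩ huv
        rw [dmem_rect] at huv ⊢
        omega
      obtain ⟨e₅, s5, he5⟩ := hG.dev (r := x + r + 1) (c := y + d) (by rw [dmem_rect]; omega)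
        (by rw [dmem_rect]; omega)
      obtain ⟨C, hC, h5⟩ := hG.dfive hB (r := x + r) (c := y + d) (by
        rintro ⟨u, v⟩ huv
        rw [dmem_rect] at huv ⊢
        omega) s5 he5 (by rw [dmem_rect]; omega)
      have := daddD (L := L) (Z := Z) hG hQ (T := DSeg x y b (r + 2) (d + 1))
        (D := rect (x + r) (y + d) 3 2)
        (r := x + (r + 2)) (c := y + (d + 1)) (by rw [dmem_Seg]; omega) (by rw [dmem_Seg]; omega)
        (by rw [dmem_rect]; omega) (by intro c' _; rw [dmem_rect]; omega)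
        (by intro c' _; rw [dmem_rect]; omega) (hd _ _ hrr) h5 (hC.trans (ins_mono (by
          rintro ⟨u, v⟩ (huv | huv | huv)
          · rw [dmem_rect] at huv
            rw [dmem_Seg]
            omega
          · obtain ⟨rfl, rfl⟩ := Prod.mk.inj huv
            rw [dmem_Seg]
            omega
          · obtain ⟨rfl, rfl⟩ := Prod.mk.inj huv
            rw [dmem_Seg]
            omega))) (hC.trans (ins_mono (by
          rintro ⟨u, v⟩ (huv | huv | huv)
          · rw [dmem_rect] at huv ⊢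
            omega
          · obtain ⟨rfl, rfl⟩ := Prod.mk.inj huv
            rw [dmem_rect]
            omega
          · obtain ⟨rfl, rfl⟩ := Prod.mk.inj huv
            rw [dmem_rect]
            omega)))
      omega

end fill

/-- **The dominoes generate.** If over `Z` every domino of the rectangle has rank at most six
then the rectangle has rank at most its number of vertices. -/
theorem domino {L N : Matroid α} [L.Finite] [N.Finite] {Z : Set α} (hB : Bic N S ends)
    (hG : Grd S ends x y a b) (hQ : ∀ X ⊆ S, rk L Z + rk N X ≤ rk L (Z ∪ X))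
    (ha : 2 ≤ a) (hb : 2 ≤ b)
    (hd1 : ∀ r c, rect r c 2 3 ⊆ rect x y a b → rk L (Z ∪ ins S ends (rect r c 2 3)) ≤ rk L Z + 6)
    (hd2 : ∀ r c, rect r c 3 2 ⊆ rect x y a b → rk L (Z ∪ ins S ends (rect r c 3 2)) ≤ rk L Z + 6) :
    rk L (Z ∪ S) ≤ rk L Z + a * b := by
  have h1 := drow0 (L := L) (Z := Z) hG b le_rfl
  rw [DSeg_full, if_neg (by omega)] at h1
  have h2 := drow1 hB hG hQ ha hd1 h1 b le_rfl
  rw [DSeg_full, if_neg (by omega)] at h2
  have key : ∀ r, r + 2 ≤ a →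
      rk L (Z ∪ ins S ends (DSeg x y b (r + 2) 0)) ≤ rk L Z + (r + 2) * b := by
    intro r
    induction r with
    | zero =>
      intro _
      have h3 : rk L (Z ∪ ins S ends (DSeg x y b 2 0)) + 0 ≤ rk L Z + b + b := h2
      simp only [Nat.zero_add]
      omega
    | succ r ih =>
      intro hr
      have h3 := drow2 hB hG hQ (r := r) (by omega) hd2 (ih (by omega)) b le_rfl
      rw [DSeg_full] at h3
      have e1 : (r + 1 + 2) * b = (r + 2) * b + b := by ring
      have e2 : r + 2 + 1 = r + 1 + 2 := by ring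
      rw [e1, ← e2]
      omega
  have h3 := key (a - 2) (by omega)
  rw [show a - 2 + 2 = a by omega, DSeg_rect] at h3
  have h4 : S ⊆ ins S ends (rect x y a b) := by
    intro e he
    obtain ⟨p, q, e1, _, e3, e4⟩ := hG.mem e he
    exact dmem_ins_of he e1 e3 e4
  exact (rk_mono L (union_subset_union_right _ h4)).trans h3

end BICS
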