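import Pool.Agent.BICS.Defs

/-!
Pigeonhole on nested scales. (Problem MP_5165fa_co.)
-/

open Set BIC
open scoped Matroid

namespace BICS

theorem stable (F : ℕ → ℕ) : ∃ Sc : ℕ → ℕ → ℕ, ∀ {β : Type} (r : β → β → Prop) (side : β → ℕ)
    (f : β → ℕ), (∀ b, r b b) → (∀ a b c, r a b → r b c → r a c) →
    (∀ b b', r b b' → f b ≤ f b') →
    ∀ m s b, f b ≤ m → Sc m s ≤ side b → ∃ b', r b' b ∧ ∃ s', s ≤ s' ∧ F s' ≤ side b' ∧
      ∀ b'', r b'' b' → s' ≤ side b'' → f b'' = f b' := by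
  refine ⟨fun m s => Nat.rec (F s) (fun _ t => F (max t s)) m, ?_⟩
  intro β r side f hrefl htrans hmono m
  induction m with
  | zero =>
    intro s b hb hs
    refine ⟨b, hrefl b, s, le_rfl, hs, ?_⟩
    intro b'' hb'' _
    have := hmono b'' b hb''
    omega
  | succ m ih =>
    intro s b hb hs
    by_cases h : ∀ b'', r b'' b →
        max (Nat.rec (F s) (fun _ t => F (max t s)) m : ℕ) s ≤ side b'' → f b'' = f b
    · exact ⟨b, hrefl b, _, le_max_right _ _, hs, h⟩
    · push Not at h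
      obtain ⟨b'', h1, h2, h3⟩ := h
      have h4 := hmono b'' b h1
      obtain ⟨b', g1, s', g2, g3, g4⟩ := ih s b'' (by omega) (le_trans (le_max_left _ _) h2)
      exact ⟨b', htrans _ _ _ g1 h1, s', g2, g3, g4⟩

end BICS
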