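import Pool.Agent.BICS.RkRect
import Pool.Agent.BICS.Pig
import Pool.Agent.BICS.Domino
import Pool.Agent.BICS.C1

/-!
# Cleaning one side: the lift defect of a large grid is either large everywhere (then `U_{k,2k}`)
or is killed by contracting a bounded set.  (Problem MP_5165fa_co.)
-/

open Set BIC
open scoped Matroid

namespace BICS

universe u

variable {α : Type*}

lemma mem_rct {x y a b : ℕ} {p : ℕ × ℕ} :
    p ∈ rect x y a b ↔ x ≤ p.1 ∧ p.1 < x + a ∧ y ≤ p.2 ∧ p.2 < y + b := Iff.rfl

/-- a rectangle has at most `2 a b` elements -/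
lemma rect_card {S : Set α} {ends : α → Sym2 (ℕ × ℕ)} {x y a b x' y' a' b' : ℕ}
    (hG : Grd S ends x y a b) (h : rect x' y' a' b' ⊆ rect x y a b) :
    (ins S ends (rect x' y' a' b')).ncard ≤ 2 * (a' * b') := by
  have hG' := Grd_sub hG h
  set T := ins S ends (rect x' y' a' b') with hT
  let P : Finset (Sym2 (ℕ × ℕ)) :=
    ((Finset.range a' ×ˢ Finset.range b').image
      (fun c => s((x' + c.1, y' + c.2), (x' + c.1, y' + c.2 + 1)))) ∪
    ((Finset.range a' ×ˢ Finset.range b').image
      (fun c => s((x' + c.1, y' + c.2), (x' + c.1 + 1, y' + c.2))))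
  have hP : P.card ≤ 2 * (a' * b') := by
    refine (Finset.card_union_le _ _).trans ?_
    have h1 := Finset.card_image_le (s := Finset.range a' ×ˢ Finset.range b')
      (f := fun c : ℕ × ℕ => s((x' + c.1, y' + c.2), (x' + c.1, y' + c.2 + 1)))
    have h2 := Finset.card_image_le (s := Finset.range a' ×ˢ Finset.range b')
      (f := fun c : ℕ × ℕ => s((x' + c.1, y' + c.2), (x' + c.1 + 1, y' + c.2)))
    rw [Finset.card_product, Finset.card_range, Finset.card_range] at h1 h2
    omega
  have hsub : ends '' T ⊆ (P : Set (Sym2 (ℕ × ℕ))) := by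
    rintro _ ⟨e, he, rfl⟩
    obtain ⟨⟨p1, p2⟩, ⟨q1, q2⟩, hpq, hadj, hp, hq⟩ := hG'.mem e he
    obtain ⟨hp1, hp2, hp3, hp4⟩ := hp
    obtain ⟨hq1, hq2, hq3, hq4⟩ := hq
    simp only at hp1 hp2 hp3 hp4 hq1 hq2 hq3 hq4
    rw [hpq]
    simp only [P, Finset.coe_union, Finset.coe_image, Set.mem_union, Set.mem_image,
      Finset.mem_coe, Finset.mem_product, Finset.mem_range, Prod.exists]
    rcases hadj with ⟨h1, h2⟩ | ⟨h1, h2⟩
    · simp only at h1 h2
      left
      rcases h2 with h2 | h2
      · exact ⟨p1 - x', p2 - y', ⟨by omega, by omega⟩, by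
          rw [show x' + (p1 - x') = p1 by omega, show y' + (p2 - y') = p2 by omega, h2, h1]⟩
      · exact ⟨p1 - x', q2 - y', ⟨by omega, by omega⟩, by
          rw [show x' + (p1 - x') = p1 by omega, show y' + (q2 - y') = q2 by omega, h2, h1,
            Sym2.eq_swap]⟩
    · simp only at h1 h2
      right
      rcases h2 with h2 | h2
      · exact ⟨p1 - x', p2 - y', ⟨by omega, by omega⟩, by
          rw [show x' + (p1 - x') = p1 by omega, show y' + (p2 - y') = p2 by omega, h2, h1]⟩
      · exact ⟨q1 - x', p2 - y', ⟨by omega, by omega⟩, by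
          rw [show x' + (q1 - x') = q1 by omega, show y' + (p2 - y') = p2 by omega, h2, h1,
            Sym2.eq_swap]⟩
  have hinj : InjOn ends T := hG'.inj
  have h1 : (ends '' T).ncard ≤ P.card := by
    rw [← Set.ncard_coe_finset]
    exact Set.ncard_le_ncard hsub (Finset.finite_toSet P)
  rw [hinj.ncard_image] at h1
  omega

lemma rk_empty' {M : Matroid α} [M.Finite] : rk M (∅ : Set α) = 0 := by
  have : rk M (∅ : Set α) ≤ (∅ : Set α).ncard := rk_le_ncard M finite_empty
  simpa using this

lemma Quo.le {L N : Matroid α} [L.Finite] [N.Finite] {S : Set α} (h : Quo L N S) {X : Set α}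
    (hX : X ⊆ S) : rk N X ≤ rk L X := by
  have := h ∅ X (empty_subset _) hX
  rw [rk_empty', rk_empty'] at this
  omega

/-- one more domino -/
lemma clean_step {L N : Matroid α} [L.Finite] [N.Finite] {S : Set α}
    {ends : α → Sym2 (ℕ × ℕ)} {x y m : ℕ} (hB : Bic N S ends) (hG : Grd S ends x y m m)
    (hQ : Quo L N S) {V : Set (ℕ × ℕ)} {Z : Set α} (hZ : Z ⊆ ins S ends V) {a b s u j : ℕ}
    (hs : 3 ≤ s) (hab : rect a b s s ⊆ rect x y m m) (hd : Disjoint V (rect a b s s))
    (hu : rk N (blk S ends a b s) + u ≤ rk L (blk S ends a b s)) (hju : j < u)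
    (hZj : rk N Z + j ≤ rk L Z) (hc : Z.ncard ≤ 12 * j) :
    ∃ Z' : Set α, Z' ⊆ ins S ends (V ∪ rect a b s s) ∧ Z'.ncard ≤ 12 * (j + 1) ∧
      rk N Z' + (j + 1) ≤ rk L Z' := by
  have hGs : Grd (blk S ends a b s) ends a b s s := Grd_sub hG hab
  have hBs : Bic N (blk S ends a b s) ends := Bic_sub hB blk_sub
  have hrk : rk N (blk S ends a b s) = s * s := rk_rect hBs hGs (by omega) (by omega)
  by_cases hd1 : rk N Z + (j + 1) ≤ rk L Z
  · exact ⟨Z, hZ.trans (ins_mono subset_union_left), by omega, hd1⟩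
  -- a domino which is not spanned does the job
  have fin : ∀ r c p q, p * q = 6 → 2 ≤ p → 2 ≤ q → rect r c p q ⊆ rect a b s s →
      ¬ rk L (Z ∪ ins (blk S ends a b s) ends (rect r c p q)) ≤ rk L Z + 6 →
      ∃ Z' : Set α, Z' ⊆ ins S ends (V ∪ rect a b s s) ∧ Z'.ncard ≤ 12 * (j + 1) ∧
        rk N Z' + (j + 1) ≤ rk L Z' := by
    intro r c p q hpq hp hq h1 h2
    have e1 : ins (blk S ends a b s) ends (rect r c p q) = ins S ends (rect r c p q) :=
      ins_ins h1
    rw [e1] at h2
    have h9 : rk N (ins S ends (rect r c p q)) = p * q :=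
      rk_rect (Bic_sub hB (fun _ he => he.1)) (Grd_sub hG (h1.trans hab)) hp hq
    have hd3 : Disjoint V (rect r c p q) := hd.mono_right h1
    have h3 := rk_skew hB hd3 hZ (subset_refl (ins S ends (rect r c p q)))
    have h4 := rect_card hG (h1.trans hab)
    refine ⟨Z ∪ ins S ends (rect r c p q), ?_, ?_, ?_⟩
    · exact union_subset (hZ.trans (ins_mono subset_union_left))
        (ins_mono (h1.trans subset_union_right))
    · have := Set.ncard_union_le Z (ins S ends (rect r c p q))
      omega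
    · omega
  by_cases ht1 : ∀ r c, rect r c 2 3 ⊆ rect a b s s →
      rk L (Z ∪ ins (blk S ends a b s) ends (rect r c 2 3)) ≤ rk L Z + 6
  · by_cases ht2 : ∀ r c, rect r c 3 2 ⊆ rect a b s s →
        rk L (Z ∪ ins (blk S ends a b s) ends (rect r c 3 2)) ≤ rk L Z + 6
    · exfalso
      have hq : ∀ X ⊆ blk S ends a b s, rk L Z + rk N X ≤ rk L (Z ∪ X) := by
        intro X hX
        have h1 := hQ Z (Z ∪ X) subset_union_left (union_subset (hZ.trans (fun _ he => he.1))
          (hX.trans blk_sub))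
        have h2 := rk_skew hB hd hZ hX
        omega
      have h1 := domino hBs hGs hq (by omega) (by omega) ht1 ht2
      have h2 := hQ (blk S ends a b s) (Z ∪ blk S ends a b s) subset_union_right
        (union_subset (hZ.trans (fun _ he => he.1)) blk_sub)
      have h3 := rk_skew hB hd hZ (subset_refl (blk S ends a b s))
      omega
    · push Not at ht2
      obtain ⟨r, c, h1, h2⟩ := ht2
      exact fin r c 3 2 (by norm_num) (by norm_num) (by norm_num) h1 (by omega)
  · push Not at ht1
    obtain ⟨r, c, h1, h2⟩ := ht1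
    exact fin r c 2 3 (by norm_num) (by norm_num) (by norm_num) h1 (by omega)

/-- `j` tiles -/
lemma clean_tiles {L N : Matroid α} [L.Finite] [N.Finite] {S : Set α}
    {ends : α → Sym2 (ℕ × ℕ)} {x y m : ℕ} (hB : Bic N S ends) (hG : Grd S ends x y m m)
    (hQ : Quo L N S) {a b s u : ℕ} (hs : 3 ≤ s)
    (hu : ∀ a' b', rect a' b' s s ⊆ rect x y m m →
      rk N (blk S ends a' b' s) + u ≤ rk L (blk S ends a' b' s)) :
    ∀ j ≤ u, rect a b (j * s) s ⊆ rect x y m m → ∃ Z : Set α, Z ⊆ ins S ends (rect a b (j * s) s) ∧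
      Z.ncard ≤ 12 * j ∧ rk N Z + j ≤ rk L Z := by
  intro j
  induction j with
  | zero =>
    intro _ _
    exact ⟨∅, empty_subset _, by simp, by rw [rk_empty']; omega⟩
  | succ j ih =>
    intro hj hab
    have e1 : rect a b (j * s) s ∪ rect (a + j * s) b s s = rect a b ((j + 1) * s) s := by
      ext p
      simp only [mem_union, mem_rct, Nat.succ_mul]
      omega
    have h1 : rect a b (j * s) s ⊆ rect a b ((j + 1) * s) s := by
      rw [← e1]; exact subset_union_left
    have h2 : rect (a + j * s) b s s ⊆ rect a b ((j + 1) * s) s := by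
      rw [← e1]; exact subset_union_right
    obtain ⟨Z, hZ, hZc, hZd⟩ := ih (by omega) (h1.trans hab)
    have hdis : Disjoint (rect a b (j * s) s) (rect (a + j * s) b s s) := by
      rw [Set.disjoint_left]
      intro p hp hq
      rw [mem_rct] at hp hq
      omega
    have h3 := clean_step hB hG hQ hZ hs (h2.trans hab) hdis (hu _ _ (h2.trans hab))
      (show j < u by omega) hZd hZc
    rw [e1] at h3
    exact h3

theorem side3_of (k c t : ℕ)
    (thmC1 : ∀ s : ℕ, ∃ m : ℕ, ∀ {α : Type u} (L N : Matroid α) [L.Finite] [N.Finite]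
      (S : Set α) (ends : α → Sym2 (ℕ × ℕ)) (x y u : ℕ), S ⊆ L.E → Bic N S ends →
      Grd S ends x y m m → Quo L N S → k ≤ u →
      (∀ a b c, s ≤ c → rect a b c c ⊆ rect x y m m →
        rk L (blk S ends a b c) = rk N (blk S ends a b c) + u) → HasUniformMinor L k) :
    ∃ m : ℕ, ∀ {α : Type u} (L N : Matroid α) [L.Finite] [N.Finite]
    (S : Set α) (ends : α → Sym2 (ℕ × ℕ)) (x y : ℕ), S ⊆ L.E → Bic N S ends →
    Grd S ends x y m m → Quo L N S → rk L S ≤ rk N S + c →
    HasUniformMinor L k ∨ ∃ Z ⊆ S, Z.ncard ≤ 12 * k ∧ ∃ a b, rect a b t t ⊆ rect x y m m ∧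
      Disjoint Z (blk S ends a b t) ∧
      ∀ X ⊆ blk S ends a b t, rk L (X ∪ Z) = rk N X + rk L Z := by
  choose mC hC using thmC1
  obtain ⟨Sc, hSc⟩ := stable (fun s => mC s + s + k * s + t)
  refine ⟨Sc c 3, ?_⟩
  intro α L N _ _ S ends x y hSL hB hG hQ hc
  set m := Sc c 3 with hm
  have hle : ∀ {X : Set α}, X ⊆ S → rk N X ≤ rk L X := fun hX => Quo.le hQ hX
  obtain ⟨⟨a, b, r⟩, hr, s, hs3, hF, hst⟩ := hSc
    (fun p q : ℕ × ℕ × ℕ => rect p.1 p.2.1 p.2.2 p.2.2 ⊆ rect q.1 q.2.1 q.2.2 q.2.2)
    (fun p => p.2.2)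
    (fun p => rk L (blk S ends p.1 p.2.1 p.2.2) - rk N (blk S ends p.1 p.2.1 p.2.2))
    (fun _ => subset_refl _) (fun _ _ _ h1 h2 => h1.trans h2)
    (by
      intro p q hpq
      have h1 := hQ _ _ (blk_mono hpq : blk S ends p.1 p.2.1 p.2.2 ⊆ blk S ends q.1 q.2.1 q.2.2)
        blk_sub
      omega)
    c 3 (x, y, m) (by
      have h1 : blk S ends x y m = S := Grd_ins_self hG
      simp only [h1]
      omega) (le_refl _)
  simp only at hr hF hst
  set u := rk L (blk S ends a b r) - rk N (blk S ends a b r) with hu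
  -- all sub-squares of side at least `s` have defect exactly `u`
  have key : ∀ a' b' r', rect a' b' r' r' ⊆ rect a b r r → s ≤ r' →
      rk L (blk S ends a' b' r') = rk N (blk S ends a' b' r') + u := by
    intro a' b' r' h1 h2
    have h3 := hst (a', b', r') h1 h2
    simp only at h3
    have h4 := hle (blk_sub (S := S) (ends := ends) (x := a') (y := b') (m := r'))
    omega
  have hub : rk L (blk S ends a b r) = rk N (blk S ends a b r) + u :=
    key a b r (subset_refl _) (by omega)
  by_cases huk : k ≤ u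
  · left
    have hms : rect a b (mC s) (mC s) ⊆ rect a b r r := rect_sub (le_refl _) (by omega)
      (le_refl _) (by omega)
    refine hC s L N (blk S ends a b (mC s)) ends a b u (blk_sub.trans hSL)
      (Bic_sub hB blk_sub) (Grd_sub hG (hms.trans hr)) ?_ huk ?_
    · intro X Y hXY hY
      exact hQ X Y hXY (hY.trans blk_sub)
    · intro a' b' c' hc' hrc
      rw [blk_blk hrc]
      exact key a' b' c' (hrc.trans hms) hc'
  · right
    push Not at huk
    have hus : u * s ≤ k * s := Nat.mul_le_mul_right s huk.le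
    have hZr : rect a b (u * s) s ⊆ rect a b r r := rect_sub (le_refl _) (by omega)
      (le_refl _) (by omega)
    have hWr : rect (a + u * s) b t t ⊆ rect a b r r := rect_sub (by omega) (by omega)
      (le_refl _) (by omega)
    have hGb : Grd (blk S ends a b r) ends a b r r := Grd_sub hG hr
    obtain ⟨Z, hZ, hZc, hZd⟩ := clean_tiles (x := a) (y := b) (m := r) (a := a) (b := b)
      (Bic_sub hB blk_sub) hGb
      (show Quo L N (blk S ends a b r) from fun X Y hXY hY => hQ X Y hXY (hY.trans blk_sub))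
      hs3 (u := u) (by
        intro a' b' hab'
        rw [blk_blk hab']
        have := key a' b' s hab' (le_refl _)
        omega) u (le_refl _) hZr
    have hZb : Z ⊆ blk S ends a b r := hZ.trans (fun _ he => he.1)
    have hZ' : Z ⊆ ins S ends (rect a b (u * s) s) := by
      rw [← ins_ins hZr]
      exact hZ
    have hdis : Disjoint (rect a b (u * s) s) (rect (a + u * s) b t t) := by
      rw [Set.disjoint_left]
      intro p hp hq
      rw [mem_rct] at hp hq
      omega
    refine ⟨Z, hZb.trans blk_sub, by omega, a + u * s, b, hWr.trans hr, ?_, ?_⟩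
    · exact (ins_disj hdis).mono_left hZ'
    · intro X hX
      have hXb : X ⊆ blk S ends a b r := hX.trans (blk_mono hWr)
      have h1 := rk_skew hB hdis hZ' hX
      have h2 := hQ Z (Z ∪ X) subset_union_left (union_subset (hZb.trans blk_sub)
        (hXb.trans blk_sub))
      have h3 := hQ (Z ∪ X) (blk S ends a b r) (union_subset hZb hXb) blk_sub
      rw [union_comm X Z]
      omega

theorem side3 (k c t : ℕ) : ∃ m : ℕ, ∀ {α : Type u} (L N : Matroid α) [L.Finite] [N.Finite]
    (S : Set α) (ends : α → Sym2 (ℕ × ℕ)) (x y : ℕ), S ⊆ L.E → Bic N S ends →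
    Grd S ends x y m m → Quo L N S → rk L S ≤ rk N S + c →
    HasUniformMinor L k ∨ ∃ Z ⊆ S, Z.ncard ≤ 12 * k ∧ ∃ a b, rect a b t t ⊆ rect x y m m ∧
      Disjoint Z (blk S ends a b t) ∧
      ∀ X ⊆ blk S ends a b t, rk L (X ∪ Z) = rk N X + rk L Z :=
  side3_of k c t (fun s => thmC1 k s)

end BICS
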