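import Pool.Agent.BICS.Defs
import Pool.Agent.Helper11.ISO

open Set BIC
open scoped Matroid

namespace BICS

universe u

/-- From `Grd` to the coordinate form `IsGrid` of `Helper11/ISO.lean`. -/
theorem Grd.isGrid {α : Type*} {S : Set α} {ends : α → Sym2 (ℕ × ℕ)} {x y m : ℕ}
    (hG : Grd S ends x y m m) (e₀ : α) :
    ∃ hE vE : ℕ → ℕ → α, IsGrid S ends m (fun i j => (x + i, y + j)) hE vE := by
  classical
  have memr : ∀ {i j : ℕ}, i < m → j < m → ((x + i, y + j) : ℕ × ℕ) ∈ rect x y m m := by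
    intro i j hi hj
    exact ⟨by simp only; omega, by simp only; omega, by simp only; omega, by simp only; omega⟩
  have exH : ∀ {i j : ℕ}, i < m → j + 1 < m →
      ∃ e ∈ S, ends e = s(((x + i, y + j) : ℕ × ℕ), (x + i, y + (j + 1))) := by
    intro i j hi hj
    exact hG.surj _ _ (Or.inl ⟨rfl, Or.inl rfl⟩) (memr hi (by omega)) (memr hi hj)
  have exV : ∀ {i j : ℕ}, i + 1 < m → j < m →
      ∃ e ∈ S, ends e = s(((x + i, y + j) : ℕ × ℕ), (x + (i + 1), y + j)) := by
    intro i j hi hj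
    exact hG.surj _ _ (Or.inr ⟨rfl, Or.inl rfl⟩) (memr (by omega) hj) (memr hi hj)
  set hE : ℕ → ℕ → α := fun i j =>
    if h : ∃ e ∈ S, ends e = s(((x + i, y + j) : ℕ × ℕ), (x + i, y + (j + 1))) then h.choose
    else e₀ with hhE
  set vE : ℕ → ℕ → α := fun i j =>
    if h : ∃ e ∈ S, ends e = s(((x + i, y + j) : ℕ × ℕ), (x + (i + 1), y + j)) then h.choose
    else e₀ with hvE
  have sH : ∀ {i j : ℕ}, i < m → j + 1 < m → hE i j ∈ S ∧
      ends (hE i j) = s(((x + i, y + j) : ℕ × ℕ), (x + i, y + (j + 1))) := by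
    intro i j hi hj
    have h := exH hi hj
    simp only [hhE, dif_pos h]
    exact h.choose_spec
  have sV : ∀ {i j : ℕ}, i + 1 < m → j < m → vE i j ∈ S ∧
      ends (vE i j) = s(((x + i, y + j) : ℕ × ℕ), (x + (i + 1), y + j)) := by
    intro i j hi hj
    have h := exV hi hj
    simp only [hvE, dif_pos h]
    exact h.choose_spec
  refine ⟨hE, vE, ⟨?_, ?_, ?_, ?_⟩⟩
  · intro i j i' j' _ _ _ _ h
    have h1 := congrArg Prod.fst h
    have h2 := congrArg Prod.snd h
    simp only at h1 h2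
    omega
  · intro i j hi hj
    exact sH hi hj
  · intro i j hi hj
    exact sV hi hj
  · intro e he
    obtain ⟨p, q, h1, h2, h3, h4⟩ := hG.mem e he
    -- a general identification
    have key : ∀ p q : ℕ × ℕ, ends e = s(p, q) → p ∈ rect x y m m → q ∈ rect x y m m →
        ((p.1 = q.1 ∧ p.2 + 1 = q.2) ∨ (p.2 = q.2 ∧ p.1 + 1 = q.1)) →
        (∃ i j, i < m ∧ j + 1 < m ∧ e = hE i j) ∨ (∃ i j, i + 1 < m ∧ j < m ∧ e = vE i j) := by
      rintro ⟨p1, p2⟩ ⟨q1, q2⟩ g1 ⟨a1, a2, a3, a4⟩ ⟨b1, b2, b3, b4⟩ g4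
      simp only at a1 a2 a3 a4 b1 b2 b3 b4 g4
      rcases g4 with ⟨c1, c2⟩ | ⟨c1, c2⟩
      · left
        have d1 : p1 - x < m := by omega
        have d2 : p2 - y + 1 < m := by omega
        refine ⟨p1 - x, p2 - y, d1, d2, hG.inj he (sH d1 d2).1 ?_⟩
        rw [(sH d1 d2).2, g1]
        have e1 : x + (p1 - x) = p1 := by omega
        have e2 : y + (p2 - y) = p2 := by omega
        have e3 : y + (p2 - y + 1) = q2 := by omega
        rw [e1, e2, e3, c1]
      · right
        have d1 : p1 - x + 1 < m := by omega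
        have d2 : p2 - y < m := by omega
        refine ⟨p1 - x, p2 - y, d1, d2, hG.inj he (sV d1 d2).1 ?_⟩
        rw [(sV d1 d2).2, g1]
        have e1 : x + (p1 - x) = p1 := by omega
        have e2 : y + (p2 - y) = p2 := by omega
        have e3 : x + (p1 - x + 1) = q1 := by omega
        rw [e1, e2, e3, c1]
    rcases h2 with ⟨h5, h6 | h6⟩ | ⟨h5, h6 | h6⟩
    · exact key p q h1 h3 h4 (Or.inl ⟨h5, h6⟩)
    · exact key q p (by rw [h1, Sym2.eq_swap]) h4 h3 (Or.inl ⟨h5.symm, h6⟩)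
    · exact key p q h1 h3 h4 (Or.inr ⟨h5, h6⟩)
    · exact key q p (by rw [h1, Sym2.eq_swap]) h4 h3 (Or.inr ⟨h5.symm, h6⟩)

/-- explicit form -/
theorem iso' {j : ℕ} {α : Type*} {N : Matroid α} [N.Finite] {S : Set α}
    {ends : α → Sym2 (ℕ × ℕ)} {x y m a b s : ℕ} {A : Set α}
    (hB : Bic N S ends) (hG : Grd S ends x y m m) (hA : A ⊆ S) (hs : 4 * (j + 1) < s)
    (hr : rect a b s s ⊆ rect x y m m) (hblk : blk S ends a b s ⊆ A)
    (hj : rk N A + rk N (S \ A) ≤ rk N S + j) : (S \ A).ncard ≤ 32 * (j + 1) ^ 2 := by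
  classical
  rcases (S \ A).eq_empty_or_nonempty with h0 | ⟨e₀, he₀⟩
  · rw [h0, Set.ncard_empty]; exact Nat.zero_le _
  obtain ⟨hE, vE, hI⟩ := hG.isGrid e₀
  have c1 : ((a, b) : ℕ × ℕ) ∈ rect x y m m := hr ⟨le_refl _, by simp only; omega, le_refl _,
    by simp only; omega⟩
  have c2 : ((a + (s - 1), b + (s - 1)) : ℕ × ℕ) ∈ rect x y m m :=
    hr ⟨by simp only; omega, by simp only; omega, by simp only; omega, by simp only; omega⟩
  obtain ⟨u1, u2, u3, u4⟩ := c1
  obtain ⟨w1, w2, w3, w4⟩ := c2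
  simp only at u1 u2 u3 u4 w1 w2 w3 w4
  have hsub : GBlk hE vE (a - x) (b - y) s ⊆ A := by
    refine Subset.trans ?_ hblk
    rintro e (⟨i, j', g1, g2, g3, g4, rfl⟩ | ⟨i, j', g1, g2, g3, g4, rfl⟩)
    · obtain ⟨k1, k2⟩ := hI.hmem (i := i) (j := j') (by omega) (by omega)
      refine ⟨k1, ?_⟩
      rw [k2]
      intro v hv
      rcases Sym2.mem_iff.1 hv with rfl | rfl
      · exact ⟨by simp only; omega, by simp only; omega, by simp only; omega, by simp only; omega⟩
      · exact ⟨by simp only; omega, by simp only; omega, by simp only; omega, by simp only; omega⟩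
    · obtain ⟨k1, k2⟩ := hI.vmem (i := i) (j := j') (by omega) (by omega)
      refine ⟨k1, ?_⟩
      rw [k2]
      intro v hv
      rcases Sym2.mem_iff.1 hv with rfl | rfl
      · exact ⟨by simp only; omega, by simp only; omega, by simp only; omega, by simp only; omega⟩
      · exact ⟨by simp only; omega, by simp only; omega, by simp only; omega, by simp only; omega⟩
  obtain ⟨_, _, _, _, _, h⟩ := grid_iso_block hB hI hA hj (r := a - x) (c := b - y) (s := s)
    (by omega) (by omega) hs hsub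
  exact h

theorem iso : ∃ g s₀ : ℕ → ℕ, ∀ (j : ℕ) {α : Type u} (N : Matroid α) [N.Finite] (S : Set α)
    (ends : α → Sym2 (ℕ × ℕ)) (x y m a b s : ℕ) (A : Set α),
    Bic N S ends → Grd S ends x y m m → A ⊆ S → s₀ j ≤ s → rect a b s s ⊆ rect x y m m →
    blk S ends a b s ⊆ A → rk N A + rk N (S \ A) ≤ rk N S + j → (S \ A).ncard ≤ g j := by
  refine ⟨fun j => 32 * (j + 1) ^ 2, fun j => 4 * (j + 1) + 1, ?_⟩
  intro j α N _ S ends x y m a b s A hB hG hA hs hr hblk hj
  exact iso' hB hG hA (by simp only at hs; omega) hr hblk hj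

end BICS
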