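import Pool.Agent.BICS.Base
import Pool.Agent.BICS.Iso

/-!
# The two ways of naming a plain grid: `PGrid` (coordinates) and `Grd` (vertices in `ℕ × ℕ`)
-/

open Set BIC
open scoped Matroid

namespace BICS

universe u

/-- `N | R` is the bicircular matroid of the plain `s × s` grid. -/
def PGrid {α : Type*} (N : Matroid α) (R : Set α) (s : ℕ) : Prop :=
  ∃ (V : Type) (ends : α → Sym2 V) (p : ℕ → ℕ → V) (hE vE : ℕ → ℕ → α), Bic N R ends ∧
    IsGrid R ends s p hE vE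

/-- Relabelling the vertices of a bicircular structure. -/
theorem Bic_map {α V W : Type*} {N : Matroid α} {S : Set α} {ends : α → Sym2 V}
    (hB : Bic N S ends) (q : V → W) (hq : InjOn q {v | ∃ e ∈ S, v ∈ ends e}) :
    Bic N S (fun e => (ends e).map q) where
  sub := hB.sub
  ind := by
    intro F φ hF h1 h2
    classical
    have H : ∀ e ∈ F, ∃ v, v ∈ ends e ∧ q v = φ e := by
      intro e he
      have h3 := h2 e he
      simp only [Sym2.mem_map] at h3
      exact h3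
    have hne : F = ∅ ∨ Nonempty V := by
      rcases F.eq_empty_or_nonempty with h | ⟨e, he⟩
      · exact Or.inl h
      · exact Or.inr ⟨(H e he).choose⟩
    rcases hne with rfl | hV
    · exact N.empty_indep
    · choose! ψ hψ using H
      refine hB.ind F ψ hF ?_ ?_
      · intro a ha b hb hab
        apply h1 ha hb
        rw [← (hψ a ha).2, ← (hψ b hb).2, hab]
      · intro e he
        exact (hψ e he).1
  rk := by
    intro W'
    set Vs : Set V := {v | ∃ e ∈ S, v ∈ ends e} with hVs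
    have h1 : ins S (fun e => (ends e).map q) W' ⊆ ins S ends (q ⁻¹' W' ∩ Vs) := by
      rintro e ⟨he, he'⟩
      refine ⟨he, fun v hv => ⟨?_, e, he, hv⟩⟩
      exact he' (q v) (Sym2.mem_map.2 ⟨v, hv, rfl⟩)
    refine (N.eRk_mono h1).trans ((hB.rk _).trans ?_)
    have h2 : InjOn q (q ⁻¹' W' ∩ Vs) := hq.mono inter_subset_right
    rw [← h2.encard_image]
    exact Set.encard_le_encard (by rintro _ ⟨v, hv, rfl⟩; exact hv.1)

theorem PGrid.toGrd {α : Type u} {N : Matroid α} {R : Set α} {s : ℕ} (h : PGrid N R s) :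
    ∃ ends : α → Sym2 (ℕ × ℕ), Bic N R ends ∧ Grd R ends 0 0 s s := by
  classical
  obtain ⟨V, ends, p, hE, vE, hB, hG⟩ := h
  -- the coordinates of a vertex
  set q : V → ℕ × ℕ := fun v =>
    if h : ∃ c : ℕ × ℕ, c.1 < s ∧ c.2 < s ∧ p c.1 c.2 = v then h.choose else (0, 0) with hq
  have hqp : ∀ {i j : ℕ}, i < s → j < s → q (p i j) = (i, j) := by
    intro i j hi hj
    have h : ∃ c : ℕ × ℕ, c.1 < s ∧ c.2 < s ∧ p c.1 c.2 = p i j := ⟨(i, j), hi, hj, rfl⟩
    simp only [hq, dif_pos h]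
    obtain ⟨h1, h2, h3⟩ := h.choose_spec
    obtain ⟨h4, h5⟩ := hG.inj h1 h2 hi hj h3
    exact Prod.ext h4 h5
  have hmemV : ∀ e ∈ R, ∀ v ∈ ends e, ∃ i j, i < s ∧ j < s ∧ v = p i j := by
    intro e he v hv
    rcases hG.cover e he with ⟨i, j, hi, hj, rfl⟩ | ⟨i, j, hi, hj, rfl⟩
    · rw [(hG.hmem hi hj).2, Sym2.mem_iff] at hv
      rcases hv with rfl | rfl
      · exact ⟨i, j, hi, by omega, rfl⟩
      · exact ⟨i, j + 1, hi, hj, rfl⟩
    · rw [(hG.vmem hi hj).2, Sym2.mem_iff] at hv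
      rcases hv with rfl | rfl
      · exact ⟨i, j, by omega, hj, rfl⟩
      · exact ⟨i + 1, j, hi, hj, rfl⟩
  have hH : ∀ {i j : ℕ}, i < s → j + 1 < s →
      (ends (hE i j)).map q = s(((i, j) : ℕ × ℕ), (i, j + 1)) := by
    intro i j hi hj
    rw [(hG.hmem hi hj).2, Sym2.map_mk, hqp hi (by omega), hqp hi hj]
  have hV : ∀ {i j : ℕ}, i + 1 < s → j < s →
      (ends (vE i j)).map q = s(((i, j) : ℕ × ℕ), (i + 1, j)) := by
    intro i j hi hj
    rw [(hG.vmem hi hj).2, Sym2.map_mk, hqp (by omega) hj, hqp hi hj]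
  have memr : ∀ {i j : ℕ}, i < s → j < s → ((i, j) : ℕ × ℕ) ∈ rect 0 0 s s := by
    intro i j hi hj
    exact ⟨by simp only; omega, by simp only; omega, by simp only; omega, by simp only; omega⟩
  refine ⟨fun e => (ends e).map q, Bic_map hB q ?_, ⟨?_, ?_, ?_⟩⟩
  · rintro u ⟨e, he, hu⟩ v ⟨e', he', hv⟩ huv
    obtain ⟨i, j, hi, hj, rfl⟩ := hmemV e he u hu
    obtain ⟨i', j', hi', hj', rfl⟩ := hmemV e' he' v hv
    rw [hqp hi hj, hqp hi' hj'] at huv
    rw [Prod.mk.injEq] at huv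
    rw [huv.1, huv.2]
  · intro e he e' he' hee
    simp only at hee
    rcases hG.cover e he with ⟨i, j, hi, hj, rfl⟩ | ⟨i, j, hi, hj, rfl⟩ <;>
    rcases hG.cover e' he' with ⟨i', j', hi', hj', rfl⟩ | ⟨i', j', hi', hj', rfl⟩
    · rw [hH hi hj, hH hi' hj', Sym2.eq_iff] at hee
      simp only [Prod.mk.injEq] at hee
      have h1 : i = i' ∧ j = j' := by omega
      rw [h1.1, h1.2]
    · rw [hH hi hj, hV hi' hj', Sym2.eq_iff] at hee
      simp only [Prod.mk.injEq] at hee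
      omega
    · rw [hV hi hj, hH hi' hj', Sym2.eq_iff] at hee
      simp only [Prod.mk.injEq] at hee
      omega
    · rw [hV hi hj, hV hi' hj', Sym2.eq_iff] at hee
      simp only [Prod.mk.injEq] at hee
      have h1 : i = i' ∧ j = j' := by omega
      rw [h1.1, h1.2]
  · intro e he
    rcases hG.cover e he with ⟨i, j, hi, hj, rfl⟩ | ⟨i, j, hi, hj, rfl⟩
    · exact ⟨_, _, hH hi hj, Or.inl ⟨rfl, Or.inl rfl⟩, memr hi (by omega), memr hi hj⟩
    · exact ⟨_, _, hV hi hj, Or.inr ⟨rfl, Or.inl rfl⟩, memr (by omega) hj, memr hi hj⟩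
  · rintro ⟨i, j⟩ ⟨i', j'⟩ hadj ⟨_, h1, _, h2⟩ ⟨_, h3, _, h4⟩
    simp only [zero_add] at h1 h2 h3 h4
    rcases hadj with ⟨h5, h6 | h6⟩ | ⟨h5, h6 | h6⟩ <;> simp only at h5 h6 <;> subst h5 <;> subst h6
    · exact ⟨_, (hG.hmem h1 h4).1, hH h1 h4⟩
    · refine ⟨_, (hG.hmem h1 h2).1, ?_⟩
      rw [Sym2.eq_swap]
      exact hH h1 h2
    · exact ⟨_, (hG.vmem h3 h2).1, hV h3 h2⟩
    · refine ⟨_, (hG.vmem h1 h2).1, ?_⟩
      rw [Sym2.eq_swap]
      exact hV h1 h2

theorem Grd.toPGrid {α : Type u} {N : Matroid α} {R : Set α} {ends : α → Sym2 (ℕ × ℕ)} {x y s : ℕ}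
    (hs : 2 ≤ s) (hB : Bic N R ends) (hG : Grd R ends x y s s) : PGrid N R s := by
  obtain ⟨e₀, _, _⟩ := hG.surj (x, y) (x, y + 1) (Or.inl ⟨rfl, Or.inl rfl⟩)
    ⟨by simp only; omega, by simp only; omega, by simp only; omega, by simp only; omega⟩
    ⟨by simp only; omega, by simp only; omega, by simp only; omega, by simp only; omega⟩
  obtain ⟨hE, vE, h⟩ := hG.isGrid e₀
  exact ⟨ℕ × ℕ, ends, _, hE, vE, hB, h⟩

end BICS
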