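import Pool.Agent.BICS.Red
import Pool.Agent.BICS.Clean
import Pool.Agent.BICS.A2
import Pool.Agent.BICS.PGrid

/-!
Theorem S for plain grids. (Problem MP_5165fa_co.)
-/

open Set BIC
open scoped Matroid

namespace BICS

universe u

lemma HasUniformMinor_mono {α : Type*} {M M' : Matroid α} {k : ℕ} (h : HasUniformMinor M' k)
    (hM : M' ≤m M) : HasUniformMinor M k := by
  obtain ⟨N, h1, h2, h3⟩ := h
  exact ⟨N, h1.trans hM, h2, h3⟩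

lemma HasUniformMinor_dual {α : Type*} {M : Matroid α} [M.Finite] {k : ℕ}
    (h : HasUniformMinor M✶ k) : HasUniformMinor M k := by
  obtain ⟨N, h1, h2, h3⟩ := h
  have hfin : N.E.Finite := M.ground_finite.subset h1.subset
  have hN : N✶ ≤m M := by
    obtain ⟨C, D, _, _, hCD, h5⟩ := h1.exists_eq_contract_delete_disjoint
    rw [h5, Matroid.dual_contract_delete, Matroid.dual_dual,
      ← Matroid.contract_delete_comm _ hCD.symm]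
    exact Matroid.contract_delete_isMinor _ _ _
  refine ⟨N✶, hN, h2, ?_⟩
  intro B
  rw [Matroid.dual_ground]
  constructor
  · intro hB
    have hBE : B ⊆ N.E := hB.subset_ground
    rw [Matroid.dual_isBase_iff] at hB
    have h4 := ((h3 _).1 hB).2
    have h5 := Set.ncard_sdiff_add_ncard_of_subset hBE hfin
    exact ⟨hBE, by omega⟩
  · rintro ⟨hBE, hBc⟩
    rw [Matroid.dual_isBase_iff]
    have h5 := Set.ncard_sdiff_add_ncard_of_subset hBE hfin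
    exact (h3 _).2 ⟨sdiff_subset, by omega⟩

theorem thmSP (k : ℕ) (hk : 1 ≤ k) : ∃ κ₀ : ℕ, ∀ κ₁ : ℕ, ∃ s₀ : ℕ, ∀ s₁ ≥ s₀, ∀ s₂ ≥ s₀,
    ∀ {α : Type u} (M : Matroid α) [M.Finite] (R Q C₁ D₂ : Set α),
    R ⊆ M.E → Q ⊆ M.E → Disjoint R Q → C₁ ⊆ M.E \ R → D₂ ⊆ M.E \ Q →
    PGrid (M ／ C₁) R s₁ → PGrid (M✶ ／ D₂) Q s₂ → KGe M R Q κ₀ → ¬ KGe M R Q (κ₁ + 1) →
    HasUniformMinor M k := by
  obtain ⟨n, h, N₀, hh, hA2⟩ := thmA2.{u} k hk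
  obtain ⟨κ₀, hred⟩ := red.{u} (n + 24 * k)
  refine ⟨κ₀, ?_⟩
  intro κ₁
  choose m3 hm3 using fun t => side3.{u} k κ₁ t
  obtain ⟨s₀, hred⟩ := hred κ₁ (fun s => m3 (2 * h * (N₀ + s)))
  refine ⟨s₀, ?_⟩
  intro s₁ hs₁ s₂ hs₂ α M _ R Q C₁ D₂ hR hQ hd hC₁ hD₂ hPR hPQ hK hK'
  obtain ⟨e₁, hB₁, hG₁⟩ := hPR.toGrd
  obtain ⟨e₂, hB₂, hG₂⟩ := hPQ.toGrd
  obtain ⟨s, M', hM', S, T, P, Q', x, y, x', y', hPf, hQf, hST, hS, hT, b1, g1, q1, d1, b2, g2,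
    q2, d2, hKG⟩ := hred s₁ hs₁ s₂ hs₂ M R Q C₁ D₂ e₁ e₂ 0 0 0 0 hR hQ hd hC₁ hD₂ hB₁ hG₁ hB₂ hG₂
      hK hK'
  have hM'f : M'.Finite := ⟨M.ground_finite.subset hM'.subset⟩
  refine HasUniformMinor_mono ?_ hM'
  set t := 2 * h * (N₀ + s) with ht
  have hst : s ≤ t := by
    have : N₀ + s ≤ 2 * h * (N₀ + s) := Nat.le_mul_of_pos_left _ (by omega)
    omega
  rcases hm3 t M' P S e₁ x y hS b1 g1 q1 d1 with hU | ⟨Z₁, hZ₁S, hZ₁c, a, b, hr1, hZ₁d, hZ₁r⟩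
  · exact hU
  rcases hm3 t M'✶ Q' T e₂ x' y' hT b2 g2 q2 d2 with
    hU | ⟨Z₂, hZ₂T, hZ₂c, a', b', hr2, hZ₂d, hZ₂r⟩
  · exact HasUniformMinor_dual hU
  set W₁ := blk S e₁ a b t with hW₁
  set W₂ := blk T e₂ a' b' t with hW₂
  have hW₁S : W₁ ⊆ S := blk_sub
  have hW₂T : W₂ ⊆ T := blk_sub
  have hZ₁E : Z₁ ⊆ M'.E := hZ₁S.trans hS
  have hZ₂E : Z₂ ⊆ M'.E := hZ₂T.trans hT
  have hZZ : Disjoint Z₁ Z₂ := hST.mono hZ₁S hZ₂T
  have hZ₁f := M'.ground_finite.subset hZ₁E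
  have hZ₂f := M'.ground_finite.subset hZ₂E
  set M'' := M' ／ Z₁ ＼ Z₂ with hM''
  have hM''E : M''.E = M'.E \ (Z₁ ∪ Z₂) := by
    rw [hM'', Matroid.delete_ground, Matroid.contract_ground, sdiff_sdiff]
  have hM''d : M''✶ = M'✶ ／ Z₂ ＼ Z₁ := by
    rw [hM'', Matroid.dual_contract_delete, Matroid.contract_delete_comm _ hZZ.symm]
  have hM''f : M''.Finite := ⟨M'.ground_finite.subset (by rw [hM''E]; exact sdiff_subset)⟩
  have hW₁E : W₁ ⊆ M'.E \ (Z₁ ∪ Z₂) := by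
    intro z hz
    refine ⟨hS (hW₁S hz), ?_⟩
    rintro (h' | h')
    · exact Set.disjoint_left.1 hZ₁d h' hz
    · exact Set.disjoint_left.1 hST (hW₁S hz) (hZ₂T h')
  have hW₂E : W₂ ⊆ M'.E \ (Z₁ ∪ Z₂) := by
    intro z hz
    refine ⟨hT (hW₂T hz), ?_⟩
    rintro (h' | h')
    · exact Set.disjoint_left.1 hST (hZ₁S h') (hW₂T hz)
    · exact Set.disjoint_left.1 hZ₂d h' hz
  have hBW₁ : Bic M'' W₁ e₁ := by
    refine Bic_of_rk (N := P) (Bic_sub b1 hW₁S) (by rw [hM''E]; exact hW₁E) ?_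
    intro X hX
    have h1 := rk_minor (M := M') (D := Z₂) hZ₁E (hX.trans hW₁E)
    rw [← hM''] at h1
    have h2 := hZ₁r X hX
    omega
  have hBW₂ : Bic M''✶ W₂ e₂ := by
    rw [hM''d]
    have hf : (M'✶ ／ Z₂ ＼ Z₁).Finite := by rw [← hM''d]; infer_instance
    refine Bic_of_rk (N := Q') (Bic_sub b2 hW₂T) ?_ ?_
    · rw [Matroid.delete_ground, Matroid.contract_ground, Set.sdiff_sdiff, Matroid.dual_ground,
        union_comm]
      exact hW₂E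
    · intro X hX
      have h1 := rk_minor (M := M'✶) (D := Z₁) (X := X) hZ₂E (by
        rw [Matroid.dual_ground, union_comm]; exact hX.trans hW₂E)
      have h2 := hZ₂r X hX
      omega
  refine HasUniformMinor_mono ?_ (Matroid.contract_delete_isMinor M' Z₁ Z₂)
  refine hA2 (N₀ + s) (N₀ + s) (by omega) (by omega) M'' W₁ W₂ e₁ e₂ a b a' b'
    (hST.mono hW₁S hW₂T) hBW₁ (Grd_sub g1 hr1) hBW₂ (Grd_sub g2 hr2) ?_
  -- the linking number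
  have hs1 : rect a b s s ⊆ rect a b t t :=
    rect_sub (le_refl _) (by omega) (le_refl _) (by omega)
  have hs2 : rect a' b' s s ⊆ rect a' b' t t :=
    rect_sub (le_refl _) (by omega) (le_refl _) (by omega)
  have hKM' := KGe_sets (hKG a b a' b' (hs1.trans hr1) (hs2.trans hr2))
    (blk_mono hs1 : blk S e₁ a b s ⊆ W₁) (blk_mono hs2 : blk T e₂ a' b' s ⊆ W₂)
  rw [KGe_iff] at hKM' ⊢
  intro X hX1 hX2
  have hXE : X ⊆ M'.E \ (Z₁ ∪ Z₂) := hM''E ▸ hX2.trans sdiff_subset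
  rw [hM'', lam_minor_eq hZ₁E hZZ hXE]
  have h1 := hKM' (X ∪ Z₁) (hX1.trans subset_union_left) (by
    intro z hz
    rcases hz with hz | hz
    · exact ⟨(hXE hz).1, (hX2 hz).2⟩
    · exact ⟨hZ₁E hz, fun h' => Set.disjoint_left.1 hST (hZ₁S hz) (hW₂T h')⟩)
  rw [lam_empty] at h1
  have h2 : rk M' (M'.E \ (X ∪ Z₁)) ≤ rk M' (M'.E \ (X ∪ Z₂)) + Z₂.ncard := by
    refine le_trans (rk_mono M' ?_) (rk_union_le M' hZ₂f)
    intro z
    simp only [mem_sdiff, mem_union]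
    tauto
  have h3 := rk_le_ncard M' hZ₁f
  have h4 := rk_mono M' (show M'.E \ Z₂ ⊆ M'.E from sdiff_subset)
  unfold lam
  push_cast at h1
  omega

end BICS
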