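import Pool.Agent.BICS.Defs

open Set BIC
open scoped Matroid

namespace BICS

universe u

section base

variable {α V : Type*} {N : Matroid α} {S : Set α} {ends : α → Sym2 V}

/-- Hall: an independent set has an injective choice of ends. -/
theorem Bic_choice (hB : Bic N S ends) {I : Set α} (hI : N.Indep I) (hIS : I ⊆ S)
    (hf : I.Finite) : ∃ φ : α → V, InjOn φ I ∧ ∀ e ∈ I, φ e ∈ ends e := by
  classical
  have := hf.fintype
  obtain ⟨f, hf1, hf2⟩ := (Finset.all_card_le_biUnion_card_iff_exists_injective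
    (fun e : I => (ends e).toFinset)).1 (by
    intro s
    set W : Set V := ((s.biUnion fun e : I => (ends e).toFinset : Finset V) : Set V) with hW
    have h1 : (Subtype.val '' (s : Set I) : Set α) ⊆ ins S ends W := by
      rintro _ ⟨e, he, rfl⟩
      refine ⟨hIS e.2, fun v hv => ?_⟩
      rw [hW]
      simp only [Finset.coe_biUnion, mem_iUnion, Finset.mem_coe]
      exact ⟨e, he, Sym2.mem_toFinset.2 hv⟩
    have h2 : N.Indep (Subtype.val '' (s : Set I) : Set α) := by
      refine hI.subset ?_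
      rintro _ ⟨e, _, rfl⟩
      exact e.2
    have h3 := h2.eRk_eq_encard
    have h4 := (N.eRk_mono h1).trans (hB.rk W)
    rw [h3, Subtype.val_injective.encard_image, Set.encard_coe_eq_coe_finsetCard, hW,
      Set.encard_coe_eq_coe_finsetCard] at h4
    exact_mod_cast h4)
  rcases isEmpty_or_nonempty V with hV | hV'
  · have : I = ∅ := by
      rw [Set.eq_empty_iff_forall_notMem]
      intro e he
      exact hV.elim (f ⟨e, he⟩)
    subst this
    exact ⟨fun e => (exists_mem_ends ends e).choose, by simp, by simp⟩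
  · obtain ⟨v₀⟩ := hV'
    refine ⟨fun e => if h : e ∈ I then f ⟨e, h⟩ else v₀, ?_, ?_⟩
    · intro a ha b hb hab
      simp only [dif_pos ha, dif_pos hb] at hab
      exact congrArg Subtype.val (hf1 hab)
    · intro e he
      simp only [dif_pos he]
      exact Sym2.mem_toFinset.1 (hf2 ⟨e, he⟩)

theorem Bic_sub (hB : Bic N S ends) {S' : Set α} (h : S' ⊆ S) : Bic N S' ends where
  sub := h.trans hB.sub
  ind := fun F φ hF h1 h2 => hB.ind F φ (hF.trans h) h1 h2
  rk := fun W => (N.eRk_mono (show ins S' ends W ⊆ ins S ends W from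
    fun _ he => ⟨h he.1, he.2⟩)).trans (hB.rk W)

theorem indep_of_rk [N.Finite] {I : Set α} (hI : I ⊆ N.E) (h : I.ncard ≤ rk N I) : N.Indep I := by
  have hf := N.ground_finite.subset hI
  rw [Matroid.indep_iff_eRk_eq_encard_of_finite hf]
  refine le_antisymm (N.eRk_le_encard I) ?_
  rw [← cast_rk, ← hf.cast_ncard_eq]
  exact_mod_cast h

theorem exists_basis_rk [N.Finite] (X : Set α) (hX : X ⊆ N.E) :
    ∃ I ⊆ X, N.Indep I ∧ I.ncard = rk N X := by
  obtain ⟨I, hI⟩ := N.exists_isBasis X hX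
  refine ⟨I, hI.subset, hI.indep, ?_⟩
  unfold BIC.rk
  rw [← hI.encard_eq_eRk]
  rfl

/-- transfer of a bicircular structure along equality of ranks -/
theorem Bic_of_rk [N.Finite] {M : Matroid α} [M.Finite] (hB : Bic N S ends) (hS : S ⊆ M.E)
    (h : ∀ X ⊆ S, rk M X = rk N X) : Bic M S ends where
  sub := hS
  ind := fun F φ hF h1 h2 => by
    refine indep_of_rk (hF.trans hS) ?_
    rw [h F hF, rk_indep (hB.ind F φ hF h1 h2)]
  rk := fun W => by
    rw [← cast_rk, h _ (fun e he => he.1), cast_rk]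
    exact hB.rk W

/-- vertex-disjoint parts are skew -/
theorem rk_skew [N.Finite] (hB : Bic N S ends) {V₁ V₂ : Set V} (hd : Disjoint V₁ V₂) {X Y : Set α}
    (hX : X ⊆ ins S ends V₁) (hY : Y ⊆ ins S ends V₂) : rk N (X ∪ Y) = rk N X + rk N Y := by
  classical
  apply le_antisymm
  · have := rk_submod N X Y
    omega
  · have hXE : X ⊆ N.E := fun e he => hB.sub (hX he).1
    have hYE : Y ⊆ N.E := fun e he => hB.sub (hY he).1
    obtain ⟨I, hIX, hI, hIc⟩ := exists_basis_rk X hXE
    obtain ⟨J, hJY, hJ, hJc⟩ := exists_basis_rk Y hYE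
    have hIf := N.ground_finite.subset hI.subset_ground
    have hJf := N.ground_finite.subset hJ.subset_ground
    obtain ⟨φ, hφ, hφe⟩ := Bic_choice hB hI (fun e he => (hX (hIX he)).1) hIf
    obtain ⟨ψ, hψ, hψe⟩ := Bic_choice hB hJ (fun e he => (hY (hJY he)).1) hJf
    have hdis : Disjoint I J := by
      refine (ins_disj (S := S) (ends := ends) hd).mono (hIX.trans hX) (hJY.trans hY)
    have hdis' : ∀ e ∈ J, e ∉ I := fun e he he' => Set.disjoint_left.1 hdis he' he
    have h1 : N.Indep (I ∪ J) := by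
      refine hB.ind _ (fun e => if e ∈ I then φ e else ψ e) ?_ ?_ ?_
      · exact union_subset (fun e he => (hX (hIX he)).1) (fun e he => (hY (hJY he)).1)
      · intro a ha b hb hab
        have hI1 : ∀ e ∈ I, (if e ∈ I then φ e else ψ e) ∈ V₁ := by
          intro e he
          rw [if_pos he]
          exact (hX (hIX he)).2 _ (hφe e he)
        have hJ1 : ∀ e ∈ J, (if e ∈ I then φ e else ψ e) ∈ V₂ := by
          intro e he
          rw [if_neg (hdis' e he)]
          exact (hY (hJY he)).2 _ (hψe e he)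
        simp only at hab
        rcases ha with ha | ha <;> rcases hb with hb | hb
        · rw [if_pos ha, if_pos hb] at hab
          exact hφ ha hb hab
        · exact absurd (hab ▸ hI1 a ha) (fun h => Set.disjoint_left.1 hd h (hJ1 b hb))
        · exact absurd (hab ▸ hJ1 a ha) (fun h => Set.disjoint_left.1 hd (hI1 b hb) h)
        · rw [if_neg (hdis' a ha), if_neg (hdis' b hb)] at hab
          exact hψ ha hb hab
      · rintro e (he | he)
        · simp only [if_pos he]; exact hφe e he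
        · simp only [if_neg (hdis' e he)]; exact hψe e he
    have h2 := rk_mono N (show I ∪ J ⊆ X ∪ Y from union_subset_union hIX hJY)
    rw [rk_indep h1, Set.ncard_union_eq hdis hIf hJf] at h2
    omega

end base

section grid

variable {α : Type*} {S : Set α} {ends : α → Sym2 (ℕ × ℕ)} {x y a b : ℕ}

theorem Grd_sub (hG : Grd S ends x y a b) {x' y' a' b' : ℕ}
    (h : rect x' y' a' b' ⊆ rect x y a b) :
    Grd (ins S ends (rect x' y' a' b')) ends x' y' a' b' where
  inj := hG.inj.mono fun _ he => he.1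
  mem := by
    rintro e ⟨he, he'⟩
    obtain ⟨p, q, h1, h2, _, _⟩ := hG.mem e he
    exact ⟨p, q, h1, h2, he' p (by rw [h1]; simp), he' q (by rw [h1]; simp)⟩
  surj := by
    intro p q hpq hp hq
    obtain ⟨e, he, he'⟩ := hG.surj p q hpq (h hp) (h hq)
    refine ⟨e, ⟨he, ?_⟩, he'⟩
    intro v hv
    rw [he'] at hv
    rcases Sym2.mem_iff.1 hv with rfl | rfl <;> assumption

theorem Grd_ins_self (hG : Grd S ends x y a b) : ins S ends (rect x y a b) = S := by
  apply Subset.antisymm (fun e he => he.1)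
  intro e he
  refine ⟨he, ?_⟩
  obtain ⟨p, q, h1, h2, h3, h4⟩ := hG.mem e he
  intro v hv
  rw [h1] at hv
  rcases Sym2.mem_iff.1 hv with rfl | rfl <;> assumption

lemma rect_sub {x y a b x' y' a' b' : ℕ} (h1 : x ≤ x') (h2 : x' + a' ≤ x + a) (h3 : y ≤ y')
    (h4 : y' + b' ≤ y + b) : rect x' y' a' b' ⊆ rect x y a b := by
  rintro p ⟨p1, p2, p3, p4⟩
  exact ⟨by omega, by omega, by omega, by omega⟩

lemma rect_sub_iff {x y a b x' y' a' b' : ℕ} (ha : 0 < a') (hb : 0 < b') :
    rect x' y' a' b' ⊆ rect x y a b ↔ x ≤ x' ∧ x' + a' ≤ x + a ∧ y ≤ y' ∧ y' + b' ≤ y + b := by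
  constructor
  · intro h
    have h1 : ((x', y') : ℕ × ℕ) ∈ rect x y a b := h ⟨le_refl _, by omega, le_refl _, by omega⟩
    have h2 : ((x' + a' - 1, y' + b' - 1) : ℕ × ℕ) ∈ rect x y a b :=
      h ⟨by simp only; omega, by simp only; omega, by simp only; omega, by simp only; omega⟩
    obtain ⟨p1, p2, p3, p4⟩ := h1
    obtain ⟨q1, q2, q3, q4⟩ := h2
    simp only at p1 p2 p3 p4 q1 q2 q3 q4
    omega
  · rintro ⟨h1, h2, h3, h4⟩
    exact rect_sub h1 h2 h3 h4

lemma ins_ins {V : Type*} {S : Set α} {ends : α → Sym2 V} {W W' : Set V} (h : W' ⊆ W) :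
    ins (ins S ends W) ends W' = ins S ends W' := by
  ext e
  constructor
  · rintro ⟨⟨h1, _⟩, h3⟩
    exact ⟨h1, h3⟩
  · rintro ⟨h1, h3⟩
    exact ⟨⟨h1, fun v hv => h (h3 v hv)⟩, h3⟩

lemma blk_mono {x y m x' y' m' : ℕ} (h : rect x' y' m' m' ⊆ rect x y m m) :
    blk S ends x' y' m' ⊆ blk S ends x y m := ins_mono h

lemma blk_blk {x y m x' y' m' : ℕ} (h : rect x' y' m' m' ⊆ rect x y m m) :
    blk (blk S ends x y m) ends x' y' m' = blk S ends x' y' m' := ins_ins h

lemma blk_sub {x y m : ℕ} : blk S ends x y m ⊆ S := fun _ he => he.1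

end grid

/-! ### ranks of minors -/

section minor

variable {α : Type*} {M : Matroid α}

theorem rk_contract_set [M.Finite] {C X : Set α} (hC : C ⊆ M.E) (hX : X ⊆ M.E \ C) :
    rk (M ／ C) X + rk M C = rk M (X ∪ C) := by
  obtain ⟨I, hI⟩ := M.exists_isBasis C hC
  obtain ⟨J, hJ⟩ := (M ／ C).exists_isBasis X hX
  have hJ2 : (M ／ I).IsBasis J X := by
    rw [hI.contract_eq_contract_delete, Matroid.delete_isBasis_iff] at hJ
    exact hJ.1
  have h1 := hI.indep.union_isBasis_union_of_contract_isBasis hJ2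
  have h2 : rk (M ／ C) X = J.ncard := by
    unfold BIC.rk
    rw [← hJ.encard_eq_eRk]
    rfl
  have h3 : rk M (X ∪ I) = (J ∪ I).ncard := by
    unfold BIC.rk
    rw [← h1.encard_eq_eRk]
    rfl
  have h4 : rk M C = I.ncard := by
    unfold BIC.rk
    rw [← hI.encard_eq_eRk]
    rfl
  have hdis : Disjoint J I := by
    rw [Set.disjoint_left]
    intro e he heI
    exact (hX (hJ.subset he)).2 (hI.subset heI)
  have h5 : rk M (X ∪ C) = rk M (X ∪ I) := by
    rw [← rk_closure (X ∪ C), ← rk_closure (X ∪ I), ← M.closure_union_closure_right_eq X C,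
      ← hI.closure_eq_closure, M.closure_union_closure_right_eq]
  rw [h2, h4, h5, h3, Set.ncard_union_eq hdis
    (M.ground_finite.subset (h1.subset.trans (union_subset (hX.trans sdiff_subset)
      (hI.subset.trans hC))) |>.subset subset_union_left)
    (M.ground_finite.subset (hI.subset.trans hC))]

theorem rk_minor [M.Finite] {C D X : Set α} (hC : C ⊆ M.E) (hX : X ⊆ M.E \ (C ∪ D)) :
    rk (M ／ C ＼ D) X + rk M C = rk M (X ∪ C) := by
  rw [rk_delete, rk_contract_set hC]
  · exact fun x hx => ⟨(hX hx).1, fun h => (hX hx).2 (Or.inl h)⟩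
  · intro x hx
    exact ⟨⟨(hX hx).1, fun h => (hX hx).2 (Or.inl h)⟩, fun h => (hX hx).2 (Or.inr h)⟩

end minor

end BICS
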