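import Pool.Agent.BICS.Lam

/-!
Combination of two one-sided reductions; duality; monotonicity under minors.
(Problem MP_5165fa_co.)
-/

open Set BIC
open scoped Matroid

namespace BICS

variable {α : Type*} {M : Matroid α}

lemma rk_empty [M.Finite] : rk M ∅ = 0 := by
  have : rk M (∅ : Set α) ≤ (∅ : Set α).ncard := rk_le_ncard M finite_empty
  simpa using this

lemma lam_empty [M.Finite] (A : Set α) :
    lam M ∅ ∅ A = rk M A + rk M (M.E \ A) - rk M M.E := by
  unfold lam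
  rw [union_empty, sdiff_empty, rk_empty]
  push_cast
  ring

lemma lm_empty [M.Finite] (K A : Set α) : lm M K ∅ A = lam M ∅ ∅ A := by
  unfold lm
  rw [empty_inter, empty_sdiff]

/-- duality -/
lemma lam_dual [M.Finite] {C D A : Set α} (hA : A ⊆ M.E) (hC : C ⊆ M.E) (hD : D ⊆ M.E)
    (hAC : Disjoint A C) (hAD : Disjoint A D) :
    lam M✶ D C A = lam M C D A := by
  have hfA := M.ground_finite.subset hA
  have hfC := M.ground_finite.subset hC
  have hfD := M.ground_finite.subset hD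
  have h1 := rk_dual (M := M) (X := A ∪ D) (union_subset hA hD)
  have h2 := rk_dual (M := M) (X := M.E \ (A ∪ C)) sdiff_subset
  have h3 := rk_dual (M := M) (X := D) hD
  have h4 := rk_dual (M := M) (X := M.E \ C) sdiff_subset
  rw [sdiff_sdiff_cancel_left (union_subset hA hC)] at h2
  rw [sdiff_sdiff_cancel_left hC] at h4
  have c1 := Set.ncard_union_eq hAD hfA hfD
  have c2 := Set.ncard_union_eq hAC hfA hfC
  have c3 := Set.ncard_sdiff_add_ncard_of_subset (union_subset hA hC) M.ground_finite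
  have c4 := Set.ncard_sdiff_add_ncard_of_subset hC M.ground_finite
  unfold lam
  rw [Matroid.dual_ground]
  omega

lemma lam_compl_dual [M.Finite] {C D A : Set α} (hA : A ⊆ M.E) (hC : C ⊆ M.E) (hD : D ⊆ M.E)
    (hCD : Disjoint C D) (hAC : Disjoint A C) (hAD : Disjoint A D) :
    lam M✶ D C ((M.E \ (C ∪ D)) \ A) = lam M C D A := by
  have := lam_compl (M := M✶) (C := D) (D := C) (A := A) hA hD hCD.symm hAD hAC
  rw [Matroid.dual_ground, union_comm D C] at this
  rw [this, lam_dual hA hC hD hAC hAD]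

/-- the connectivity function is monotone under minors -/
lemma lam_minor_le [M.Finite] {C D A : Set α} (hA : A ⊆ M.E) (hC : C ⊆ M.E)
    (hCD : Disjoint C D) : lam M C D (A \ (C ∪ D)) ≤ lam M ∅ ∅ A := by
  have dCD : ∀ x, x ∈ C → x ∉ D := fun x h => Set.disjoint_left.1 hCD h
  have e1 : (A \ (C ∪ D)) ∪ C = (A \ D) ∪ C := by
    ext x
    have := dCD x
    simp only [mem_union, mem_sdiff]
    tauto
  have e2 : M.E \ ((A \ (C ∪ D)) ∪ D) = (M.E \ (A ∪ D)) ∪ C := by
    ext x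
    have := dCD x
    have := @hC x
    simp only [mem_union, mem_sdiff]
    tauto
  rw [lam_empty]
  unfold lam
  rw [e1, e2]
  -- contraction part
  have a1 : rk M ((A \ D) ∪ C) + rk M (C ∩ A) ≤ rk M (A \ D) + rk M C := by
    have := rk_sub' (M := M) (X := A \ D) (Y := C) (I := C ∩ A) (U := (A \ D) ∪ C) (by
      intro x
      have := dCD x
      simp only [mem_inter_iff, mem_sdiff]
      tauto) (subset_refl _)
    omega
  have a2 : rk M ((M.E \ (A ∪ D)) ∪ C) + rk M (C \ A) ≤ rk M (M.E \ (A ∪ D)) + rk M C := by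
    have := rk_sub' (M := M) (X := M.E \ (A ∪ D)) (Y := C) (I := C \ A)
      (U := (M.E \ (A ∪ D)) ∪ C) (by
      intro x
      have := dCD x
      have := @hC x
      simp only [mem_inter_iff, mem_sdiff, mem_union]
      tauto) (subset_refl _)
    omega
  have a3 : rk M C ≤ rk M (C ∩ A) + rk M (C \ A) := by
    have := rk_sub' (M := M) (X := C ∩ A) (Y := C \ A) (I := ∅) (U := C) (empty_subset _) (by
      intro x
      simp only [mem_inter_iff, mem_sdiff, mem_union]
      tauto)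
    omega
  -- deletion part
  have b1 : rk M (A \ D) + rk M (A ∪ (M.E \ (A ∪ D))) ≤ rk M A + rk M (M.E \ D) := by
    refine rk_sub' ?_ ?_
    · intro x
      have := @hA x
      simp only [mem_inter_iff, mem_sdiff]
      tauto
    · intro x
      simp only [mem_sdiff, mem_union]
      tauto
  have b2 : rk M (M.E \ (A ∪ D)) + rk M M.E ≤
      rk M (M.E \ A) + rk M (A ∪ (M.E \ (A ∪ D))) := by
    refine rk_sub' ?_ ?_
    · intro x
      simp only [mem_inter_iff, mem_sdiff, mem_union]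
      tauto
    · intro x
      simp only [mem_sdiff, mem_union]
      tauto
  omega

section comb

variable {X₀ C D : Set α}

/-- The guts lemma: removing elements on the side of `Y₀ = E ∖ X₀` at constant connectivity does
not change the restriction to `X₀` and the contraction to `X₀`. -/
lemma guts [M.Finite] (hX₀ : X₀ ⊆ M.E) (hC : C ⊆ M.E \ X₀) (hD : D ⊆ M.E \ X₀)
    (hCD : Disjoint C D)
    (h : lam M ∅ ∅ X₀ ≤ lam M C D ((M.E \ X₀) \ (C ∪ D))) :
    (∀ A ⊆ X₀, rk M (A ∪ C) = rk M A + rk M C) ∧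
    (∀ A ⊆ X₀, rk M (A ∪ ((M.E \ X₀) \ D)) + rk M (M.E \ X₀) =
      rk M (A ∪ (M.E \ X₀)) + rk M ((M.E \ X₀) \ D)) := by
  have dCD : ∀ x, x ∈ C → x ∉ D := fun x h => Set.disjoint_left.1 hCD h
  have hC1 : ∀ x, x ∈ C → x ∈ M.E ∧ x ∉ X₀ := fun x h => hC h
  have hD1 : ∀ x, x ∈ D → x ∈ M.E ∧ x ∉ X₀ := fun x h => hD h
  have hX1 : ∀ x, x ∈ X₀ → x ∈ M.E := fun x h => hX₀ h
  have e1 : ((M.E \ X₀) \ (C ∪ D)) ∪ C = (M.E \ X₀) \ D := by
    ext x
    have := dCD x
    have := hC1 x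
    simp only [mem_union, mem_sdiff]
    tauto
  have e2 : M.E \ (((M.E \ X₀) \ (C ∪ D)) ∪ D) = X₀ ∪ C := by
    ext x
    have := dCD x
    have := hC1 x
    have := hD1 x
    have := hX1 x
    simp only [mem_union, mem_sdiff]
    tauto
  have e3 : X₀ ∪ ((M.E \ X₀) \ D) = M.E \ D := by
    ext x
    have := hD1 x
    have := hX1 x
    simp only [mem_union, mem_sdiff]
    tauto
  have e4 : X₀ ∪ (M.E \ X₀) = M.E := union_sdiff_cancel hX₀
  rw [lam_empty] at h
  unfold lam at h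
  rw [e1, e2] at h
  have hu : rk M (X₀ ∪ C) ≤ rk M X₀ + rk M C := by
    have := rk_sub' (M := M) (X := X₀) (Y := C) (I := ∅) (U := X₀ ∪ C) (empty_subset _)
      (subset_refl _)
    omega
  have hv : rk M ((M.E \ X₀) \ D) + rk M M.E ≤ rk M (M.E \ D) + rk M (M.E \ X₀) := by
    refine rk_sub' ?_ ?_
    · intro x
      simp only [mem_inter_iff, mem_sdiff]
      tauto
    · intro x
      have := hD1 x
      have := hX1 x
      simp only [mem_union, mem_sdiff]
      tauto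
  constructor
  · intro A hA
    have h1 : rk M (A ∪ C) ≤ rk M A + rk M C := by
      have := rk_sub' (M := M) (X := A) (Y := C) (I := ∅) (U := A ∪ C) (empty_subset _)
        (subset_refl _)
      omega
    have h2 : rk M A + rk M (X₀ ∪ C) ≤ rk M X₀ + rk M (A ∪ C) := by
      refine rk_sub' ?_ ?_
      · intro x hx
        exact ⟨hA hx, Or.inl hx⟩
      · intro x
        simp only [mem_union]
        tauto
    omega
  · intro A hA
    have hA1 : ∀ x, x ∈ A → x ∈ X₀ := fun x h => hA h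
    have h1 : rk M ((M.E \ X₀) \ D) + rk M (A ∪ (M.E \ X₀)) ≤
        rk M (A ∪ ((M.E \ X₀) \ D)) + rk M (M.E \ X₀) := by
      refine rk_sub' ?_ ?_
      · intro x
        simp only [mem_inter_iff, mem_sdiff, mem_union]
        tauto
      · intro x
        simp only [mem_union, mem_sdiff]
        tauto
    have h2 : rk M (A ∪ ((M.E \ X₀) \ D)) + rk M M.E ≤
        rk M (M.E \ D) + rk M (A ∪ (M.E \ X₀)) := by
      refine rk_sub' ?_ ?_
      · intro x
        have := hA1 x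
        have := hD1 x
        have := hX1 x
        simp only [mem_inter_iff, mem_sdiff, mem_union]
        tauto
      · intro x
        have := hD1 x
        have := hX1 x
        simp only [mem_union, mem_sdiff]
        tauto
    omega

/-- Connectivity of subsets of `X₀` is not changed by a reduction on the other side. -/
lemma lam_comb [M.Finite] {C₁ D₁ A : Set α} (hX₀ : X₀ ⊆ M.E) (hC : C ⊆ M.E \ X₀) (hD : D ⊆ M.E \ X₀)
    (hCD : Disjoint C D) (h : lam M ∅ ∅ X₀ ≤ lam M C D ((M.E \ X₀) \ (C ∪ D)))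
    (hC₁ : C₁ ⊆ X₀) (hD₁ : D₁ ⊆ X₀) (hA : A ⊆ X₀) :
    lam M (C₁ ∪ C) (D₁ ∪ D) A = lam M C₁ D₁ A := by
  obtain ⟨g1, g2⟩ := guts hX₀ hC hD hCD h
  have hC2 : ∀ x, x ∈ C → x ∈ M.E ∧ x ∉ X₀ := fun x h => hC h
  have hD2 : ∀ x, x ∈ D → x ∈ M.E ∧ x ∉ X₀ := fun x h => hD h
  have hX1 : ∀ x, x ∈ X₀ → x ∈ M.E := fun x h => hX₀ h
  have hD1' : ∀ x, x ∈ D₁ → x ∈ X₀ := fun x h => hD₁ h
  have hA1 : ∀ x, x ∈ A → x ∈ X₀ := fun x h => hA h
  have e1 : A ∪ (C₁ ∪ C) = (A ∪ C₁) ∪ C := (union_assoc _ _ _).symm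
  have e2 : M.E \ (A ∪ (D₁ ∪ D)) = (X₀ \ (A ∪ D₁)) ∪ ((M.E \ X₀) \ D) := by
    ext x
    have := hD2 x
    have := hX1 x
    have := hA1 x
    have := hD1' x
    simp only [mem_union, mem_sdiff]
    tauto
  have e3 : M.E \ (D₁ ∪ D) = (X₀ \ D₁) ∪ ((M.E \ X₀) \ D) := by
    ext x
    have := hD2 x
    have := hX1 x
    have := hD1' x
    simp only [mem_union, mem_sdiff]
    tauto
  have e4 : M.E \ (A ∪ D₁) = (X₀ \ (A ∪ D₁)) ∪ (M.E \ X₀) := by
    ext x
    have := hX1 x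
    have := hA1 x
    have := hD1' x
    simp only [mem_union, mem_sdiff]
    tauto
  have e5 : M.E \ D₁ = (X₀ \ D₁) ∪ (M.E \ X₀) := by
    ext x
    have := hX1 x
    have := hD1' x
    simp only [mem_union, mem_sdiff]
    tauto
  have h1 := g1 (A ∪ C₁) (union_subset hA hC₁)
  have h2 := g1 C₁ hC₁
  have h3 := g2 (X₀ \ (A ∪ D₁)) sdiff_subset
  have h4 := g2 (X₀ \ D₁) sdiff_subset
  unfold lam
  rw [e1, e2, e3, e4, e5]
  omega

lemma rk_comb [M.Finite] {C₁ D₁ A : Set α} (hX₀ : X₀ ⊆ M.E) (hC : C ⊆ M.E \ X₀) (hD : D ⊆ M.E \ X₀)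
    (hCD : Disjoint C D) (h : lam M ∅ ∅ X₀ ≤ lam M C D ((M.E \ X₀) \ (C ∪ D)))
    (hC₁ : C₁ ⊆ X₀) (hA : A ⊆ X₀ \ (C₁ ∪ D₁)) :
    rk (M ／ (C₁ ∪ C) ＼ (D₁ ∪ D)) A + rk M C₁ = rk M (A ∪ C₁) := by
  obtain ⟨g1, _⟩ := guts hX₀ hC hD hCD h
  have hAX : A ⊆ X₀ := hA.trans sdiff_subset
  have h1 := rk_minor (M := M) (C := C₁ ∪ C) (D := D₁ ∪ D) (X := A)
    (union_subset (hC₁.trans hX₀) (hC.trans sdiff_subset)) (by
      intro x hx
      refine ⟨hX₀ (hAX hx), ?_⟩
      rintro ((h | h) | (h | h))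
      · exact (hA hx).2 (Or.inl h)
      · exact (hC h).2 (hAX hx)
      · exact (hA hx).2 (Or.inr h)
      · exact (hD h).2 (hAX hx))
  have h2 := g1 (A ∪ C₁) (union_subset hAX hC₁)
  have h3 := g1 C₁ hC₁
  rw [← union_assoc] at h1
  omega

end comb

end BICS
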