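import Pool.Agent.BICS.Defs

/-!
From `IsBicircular N (GPlus n)` to a plain grid and a star. (Problem MP_5165fa_co.)
-/

open Set BIC
open scoped Matroid

namespace BICS

universe u

/-- The coordinates of a vertex of `G_n^+`. -/
def coord (n : ℕ) : Option (Fin n × Fin n) → ℕ × ℕ
  | none => (n, n)
  | some p => (p.1.val, p.2.val)

theorem coord_inj (n : ℕ) : Function.Injective (coord n) := by
  rintro (_ | ⟨⟨a, ha⟩, ⟨b, hb⟩⟩) (_ | ⟨⟨c, hc⟩, ⟨d, hd⟩⟩) h
  · rfl
  · simp only [coord, Prod.mk.injEq] at h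
    omega
  · simp only [coord, Prod.mk.injEq] at h
    omega
  · simp only [coord, Prod.mk.injEq] at h
    obtain ⟨rfl, rfl⟩ := h
    rfl

theorem conv {α : Type u} {n : ℕ} (_hn : 2 ≤ n) {N : Matroid α} [N.Finite]
    (h : IsBicircular N (GPlus n)) :
    ∃ (S T : Set α) (ends : α → Sym2 (ℕ × ℕ)), S ∪ T = N.E ∧ Disjoint S T ∧ Bic N S ends ∧
      Grd S ends 0 0 n n ∧ N.Indep T ∧ rk N N.E ≤ n * n + 1 := by
  classical
  have h' : IsBicircular (N ↾ N.E) (GPlus n) := by
    rw [Matroid.restrict_ground_eq_self]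
    exact h
  obtain ⟨φ, ends, h1, hB⟩ := exists_bic (subset_refl N.E) h'
  obtain ⟨φ', hφ', hE', -⟩ := h
  -- the ground set is the image of the edge set
  have hinj : InjOn φ (GPlus n).edgeSet := by
    intro x hx y hy hxy
    rw [← (h1 x hx).2, ← (h1 y hy).2, hxy]
  have hEfin : N.E.Finite := N.ground_finite
  have hE : N.E = φ '' (GPlus n).edgeSet := by
    symm
    apply Set.eq_of_subset_of_ncard_le _ _ hEfin
    · rintro _ ⟨x, hx, rfl⟩
      exact (h1 x hx).1
    · rw [hinj.ncard_image, hE', hφ'.ncard_image]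
  have hx : ∀ e ∈ N.E, ends e ∈ (GPlus n).edgeSet ∧ φ (ends e) = e := by
    intro e he
    rw [hE] at he
    obtain ⟨x, hx, rfl⟩ := he
    rw [(h1 x hx).2]
    exact ⟨hx, rfl⟩
  have hends : InjOn ends N.E := by
    intro e he e' he' hee
    rw [← (hx e he).2, ← (hx e' he').2, hee]
  set S : Set α := {e | e ∈ N.E ∧ none ∉ ends e} with hS
  set T : Set α := {e | e ∈ N.E ∧ none ∈ ends e} with hT
  refine ⟨S, T, fun e => (ends e).map (coord n), ?_, ?_, ?_, ?_, ?_, ?_⟩
  · ext e
    simp only [hS, hT, mem_union, mem_ofPred_eq]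
    tauto
  · rw [Set.disjoint_left]
    rintro e ⟨_, h2⟩ ⟨_, h3⟩
    exact h2 h3
  · refine ⟨fun e he => he.1, ?_, ?_⟩
    · intro F ψ hF hψ hψe
      have h2 : ∀ e ∈ F, ∃ v ∈ ends e, coord n v = ψ e := by
        intro e he
        exact Sym2.mem_map.1 (hψe e he)
      choose! ρ hρ1 hρ2 using h2
      refine hB.ind F ρ (fun e he => (hF he).1) ?_ hρ1
      intro e he e' he' hee
      apply hψ he he'
      rw [← hρ2 e he, ← hρ2 e' he', hee]
    · intro W
      have h2 : ins S (fun e => (ends e).map (coord n)) W ⊆ ins N.E ends (coord n ⁻¹' W) := by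
        rintro e ⟨he, hW⟩
        refine ⟨he.1, fun v hv => ?_⟩
        exact hW _ (Sym2.mem_map.2 ⟨v, hv, rfl⟩)
      refine (N.eRk_mono h2).trans ((hB.rk _).trans ?_)
      have h3 : coord n '' (coord n ⁻¹' W) ⊆ W := image_preimage_subset _ _
      have h4 := Set.encard_le_encard h3
      rwa [(coord_inj n).encard_image] at h4
  · refine ⟨?_, ?_, ?_⟩
    · intro e he e' he' hee
      exact hends he.1 he'.1 (Sym2.map.injective (coord_inj n) hee)
    · rintro e ⟨he, hne⟩
      have h2 := (hx e he).1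
      revert hne h2
      generalize ends e = x
      induction x with
      | _ a b =>
        intro hne h2
        rw [Sym2.mem_iff, not_or] at hne
        rw [SimpleGraph.mem_edgeSet] at h2
        rcases a with _ | ⟨⟨a1, ha1⟩, ⟨a2, ha2⟩⟩
        · exact absurd rfl hne.1
        rcases b with _ | ⟨⟨b1, hb1⟩, ⟨b2, hb2⟩⟩
        · exact absurd rfl hne.2
        refine ⟨(a1, a2), (b1, b2), rfl, ?_, ?_, ?_⟩
        · rcases h2 with ⟨h3, h4⟩ | ⟨h3, h4⟩
          · left
            exact ⟨congrArg Fin.val h3, h4⟩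
          · right
            exact ⟨congrArg Fin.val h3, h4⟩
        · simp only [rect, mem_ofPred_eq]
          omega
        · simp only [rect, mem_ofPred_eq]
          omega
    · rintro ⟨p1, p2⟩ ⟨q1, q2⟩ hpq hp hq
      simp only [rect, mem_ofPred_eq, zero_add, Nat.zero_le, true_and] at hp hq
      have hadj : (GPlus n).Adj (some (⟨p1, hp.1⟩, ⟨p2, hp.2⟩)) (some (⟨q1, hq.1⟩, ⟨q2, hq.2⟩)) := by
        show gridAdj _ _
        rcases hpq with ⟨h3, h4⟩ | ⟨h3, h4⟩
        · left
          exact ⟨Fin.ext h3, h4⟩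
        · right
          exact ⟨Fin.ext h3, h4⟩
      have hmem : s(some (⟨p1, hp.1⟩, ⟨p2, hp.2⟩), some (⟨q1, hq.1⟩, ⟨q2, hq.2⟩)) ∈
          (GPlus n).edgeSet := hadj
      obtain ⟨g1, g2⟩ := h1 _ hmem
      refine ⟨_, ⟨g1, ?_⟩, ?_⟩
      · rw [g2, Sym2.mem_iff]
        simp
      · simp only [g2]
        rfl
  · -- the star is independent
    have h2 : ∀ e ∈ T, ∃ v, v ≠ none ∧ ends e = s(none, v) := by
      rintro e ⟨he, hne⟩
      have h3 := (hx e he).1
      obtain ⟨v, hv⟩ := Sym2.mem_iff_exists.1 hne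
      refine ⟨v, ?_, hv⟩
      rintro rfl
      rw [hv, SimpleGraph.mem_edgeSet] at h3
      exact h3.ne rfl
    choose! ρ hρ1 hρ2 using h2
    refine hB.ind T ρ (fun e he => he.1) ?_ ?_
    · intro e he e' he' hee
      apply hends he.1 he'.1
      rw [hρ2 e he, hρ2 e' he', hee]
    · intro e he
      rw [hρ2 e he, Sym2.mem_iff]
      exact Or.inr rfl
  · have h2 := hB.rk univ
    have h3 : ins N.E ends univ = N.E := by
      ext e
      simp [ins]
    rw [h3, Set.encard_univ, ENat.card_eq_coe_fintype_card, Fintype.card_option,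
      Fintype.card_prod, Fintype.card_fin, ← cast_rk] at h2
    exact_mod_cast h2

end BICS
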