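import Pool.Agent.BICS.RkRect
import Pool.Agent.BICS.Iso

/-!
Isoperimetry of the grid with an apex star, from the plain grid. (Problem MP_5165fa_co.)
-/

open Set BIC
open scoped Matroid

namespace BICS

universe u

/-- The isoperimetric statement for the grid with its star follows from the one for the plain
grid (`hiso`) and the rank of the plain grid (`hrect`). -/
theorem isoStar_of
    (hrect : ∀ {α : Type u} {N : Matroid α} {S : Set α} {ends : α → Sym2 (ℕ × ℕ)}
      {x y a b : ℕ} [N.Finite], Bic N S ends → Grd S ends x y a b → 2 ≤ a → 2 ≤ b →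
      rk N S = a * b)
    (hiso : ∃ g s₀ : ℕ → ℕ, ∀ (j : ℕ) {α : Type u} (N : Matroid α) [N.Finite] (S : Set α)
      (ends : α → Sym2 (ℕ × ℕ)) (x y m a b s : ℕ) (A : Set α),
      Bic N S ends → Grd S ends x y m m → A ⊆ S → s₀ j ≤ s → rect a b s s ⊆ rect x y m m →
      blk S ends a b s ⊆ A → rk N A + rk N (S \ A) ≤ rk N S + j → (S \ A).ncard ≤ g j) :
    ∃ g s₀ : ℕ → ℕ, ∀ (j : ℕ) {α : Type u} (N : Matroid α) [N.Finite] (S T : Set α)
      (ends : α → Sym2 (ℕ × ℕ)) (n a b s : ℕ) (A : Set α), 2 ≤ n →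
      S ∪ T = N.E → Disjoint S T → Bic N S ends → Grd S ends 0 0 n n → N.Indep T →
      rk N N.E ≤ n * n + 1 → A ⊆ N.E → s₀ j ≤ s → rect a b s s ⊆ rect 0 0 n n →
      blk S ends a b s ⊆ A → rk N A + rk N (N.E \ A) ≤ rk N N.E + j →
      (N.E \ A).ncard ≤ g j := by
  obtain ⟨g, s₀, H⟩ := hiso
  refine ⟨fun j => 2 * g (j + 1) + (j + 1), fun j => s₀ (j + 1), ?_⟩
  intro j α N _ S T ends n a b s A hn hST hdisj hB hG hT hE hA hs hrec hblk hlam
  have hfin : N.E.Finite := N.ground_finite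
  have hSE : S ⊆ N.E := hST ▸ subset_union_left
  have hTE : T ⊆ N.E := hST ▸ subset_union_right
  have hrS : rk N S = n * n := hrect hB hG hn hn
  have h1 : rk N (A ∩ S) ≤ rk N A := rk_mono N inter_subset_left
  have h2 : rk N (S \ A) ≤ rk N (N.E \ A) := rk_mono N (sdiff_subset_sdiff_left hSE)
  have h3 : S \ (A ∩ S) = S \ A := by
    ext e
    simp only [mem_sdiff, mem_inter_iff]
    tauto
  -- the grid part
  have h4 := H (j + 1) N S ends 0 0 n a b s (A ∩ S) hB hG inter_subset_right hs hrec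
    (fun e he => ⟨hblk he, he.1⟩) (by rw [h3, hrS]; omega)
  rw [h3] at h4
  -- the star part
  have h5 : (T \ A).ncard = rk N (T \ A) := by
    rw [rk_indep (hT.subset sdiff_subset)]
  have h6 : rk N (T \ A) ≤ rk N (N.E \ A) := rk_mono N (sdiff_subset_sdiff_left hTE)
  have h7 : rk N S ≤ rk N (A ∩ S) + rk N (S \ A) := by
    have h8 := rk_submod N (A ∩ S) (S \ A)
    have h9 : A ∩ S ∪ S \ A = S := by
      ext e
      simp only [mem_sdiff, mem_inter_iff, mem_union]
      tauto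
    rw [h9] at h8
    omega
  have h10 : rk N (S \ A) ≤ (S \ A).ncard := rk_le_ncard N (hfin.subset (sdiff_subset.trans hSE))
  have h11 : N.E \ A = (S \ A) ∪ (T \ A) := by
    rw [← hST]
    ext e
    simp only [mem_sdiff, mem_union]
    tauto
  have h12 : (N.E \ A).ncard ≤ (S \ A).ncard + (T \ A).ncard := by
    rw [h11]
    exact Set.ncard_union_le _ _
  show (N.E \ A).ncard ≤ 2 * g (j + 1) + (j + 1)
  omega

/-- Row `isoStar` of the stub. -/
theorem isoStar : ∃ g s₀ : ℕ → ℕ, ∀ (j : ℕ) {α : Type u} (N : Matroid α) [N.Finite]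
    (S T : Set α) (ends : α → Sym2 (ℕ × ℕ)) (n a b s : ℕ) (A : Set α), 2 ≤ n →
    S ∪ T = N.E → Disjoint S T → Bic N S ends → Grd S ends 0 0 n n → N.Indep T →
    rk N N.E ≤ n * n + 1 → A ⊆ N.E → s₀ j ≤ s → rect a b s s ⊆ rect 0 0 n n →
    blk S ends a b s ⊆ A → rk N A + rk N (N.E \ A) ≤ rk N N.E + j →
    (N.E \ A).ncard ≤ g j :=
  isoStar_of rk_rect iso

end BICS
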