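import Pool.Agent.BICS.Comb

/-!
Linking numbers and the one-sided reduction for grids. (Problem MP_5165fa_co.)
-/

open Set BIC
open scoped Matroid

namespace BICS

universe u

section kap

variable {α : Type*} {M : Matroid α}

lemma KGe_iff [M.Finite] {S T : Set α} {n : ℕ} :
    KGe M S T n ↔ ∀ X, S ⊆ X → X ⊆ M.E \ T → (n : ℤ) ≤ lam M ∅ ∅ X := by
  unfold KGe
  constructor
  · intro h X h1 h2
    have := h X h1 h2
    rw [lam_empty]
    omega
  · intro h X h1 h2
    have := h X h1 h2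
    rw [lam_empty] at this
    omega

lemma KGe_sets {S T S' T' : Set α} {n : ℕ} (h : KGe M S' T' n) (hS : S' ⊆ S) (hT : T' ⊆ T) :
    KGe M S T n :=
  fun X h1 h2 => h X (hS.trans h1) (h2.trans (sdiff_subset_sdiff_right hT))

lemma KGe_anti {S T : Set α} {n m : ℕ} (h : KGe M S T n) (hm : m ≤ n) : KGe M S T m :=
  fun X h1 h2 => by have := h X h1 h2; omega

/-- the linking number -/
noncomputable def kap (M : Matroid α) (S T : Set α) : ℕ := sInf {c | ¬ KGe M S T (c + 1)}

lemma kap_le {S T : Set α} {c : ℕ} (h : ¬ KGe M S T (c + 1)) : kap M S T ≤ c := Nat.sInf_le h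

lemma KGe_zero [M.Finite] {S T : Set α} : KGe M S T 0 := by
  intro X _ h2
  have h3 := rk_sub' (M := M) (X := X) (Y := M.E \ X) (I := ∅) (U := M.E) (empty_subset _) (by
    intro x hx
    by_cases h : x ∈ X
    · exact Or.inl h
    · exact Or.inr ⟨hx, h⟩)
  omega

lemma KGe_kap [M.Finite] {S T : Set α} : KGe M S T (kap M S T) := by
  by_cases h : kap M S T = 0
  · rw [h]; exact KGe_zero
  · by_contra hcon
    have h1 : kap M S T - 1 ∈ {c | ¬ KGe M S T (c + 1)} := by
      show ¬ KGe M S T (kap M S T - 1 + 1)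
      rwa [Nat.sub_add_cancel (by omega)]
    have h2 : kap M S T ≤ kap M S T - 1 := Nat.sInf_le h1
    omega

lemma kap_nonempty [M.Finite] {S T : Set α} (hS : S ⊆ M.E) (hST : Disjoint S T) :
    {c | ¬ KGe M S T (c + 1)}.Nonempty := by
  refine ⟨rk M S + rk M (M.E \ S), fun h => ?_⟩
  have h1 := h S (subset_refl _) (fun x hx => ⟨hS hx, Set.disjoint_left.1 hST hx⟩)
  omega

lemma not_KGe_kap [M.Finite] {S T : Set α} (hS : S ⊆ M.E) (hST : Disjoint S T) :
    ¬ KGe M S T (kap M S T + 1) := Nat.sInf_mem (kap_nonempty hS hST)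

lemma kap_mono [M.Finite] {S T S' T' : Set α} (hS : S ⊆ M.E) (hST : Disjoint S T) (h1 : S' ⊆ S)
    (h2 : T' ⊆ T) : kap M S' T' ≤ kap M S T :=
  kap_le fun h => not_KGe_kap hS hST (KGe_sets h h1 h2)

lemma le_kap [M.Finite] {S T : Set α} (hS : S ⊆ M.E) (hST : Disjoint S T) {n : ℕ}
    (h : KGe M S T n) : n ≤ kap M S T := by
  by_contra hcon
  exact not_KGe_kap hS hST (KGe_anti h (by omega))

end kap

section side

variable {α : Type*} {M : Matroid α}

/-- `A` contains an `s`-block of the grid carried by `E`. -/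
def HasBlk (E : Set α) (ends : α → Sym2 (ℕ × ℕ)) (x y m s : ℕ) (A : Set α) : Prop :=
  ∃ a b, rect a b s s ⊆ rect x y m m ∧ blk E ends a b s ⊆ A

/-- consequences of the one-sided reduction -/
theorem side_red [M.Finite] {X₀ E C : Set α} {ends : α → Sym2 (ℕ × ℕ)} {x y m s : ℕ} {κ : ℕ}
    (hX₀ : X₀ ⊆ M.E) (hE : E ⊆ X₀) (hC : C ⊆ M.E \ E) (hsm : s ≤ m)
    (hlX : lam M ∅ ∅ X₀ = κ)
    (hU : ∀ A ⊆ X₀, HasBlk E ends x y m s A → (κ : ℤ) ≤ lam M ∅ ∅ A) :
    ∃ C' D' X : Set α, C' ⊆ X₀ \ E ∧ D' ⊆ X₀ \ E ∧ Disjoint C' D' ∧ X ⊆ E ∧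
      HasBlk E ends x y m s X ∧ lam M C' D' (X₀ \ (C' ∪ D')) = κ ∧
      (∀ B ⊆ X₀ \ (C' ∪ D'), HasBlk E ends x y m s (B ∩ X) → (κ : ℤ) ≤ lam M C' D' B) ∧
      rk (M ／ C) X + rk (M ／ C) (E \ X) ≤ rk (M ／ C) E + κ ∧
      (∀ A B, A ⊆ B → B ⊆ X → rk (M ／ C) B + rk M (A ∪ C') ≤ rk M (B ∪ C') + rk (M ／ C) A) ∧
      rk M (X ∪ C') ≤ rk M C' + rk (M ／ C) X + κ := by
  have hCE : C ⊆ M.E := hC.trans sdiff_subset
  have hP0 : HasBlk E ends x y m s X₀ :=
    ⟨x, y, rect_sub (le_refl _) (by omega) (le_refl _) (by omega), blk_sub.trans hE⟩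
  obtain ⟨R, X, hR, hX, hPX, hlX1, hlX2, hW⟩ := lemR (M := M) (K := C) (X₀ := X₀) (E₁ := E)
    (P := HasBlk E ends x y m s) hX₀
    (fun A B hAB ⟨a, b, h1, h2⟩ => ⟨a, b, h1, h2.trans hAB⟩)
    (fun A ⟨a, b, h1, h2⟩ => ⟨a, b, h1, subset_inter h2 blk_sub⟩) (κ := (κ : ℤ)) _ ∅ X₀
    (empty_subset _) (by rw [sdiff_empty]) hP0 (by rw [lm_empty]; exact hlX)
    (by rw [lm_empty, sdiff_empty]; exact hlX.le)
    (fun A hA hPA => by rw [lm_empty]; exact hU A hA hPA)
    (fun B h1 h2 => by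
      rw [lm_empty]
      have : B = X₀ := Subset.antisymm (by rwa [sdiff_empty] at h2) h1
      rw [this]; exact hlX.ge) rfl
  have hRu : (R ∩ C) ∪ (R \ C) = R := inter_union_sdiff _ _
  have hXE : X ⊆ E := hX.trans inter_subset_right
  have hd : Disjoint (R ∩ C) (R \ C) := by
    rw [Set.disjoint_left]; rintro z ⟨_, h⟩ ⟨_, h'⟩; exact h' h
  have hEE : E ⊆ M.E := hE.trans hX₀
  -- element facts
  have f1 : ∀ z, z ∈ R → z ∈ X₀ ∧ z ∉ E := fun z hz => hR hz
  have f2 : ∀ z, z ∈ C → z ∈ M.E ∧ z ∉ E := fun z hz => hC hz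
  have f3 : ∀ z, z ∈ X → z ∈ E := fun z hz => hXE hz
  have f4 : ∀ z, z ∈ E → z ∈ X₀ := fun z hz => hE hz
  have f5 : ∀ z, z ∈ X₀ → z ∈ M.E := fun z hz => hX₀ hz
  have hrk : ∀ A ⊆ E, rk (M ／ C) A + rk M C = rk M (A ∪ C) := fun A hA =>
    rk_contract_set hCE (fun z hz => ⟨hEE (hA hz), fun h => (hC h).2 (hA hz)⟩)
  -- r(E \ D') - r(E \ (X ∪ D')) ≤ rank of X in M / C
  have key : rk M (M.E \ (R \ C)) + rk M C ≤ rk M (X ∪ C) + rk M (M.E \ (X ∪ (R \ C))) := by
    have := rk_sub' (M := M) (X := X ∪ C) (Y := M.E \ (X ∪ (R \ C))) (I := C)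
      (U := M.E \ (R \ C)) (by
        intro z
        have := f1 z
        have := f2 z
        have := f3 z
        simp only [mem_inter_iff, mem_union, mem_sdiff]
        tauto) (by
        intro z
        have := f2 z
        simp only [mem_union, mem_sdiff]
        tauto)
    omega
  refine ⟨R ∩ C, R \ C, X, inter_subset_left.trans hR, sdiff_subset.trans hR, hd, hXE, hPX,
    ?_, ?_, ?_, ?_, ?_⟩
  · rw [hRu]; exact hlX2
  · rw [hRu]; exact hW
  · have h1 := hrk X hXE
    have h2 := hrk (E \ X) sdiff_subset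
    have h3 := hrk E (subset_refl _)
    have h4 : rk M (X ∪ C) + rk M (R ∩ C) ≤ rk M (X ∪ (R ∩ C)) + rk M C := by
      have := rk_sub' (M := M) (X := X ∪ (R ∩ C)) (Y := C) (I := R ∩ C) (U := X ∪ C) (by
        intro z
        simp only [mem_inter_iff, mem_union]
        tauto) (by
        intro z
        simp only [mem_union]
        tauto)
      omega
    have h5 : rk M ((E \ X) ∪ C) + rk M (M.E \ (R \ C)) ≤
        rk M (E ∪ C) + rk M (M.E \ (X ∪ (R \ C))) := by
      refine rk_sub' ?_ ?_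
      · intro z
        have := f1 z
        have := f2 z
        have := f3 z
        have := f4 z
        have := f5 z
        simp only [mem_inter_iff, mem_union, mem_sdiff]
        tauto
      · intro z
        have := f2 z
        have := f3 z
        simp only [mem_union, mem_sdiff]
        tauto
    unfold lm lam at hlX1
    omega
  · intro A B hAB hBX
    have h1 := hrk A (hAB.trans (hBX.trans hXE))
    have h2 := hrk B (hBX.trans hXE)
    have h3 : rk M (A ∪ (R ∩ C)) + rk M (B ∪ C) ≤ rk M (B ∪ (R ∩ C)) + rk M (A ∪ C) := by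
      have g1 : ∀ z, z ∈ A → z ∈ B := fun z hz => hAB hz
      refine rk_sub' ?_ ?_
      · intro z
        have := g1 z
        simp only [mem_inter_iff, mem_union]
        tauto
      · intro z
        simp only [mem_union]
        tauto
    omega
  · have h1 := hrk X hXE
    unfold lm lam at hlX1
    omega

/-- a block avoiding a small set -/
theorem exists_blk_avoid {E : Set α} {ends : α → Sym2 (ℕ × ℕ)} {x y m t g : ℕ} (Z : Set α)
    (hf : Z.Finite) (hZ : Z.ncard ≤ g) (hm : (g + 1) * t ≤ m) :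
    ∃ a b, rect a b t t ⊆ rect x y m m ∧ Disjoint (blk E ends a b t) Z := by
  classical
  by_contra hcon
  push Not at hcon
  have h1 : ∀ i : ℕ, i < g + 1 → ∃ z, z ∈ Z ∧ z ∈ blk E ends (x + i * t) y t := by
    intro i hi
    have h2 : (i + 1) * t ≤ (g + 1) * t := Nat.mul_le_mul_right _ hi
    have h3 : (i + 1) * t = i * t + t := by ring
    have h4 : t ≤ (g + 1) * t := Nat.le_mul_of_pos_left _ (by omega)
    have h5 := hcon (x + i * t) y (rect_sub (by omega) (by omega) (le_refl _) (by omega))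
    rw [Set.not_disjoint_iff] at h5
    obtain ⟨z, hz1, hz2⟩ := h5
    exact ⟨z, hz2, hz1⟩
  have hne : Nonempty α := ⟨(h1 0 (by omega)).choose⟩
  choose! f hf1 hf2 using h1
  have hinj : InjOn f {i | i < g + 1} := by
    intro i hi j hj hij
    have h2 := hf2 i hi
    have h3 := hf2 j hj
    rw [← hij] at h3
    obtain ⟨v, hv⟩ := exists_mem_ends ends (f i)
    have h4 := h2.2 v hv
    have h5 := h3.2 v hv
    obtain ⟨a1, a2, _, _⟩ := h4
    obtain ⟨b1, b2, _, _⟩ := h5
    rcases Nat.lt_trichotomy i j with h | h | h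
    · have : (i + 1) * t ≤ j * t := Nat.mul_le_mul_right _ h
      have h7 : (i + 1) * t = i * t + t := by ring
      omega
    · exact h
    · have : (j + 1) * t ≤ i * t := Nat.mul_le_mul_right _ h
      have h7 : (j + 1) * t = j * t + t := by ring
      omega
  have h2 : (f '' {i | i < g + 1}).ncard = g + 1 := by
    rw [hinj.ncard_image]
    have : {i | i < g + 1} = ((Finset.range (g + 1) : Finset ℕ) : Set ℕ) := by
      ext i; simp
    rw [this, Set.ncard_coe_finset, Finset.card_range]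
  have h3 : f '' {i | i < g + 1} ⊆ Z := by
    rintro _ ⟨i, hi, rfl⟩
    exact hf1 i hi
  have h4 := Set.ncard_le_ncard h3 hf
  omega

end side

end BICS
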