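import Pool.Agent.BICS.Base

/-!
Connectivity functions of minors `M ／ C ＼ D` in terms of the rank function of `M`, the one-sided
reduction and the combination of two one-sided reductions. (Problem MP_5165fa_co.)
-/

open Set BIC
open scoped Matroid

namespace BICS

variable {α : Type*} {M : Matroid α}

/-- the connectivity of `A` in `M ／ C ＼ D` (for pairwise disjoint `A, C, D`) -/
noncomputable def lam (M : Matroid α) (C D A : Set α) : ℤ :=
  rk M (A ∪ C) + rk M (M.E \ (A ∪ D)) - rk M C - rk M (M.E \ D)

lemma rk_sub' [M.Finite] {X Y I U : Set α} (hI : I ⊆ X ∩ Y) (hU : U ⊆ X ∪ Y) :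
    rk M I + rk M U ≤ rk M X + rk M Y := by
  have h1 := rk_submod M X Y
  have h2 := rk_mono M hI
  have h3 := rk_mono M hU
  omega

lemma rk_insert_le [M.Finite] (e : α) (X : Set α) : rk M (insert e X) ≤ rk M X + 1 := by
  have := rk_union_le M (X := X) (Y := {e}) (finite_singleton e)
  rwa [union_singleton, ncard_singleton] at this

lemma lam_submod [M.Finite] (C D A B : Set α) :
    lam M C D (A ∩ B) + lam M C D (A ∪ B) ≤ lam M C D A + lam M C D B := by
  unfold lam
  have h1 : rk M ((A ∩ B) ∪ C) + rk M ((A ∪ B) ∪ C) ≤ rk M (A ∪ C) + rk M (B ∪ C) :=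
    rk_sub' (by intro x; simp only [mem_union, mem_inter_iff]; tauto)
      (by intro x; simp only [mem_union]; tauto)
  have h2 : rk M (M.E \ ((A ∪ B) ∪ D)) + rk M (M.E \ ((A ∩ B) ∪ D)) ≤
      rk M (M.E \ (A ∪ D)) + rk M (M.E \ (B ∪ D)) :=
    rk_sub' (by intro x; simp only [mem_union, mem_inter_iff, mem_sdiff]; tauto)
      (by intro x; simp only [mem_union, mem_inter_iff, mem_sdiff]; tauto)
  omega

lemma lam_compl {C D A : Set α} (hA : A ⊆ M.E) (hC : C ⊆ M.E) (hCD : Disjoint C D)
    (hAC : Disjoint A C) (hAD : Disjoint A D) :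
    lam M C D ((M.E \ (C ∪ D)) \ A) = lam M C D A := by
  have h1 : ((M.E \ (C ∪ D)) \ A) ∪ C = M.E \ (A ∪ D) := by
    ext x
    have a1 := @hC x
    have a2 : x ∈ C → x ∉ D := fun h => Set.disjoint_left.1 hCD h
    have a3 : x ∈ A → x ∉ C := fun h => Set.disjoint_left.1 hAC h
    simp only [mem_union, mem_sdiff]
    tauto
  have h2 : M.E \ (((M.E \ (C ∪ D)) \ A) ∪ D) = A ∪ C := by
    ext x
    have a0 := @hA x
    have a1 := @hC x
    have a2 : x ∈ C → x ∉ D := fun h => Set.disjoint_left.1 hCD h
    have a3 : x ∈ A → x ∉ C := fun h => Set.disjoint_left.1 hAC h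
    have a4 : x ∈ A → x ∉ D := fun h => Set.disjoint_left.1 hAD h
    simp only [mem_union, mem_sdiff]
    tauto
  unfold lam
  rw [h1, h2]
  ring

/-! one-element steps, contraction -/

lemma con1 [M.Finite] {C D A : Set α} (e : α) : lam M C D A ≤ lam M (insert e C) D A + 1 := by
  unfold lam
  have h1 := rk_insert_le (M := M) e C
  have h2 := rk_mono M (show A ∪ C ⊆ A ∪ insert e C by
    intro x; simp only [mem_union, mem_insert_iff]; tauto)
  omega

lemma con2 [M.Finite] {C D A : Set α} (e : α) :
    lam M C D (insert e A) ≤ lam M (insert e C) D A + 1 := by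
  unfold lam
  have h1 := rk_insert_le (M := M) e C
  have h2 : insert e A ∪ C = A ∪ insert e C := by
    ext x; simp only [mem_union, mem_insert_iff]; tauto
  have h3 := rk_mono M (show M.E \ (insert e A ∪ D) ⊆ M.E \ (A ∪ D) by
    intro x; simp only [mem_union, mem_insert_iff, mem_sdiff]; tauto)
  rw [h2]
  omega

lemma con3 [M.Finite] {C D A : Set α} {e : α}
    (hC : C ⊆ M.E) (heC : e ∉ C) (hCD : Disjoint C D) (hAC : Disjoint A C) :
    lam M (insert e C) D A ≤ lam M C D (insert e A) := by
  unfold lam
  have h2 : insert e A ∪ C = A ∪ insert e C := by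
    ext x; simp only [mem_union, mem_insert_iff]; tauto
  have h3 : rk M C + rk M (M.E \ (A ∪ D)) ≤ rk M (insert e C) + rk M (M.E \ (insert e A ∪ D)) := by
    refine rk_sub' ?_ ?_
    · intro x hx
      have a2 : x ∈ C → x ∉ D := fun h => Set.disjoint_left.1 hCD h
      have a3 : x ∉ A := fun h => Set.disjoint_left.1 hAC h hx
      have a4 : x ≠ e := fun h => heC (h ▸ hx)
      refine ⟨Or.inr hx, hC hx, ?_⟩
      simp only [mem_union, mem_insert_iff]
      tauto
    · intro x hx
      simp only [mem_union, mem_insert_iff, mem_sdiff] at hx ⊢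
      tauto
  rw [h2]
  omega

/-! one-element steps, deletion -/

lemma del1 [M.Finite] {C D A : Set α} (e : α) : lam M C D A ≤ lam M C (insert e D) A + 1 := by
  unfold lam
  have h1 : rk M (M.E \ (A ∪ D)) ≤ rk M (M.E \ (A ∪ insert e D)) + 1 := by
    refine le_trans (rk_mono M ?_) (rk_insert_le (M := M) e _)
    intro x
    simp only [mem_union, mem_insert_iff, mem_sdiff]
    tauto
  have h2 := rk_mono M (show M.E \ (insert e D) ⊆ M.E \ D by
    intro x; simp only [mem_insert_iff, mem_sdiff]; tauto)
  omega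

lemma del2 [M.Finite] {C D A : Set α} (e : α) :
    lam M C D (insert e A) ≤ lam M C (insert e D) A + 1 := by
  unfold lam
  have h1 : rk M (insert e A ∪ C) ≤ rk M (A ∪ C) + 1 := by
    rw [insert_union]; exact rk_insert_le e _
  have h2 : insert e A ∪ D = A ∪ insert e D := by
    ext x; simp only [mem_union, mem_insert_iff]; tauto
  have h3 := rk_mono M (show M.E \ (insert e D) ⊆ M.E \ D by
    intro x; simp only [mem_insert_iff, mem_sdiff]; tauto)
  rw [h2]
  omega

lemma del3 [M.Finite] {C D A : Set α} {e : α} (heA : e ∉ A)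
    (hA : A ⊆ M.E) (hC : C ⊆ M.E) (heC : e ∉ C) (hCD : Disjoint C D) (hAD : Disjoint A D) :
    lam M C (insert e D) A ≤ lam M C D (insert e A) := by
  unfold lam
  have h2 : insert e A ∪ D = A ∪ insert e D := by
    ext x; simp only [mem_union, mem_insert_iff]; tauto
  have h3 : rk M (A ∪ C) + rk M (M.E \ D) ≤ rk M (insert e A ∪ C) + rk M (M.E \ insert e D) := by
    refine rk_sub' ?_ ?_
    · rintro x (hx | hx)
      · have a3 : x ∉ D := fun h => Set.disjoint_left.1 hAD hx h
        have a4 : x ≠ e := fun h => heA (h ▸ hx)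
        refine ⟨Or.inl (Or.inr hx), hA hx, ?_⟩
        simp only [mem_insert_iff]
        tauto
      · have a3 : x ∉ D := fun h => Set.disjoint_left.1 hCD hx h
        have a4 : x ≠ e := fun h => heC (h ▸ hx)
        refine ⟨Or.inr hx, hC hx, ?_⟩
        simp only [mem_insert_iff]
        tauto
    · intro x hx
      simp only [mem_union, mem_insert_iff, mem_sdiff] at hx ⊢
      tauto
  rw [h2]
  omega

/-! the same with a role set: elements of `R` are contracted if they are in `K`, else deleted -/

/-- connectivity of `A` in the minor of `M` with `R` removed (contracted inside `K`, deleted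
outside). -/
noncomputable def lm (M : Matroid α) (K R A : Set α) : ℤ := lam M (R ∩ K) (R \ K) A

lemma lm_submod [M.Finite] (K R A B : Set α) :
    lm M K R (A ∩ B) + lm M K R (A ∪ B) ≤ lm M K R A + lm M K R B := lam_submod _ _ _ _

lemma insert_inter_of {K R : Set α} {e : α} (he : e ∈ K) :
    (insert e R) ∩ K = insert e (R ∩ K) ∧ (insert e R) \ K = R \ K := by
  constructor
  · ext x
    simp only [mem_inter_iff, mem_insert_iff]
    constructor
    · rintro ⟨a, b⟩; tauto
    · rintro (a | a)
      · subst a; exact ⟨Or.inl rfl, he⟩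
      · exact ⟨Or.inr a.1, a.2⟩
  · ext x
    simp only [mem_sdiff, mem_insert_iff]
    constructor
    · rintro ⟨a | a, b⟩
      · subst a; exact absurd he b
      · exact ⟨a, b⟩
    · rintro ⟨a, b⟩
      exact ⟨Or.inr a, b⟩

lemma insert_inter_of_not {K R : Set α} {e : α} (he : e ∉ K) :
    (insert e R) ∩ K = R ∩ K ∧ (insert e R) \ K = insert e (R \ K) := by
  constructor
  · ext x
    simp only [mem_inter_iff, mem_insert_iff]
    constructor
    · rintro ⟨a | a, b⟩
      · subst a; exact absurd b he
      · exact ⟨a, b⟩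
    · rintro ⟨a, b⟩
      exact ⟨Or.inr a, b⟩
  · ext x
    simp only [mem_sdiff, mem_insert_iff]
    constructor
    · rintro ⟨a, b⟩; tauto
    · rintro (a | a)
      · subst a; exact ⟨Or.inl rfl, he⟩
      · exact ⟨Or.inr a.1, a.2⟩

lemma lm1 [M.Finite] {K R A : Set α} (e : α) : lm M K R A ≤ lm M K (insert e R) A + 1 := by
  unfold lm
  by_cases he : e ∈ K
  · rw [(insert_inter_of he).1, (insert_inter_of he).2]; exact con1 e
  · rw [(insert_inter_of_not he).1, (insert_inter_of_not he).2]; exact del1 e

lemma lm2 [M.Finite] {K R A : Set α} (e : α) :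
    lm M K R (insert e A) ≤ lm M K (insert e R) A + 1 := by
  unfold lm
  by_cases he : e ∈ K
  · rw [(insert_inter_of he).1, (insert_inter_of he).2]; exact con2 e
  · rw [(insert_inter_of_not he).1, (insert_inter_of_not he).2]; exact del2 e

lemma lm3 [M.Finite] {K R A : Set α} {e : α} (heA : e ∉ A) (heR : e ∉ R)
    (hA : A ⊆ M.E) (hR : R ⊆ M.E) (hAR : Disjoint A R) :
    lm M K (insert e R) A ≤ lm M K R (insert e A) := by
  unfold lm
  have h1 : Disjoint (R ∩ K) (R \ K) := by
    rw [Set.disjoint_left]; rintro x ⟨_, h⟩ ⟨_, h'⟩; exact h' h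
  have h2 : Disjoint A (R ∩ K) := hAR.mono_right inter_subset_left
  have h3 : Disjoint A (R \ K) := hAR.mono_right sdiff_subset
  by_cases hK : e ∈ K
  · rw [(insert_inter_of hK).1, (insert_inter_of hK).2]
    exact con3 (inter_subset_left.trans hR) (fun h => heR h.1) h1 h2
  · rw [(insert_inter_of_not hK).1, (insert_inter_of_not hK).2]
    exact del3 heA hA (inter_subset_left.trans hR) (fun h => heR h.1) h1 h3

/-- The one-sided reduction. -/
theorem lemR [M.Finite] {K X₀ E₁ : Set α} {P : Set α → Prop} (hX₀ : X₀ ⊆ M.E)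
    (hPm : ∀ A B, A ⊆ B → P A → P B) (hPE : ∀ A, P A → P (A ∩ E₁)) {κ : ℤ} :
    ∀ (d : ℕ) (R X : Set α), R ⊆ X₀ \ E₁ → X ⊆ X₀ \ R → P X → lm M K R X = κ →
    lm M K R (X₀ \ R) ≤ κ →
    (∀ A ⊆ X, P A → κ ≤ lm M K R A) → (∀ B, X ⊆ B → B ⊆ X₀ \ R → κ ≤ lm M K R B) →
    (X \ E₁).ncard = d →
    ∃ R' X' : Set α, R' ⊆ X₀ \ E₁ ∧ X' ⊆ X₀ ∩ E₁ ∧ P X' ∧ lm M K R' X' = κ ∧
      lm M K R' (X₀ \ R') = κ ∧ ∀ B ⊆ X₀ \ R', P (B ∩ X') → κ ≤ lm M K R' B := by
  intro d
  induction d using Nat.strong_induction_on with
  | _ d ih =>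
    intro R X hR hX hPX hlX hlX₀ hU hV hd
    have hfin : (X \ E₁).Finite :=
      M.ground_finite.subset (sdiff_subset.trans (hX.trans (sdiff_subset.trans hX₀)))
    have hW : ∀ B ⊆ X₀ \ R, P (B ∩ X) → κ ≤ lm M K R B := by
      intro B hB hPB
      have h1 := hU (B ∩ X) inter_subset_right hPB
      have h2 := hV (B ∪ X) subset_union_right (union_subset hB hX)
      have h3 := lm_submod (M := M) K R B X
      omega
    rcases (X \ E₁).eq_empty_or_nonempty with h0 | ⟨e, heX, heE⟩
    · have hXE : X ⊆ E₁ := sdiff_eq_empty.1 h0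
      refine ⟨R, X, hR, subset_inter (hX.trans sdiff_subset) hXE, hPX, hlX, ?_, hW⟩
      exact le_antisymm hlX₀ (hV _ hX (subset_refl _))
    · have heX₀ : e ∈ X₀ := (hX heX).1
      have heR : e ∉ R := (hX heX).2
      have hXR : Disjoint X R := Set.disjoint_left.2 fun x hx => (hX hx).2
      by_cases hA : ∃ A, A ⊆ X \ {e} ∧ P A ∧ lm M K R A = κ
      · -- replace X by A
        obtain ⟨A, hAX, hPA, hlA⟩ := hA
        have hAX' : A ⊆ X := hAX.trans sdiff_subset
        have hlt : (A \ E₁).ncard < d := by
          rw [← hd]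
          refine Set.ncard_lt_ncard ?_ hfin
          refine (Set.ssubset_iff_of_subset (sdiff_subset_sdiff_left hAX')).2 ⟨e, ⟨heX, heE⟩, ?_⟩
          exact fun h => (hAX h.1).2 rfl
        exact ih _ hlt R A hR (hAX'.trans hX) hPA hlA hlX₀
          (fun B hB hPB => hU B (hB.trans hAX') hPB)
          (fun B hAB hB => hW B hB (hPm A _ (subset_inter hAB hAX') hPA)) rfl
      · push Not at hA
        have hgt : ∀ A ⊆ X \ {e}, P A → κ + 1 ≤ lm M K R A := by
          intro A hAX hPA
          have h1 := hU A (hAX.trans sdiff_subset) hPA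
          have h2 := hA A hAX hPA
          omega
        have hPXe : P (X \ {e}) := by
          refine hPm _ _ ?_ (hPE X hPX)
          intro x hx
          exact ⟨hx.1, fun h => heE (h ▸ hx.2)⟩
        have hins : insert e (X \ {e}) = X := by
          rw [insert_sdiff_singleton, insert_eq_of_mem heX]
        have hR' : insert e R ⊆ X₀ \ E₁ := insert_subset ⟨heX₀, heE⟩ hR
        have hX' : X \ {e} ⊆ X₀ \ insert e R := by
          intro x hx
          refine ⟨(hX hx.1).1, ?_⟩
          simp only [mem_insert_iff, not_or]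
          exact ⟨hx.2, (hX hx.1).2⟩
        have hRE : R ⊆ M.E := hR.trans (sdiff_subset.trans hX₀)
        have hU' : ∀ A ⊆ X \ {e}, P A → κ ≤ lm M K (insert e R) A := by
          intro A hAX hPA
          have h1 := hgt A hAX hPA
          have h2 := lm1 (M := M) (K := K) (R := R) (A := A) e
          omega
        have hle : lm M K (insert e R) (X \ {e}) ≤ κ := by
          have h1 := lm3 (M := M) (K := K) (R := R) (A := X \ {e})
            (fun h => h.2 rfl) heR (sdiff_subset.trans (hX.trans (sdiff_subset.trans hX₀))) hRE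
            (hXR.mono_left sdiff_subset)
          rw [hins, hlX] at h1
          exact h1
        have hle₀ : lm M K (insert e R) (X₀ \ insert e R) ≤ κ := by
          have h1 := lm3 (M := M) (K := K) (R := R) (A := X₀ \ insert e R)
            (fun h => h.2 (mem_insert _ _)) heR (sdiff_subset.trans hX₀) hRE
            (Set.disjoint_left.2 fun x hx hx' => hx.2 (mem_insert_of_mem _ hx'))
          have h2 : insert e (X₀ \ insert e R) = X₀ \ R := by
            ext x
            simp only [mem_insert_iff, mem_sdiff, not_or]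
            constructor
            · rintro (rfl | h)
              · exact ⟨heX₀, heR⟩
              · exact ⟨h.1, h.2.2⟩
            · rintro ⟨h, h'⟩
              by_cases hxe : x = e
              · exact Or.inl hxe
              · exact Or.inr ⟨h, hxe, h'⟩
          rw [h2] at h1
          omega
        have hlt : ((X \ {e}) \ E₁).ncard < d := by
          rw [← hd]
          refine Set.ncard_lt_ncard ?_ hfin
          refine (Set.ssubset_iff_of_subset (sdiff_subset_sdiff_left sdiff_subset)).2
            ⟨e, ⟨heX, heE⟩, ?_⟩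
          exact fun h => h.1.2 rfl
        refine ih _ hlt (insert e R) (X \ {e}) hR' hX' hPXe
          (le_antisymm hle (hU' _ (subset_refl _) hPXe)) hle₀ hU' ?_ rfl
        intro B hXB hB
        by_contra hcon
        have hcon' : lm M K (insert e R) B ≤ κ - 1 := by omega
        have h1 := lm1 (M := M) (K := K) (R := R) (A := B) e
        have hBR : B ⊆ X₀ \ R := fun x hx => ⟨(hB hx).1, fun h => (hB hx).2 (mem_insert_of_mem _ h)⟩
        have heB : e ∉ B := fun h => (hB h).2 (mem_insert _ _)
        -- uncross B with X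
        have h2 := lm_submod (M := M) K R B X
        have h3 := hV (B ∪ X) subset_union_right (union_subset hBR hX)
        have h4 : X \ {e} ⊆ B ∩ X := subset_inter hXB sdiff_subset
        have h5 : B ∩ X ⊆ X \ {e} := fun x hx => ⟨hx.2, fun h => heB (h ▸ hx.1)⟩
        have h6 : B ∩ X = X \ {e} := Subset.antisymm h5 h4
        have h7 := hgt _ (subset_refl _) hPXe
        rw [h6] at h2
        omega

end BICS
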