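import Pool.Agent.BICS.Kap
import Pool.Agent.BICS.Iso
import Pool.Agent.BICS.Pig

/-!
The two-sided reduction for plain grids. (Problem MP_5165fa_co.)
-/

open Set BIC
open scoped Matroid

namespace BICS

universe u

variable {α : Type u} {M : Matroid α}

/-- connectivity of subsets of the grid in `M ／ C` and in `M` -/
lemma lam_contract_le [M.Finite] {E C A : Set α} (hE : E ⊆ M.E) (hC : C ⊆ M.E \ E)
    (hA : A ⊆ M.E) : (rk (M ／ C) (A ∩ E) : ℤ) + rk (M ／ C) (E \ (A ∩ E)) - rk (M ／ C) E ≤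
      lam M ∅ ∅ A := by
  have hCE : C ⊆ M.E := hC.trans sdiff_subset
  have f2 : ∀ z, z ∈ C → z ∈ M.E ∧ z ∉ E := fun z hz => hC hz
  have f3 : ∀ z, z ∈ E → z ∈ M.E := fun z hz => hE hz
  have hrk : ∀ B ⊆ E, rk (M ／ C) B + rk M C = rk M (B ∪ C) := fun B hB =>
    rk_contract_set hCE (fun z hz => ⟨hE (hB hz), fun h => (hC h).2 (hB hz)⟩)
  have h1 := hrk (A ∩ E) inter_subset_right
  have h2 := hrk (E \ (A ∩ E)) sdiff_subset
  have h3 := hrk E (subset_refl _)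
  have h4 := lam_minor_le (M := M) (C := C) (D := M.E \ (E ∪ C)) (A := A) hA hCE (by
    rw [Set.disjoint_left]
    intro z hz hz'
    exact hz'.2 (Or.inr hz))
  have e1 : A \ (C ∪ (M.E \ (E ∪ C))) = A ∩ E := by
    ext z
    have := f2 z
    have := f3 z
    have := @hA z
    simp only [mem_sdiff, mem_union, mem_inter_iff]
    tauto
  have e2 : M.E \ ((A ∩ E) ∪ (M.E \ (E ∪ C))) = (E \ (A ∩ E)) ∪ C := by
    ext z
    have := f2 z
    have := f3 z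
    simp only [mem_sdiff, mem_union, mem_inter_iff]
    tauto
  have e3 : M.E \ (M.E \ (E ∪ C)) = E ∪ C := by
    ext z
    have := f2 z
    have := f3 z
    simp only [mem_sdiff, mem_union]
    tauto
  rw [e1] at h4
  unfold lam at h4 ⊢
  rw [e2, e3] at h4
  omega

/-- changing a set by `Z` changes the connectivity by at most `|Z|` -/
lemma lam_move [M.Finite] {A U D : Set α} (hU : U ⊆ M.E) (hD : D ⊆ M.E) :
    lam M ∅ ∅ ((A ∪ U) \ D) ≤ lam M ∅ ∅ A + U.ncard + D.ncard := by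
  have hfU := M.ground_finite.subset hU
  have hfD := M.ground_finite.subset hD
  rw [lam_empty, lam_empty]
  have h1 : rk M ((A ∪ U) \ D) ≤ rk M A + U.ncard :=
    (rk_mono M sdiff_subset).trans (rk_union_le M hfU)
  have h2 : rk M (M.E \ ((A ∪ U) \ D)) ≤ rk M (M.E \ A) + D.ncard := by
    refine le_trans (rk_mono M ?_) (rk_union_le M hfD)
    intro z
    simp only [mem_sdiff, mem_union]
    tauto
  omega

/-- lower bound for the linking number of two blocks -/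
theorem low [M.Finite] {E₁ E₂ C₁ D₂ : Set α} {e₁ e₂ : α → Sym2 (ℕ × ℕ)}
    {x y x' y' n₁ n₂ a b a' b' s K : ℕ} (hE₁ : E₁ ⊆ M.E) (hE₂ : E₂ ⊆ M.E) (hd : Disjoint E₁ E₂)
    (hC₁ : C₁ ⊆ M.E \ E₁) (hD₂ : D₂ ⊆ M.E \ E₂)
    (hB₁ : Bic (M ／ C₁) E₁ e₁) (hG₁ : Grd E₁ e₁ x y n₁ n₁)
    (hB₂ : Bic (M✶ ／ D₂) E₂ e₂) (hG₂ : Grd E₂ e₂ x' y' n₂ n₂)
    (hK : KGe M E₁ E₂ (K + 64 * (K + 1) ^ 2 + 1)) (hs : 4 * (K + 1) < s)
    (hr₁ : rect a b s s ⊆ rect x y n₁ n₁) (hr₂ : rect a' b' s s ⊆ rect x' y' n₂ n₂) :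
    KGe M (blk E₁ e₁ a b s) (blk E₂ e₂ a' b' s) K := by
  have : (M ／ C₁).Finite := ⟨M.ground_finite.subset sdiff_subset⟩
  have : (M✶ ／ D₂).Finite := ⟨M✶.ground_finite.subset sdiff_subset⟩
  rw [KGe_iff] at hK ⊢
  intro X hX1 hX2
  by_contra hcon
  have hXE : X ⊆ M.E := hX2.trans sdiff_subset
  -- side 1
  have h1 := lam_contract_le hE₁ hC₁ hXE
  have i1 : (E₁ \ (X ∩ E₁)).ncard ≤ 32 * (K + 1) ^ 2 := by
    refine iso' (j := K) hB₁ hG₁ inter_subset_right hs hr₁ (subset_inter hX1 blk_sub) ?_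
    omega
  -- side 2
  have hXd : lam M✶ ∅ ∅ (M.E \ X) = lam M ∅ ∅ X := by
    have := lam_compl_dual (M := M) (C := ∅) (D := ∅) (A := X) hXE (empty_subset _)
      (empty_subset _) (disjoint_empty _) (disjoint_empty _) (disjoint_empty _)
    rwa [union_empty, sdiff_empty] at this
  have h2 := lam_contract_le (M := M✶) (E := E₂) (C := D₂) (A := M.E \ X) hE₂ hD₂ sdiff_subset
  have i2 : (E₂ \ ((M.E \ X) ∩ E₂)).ncard ≤ 32 * (K + 1) ^ 2 := by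
    refine iso' (j := K) hB₂ hG₂ inter_subset_right hs hr₂ (subset_inter ?_ blk_sub) ?_
    · intro z hz
      exact ⟨hE₂ (blk_sub hz), fun h => (hX2 h).2 hz⟩
    · rw [hXd] at h2
      omega
  -- move
  have h3 := lam_move (M := M) (A := X) (U := E₁ \ (X ∩ E₁)) (D := E₂ \ ((M.E \ X) ∩ E₂))
    (sdiff_subset.trans hE₁) (sdiff_subset.trans hE₂)
  have h4 := hK ((X ∪ (E₁ \ (X ∩ E₁))) \ (E₂ \ ((M.E \ X) ∩ E₂))) (by
    intro z hz
    refine ⟨?_, fun h => Set.disjoint_left.1 hd hz h.1⟩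
    by_cases hzX : z ∈ X
    · exact Or.inl hzX
    · exact Or.inr ⟨hz, fun h => hzX h.1⟩) (by
    rintro z ⟨hz, hz'⟩
    have hzE : z ∈ M.E := by
      rcases hz with hz | hz
      · exact hXE hz
      · exact hE₁ hz.1
    refine ⟨hzE, fun hz2 => hz' ⟨hz2, ?_⟩⟩
    rintro ⟨⟨_, h5⟩, _⟩
    rcases hz with hz | hz
    · exact h5 hz
    · exact Set.disjoint_left.1 hd hz.1 hz2)
  have h5 : K + 64 * (K + 1) ^ 2 + 1 ≤ K + 32 * (K + 1) ^ 2 + 32 * (K + 1) ^ 2 + 1 := by ring_nf; omega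
  omega

lemma lam_minor_eq [M.Finite] {C D X : Set α} (hC : C ⊆ M.E) (hCD : Disjoint C D)
    (hX : X ⊆ M.E \ (C ∪ D)) : lam (M ／ C ＼ D) ∅ ∅ X = lam M C D X := by
  have : (M ／ C ＼ D).Finite := ⟨M.ground_finite.subset (sdiff_subset.trans sdiff_subset)⟩
  have dCD : ∀ z, z ∈ C → z ∉ D := fun z h => Set.disjoint_left.1 hCD h
  have f1 : ∀ z, z ∈ C → z ∈ M.E := fun z h => hC h
  have f2 : ∀ z, z ∈ X → z ∈ M.E ∧ ¬ (z ∈ C ∨ z ∈ D) := fun z h => hX h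
  have hE : (M ／ C ＼ D).E = M.E \ (C ∪ D) := by
    rw [Matroid.delete_ground, Matroid.contract_ground, sdiff_sdiff]
  have h1 := rk_minor (M := M) (D := D) hC hX
  have h2 := rk_minor (M := M) (D := D) (X := (M.E \ (C ∪ D)) \ X) hC sdiff_subset
  have h3 := rk_minor (M := M) (D := D) (X := M.E \ (C ∪ D)) hC (subset_refl _)
  have e1 : ((M.E \ (C ∪ D)) \ X) ∪ C = M.E \ (X ∪ D) := by
    ext z
    have := dCD z
    have := f1 z
    have := f2 z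
    simp only [mem_sdiff, mem_union]
    tauto
  have e2 : (M.E \ (C ∪ D)) ∪ C = M.E \ D := by
    ext z
    have := dCD z
    have := f1 z
    simp only [mem_sdiff, mem_union]
    tauto
  rw [e1] at h2
  rw [e2] at h3
  rw [lam_empty, hE]
  unfold lam
  omega

/-- Two-sided reduction for plain grids of sides `n₁`, `n₂`. -/
theorem red (K : ℕ) : ∃ κ₀ : ℕ, ∀ (κ₁ : ℕ) (F : ℕ → ℕ), ∃ n₀ : ℕ, ∀ n₁ ≥ n₀, ∀ n₂ ≥ n₀,
    ∀ {α : Type u} (M : Matroid α) [M.Finite] (E₁ E₂ C₁ D₂ : Set α)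
    (e₁ e₂ : α → Sym2 (ℕ × ℕ)) (x y x' y' : ℕ),
    E₁ ⊆ M.E → E₂ ⊆ M.E → Disjoint E₁ E₂ → C₁ ⊆ M.E \ E₁ → D₂ ⊆ M.E \ E₂ →
    Bic (M ／ C₁) E₁ e₁ → Grd E₁ e₁ x y n₁ n₁ →
    Bic (M✶ ／ D₂) E₂ e₂ → Grd E₂ e₂ x' y' n₂ n₂ →
    KGe M E₁ E₂ κ₀ → ¬ KGe M E₁ E₂ (κ₁ + 1) →
    ∃ (s : ℕ) (M' : Matroid α), M' ≤m M ∧ ∃ (S T : Set α) (P Q : Matroid α)
      (x y x' y' : ℕ), P.Finite ∧ Q.Finite ∧ Disjoint S T ∧
      S ⊆ M'.E ∧ T ⊆ M'.E ∧
      Bic P S e₁ ∧ Grd S e₁ x y (F s) (F s) ∧ Quo M' P S ∧ rk M' S ≤ rk P S + κ₁ ∧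
      Bic Q T e₂ ∧ Grd T e₂ x' y' (F s) (F s) ∧ Quo M'✶ Q T ∧ rk M'✶ T ≤ rk Q T + κ₁ ∧
      ∀ a b a' b', rect a b s s ⊆ rect x y (F s) (F s) →
        rect a' b' s s ⊆ rect x' y' (F s) (F s) →
        KGe M' (blk S e₁ a b s) (blk T e₂ a' b' s) K := by
  refine ⟨K + 64 * (K + 1) ^ 2 + 1, ?_⟩
  intro κ₁ F
  obtain ⟨Sc, hSc⟩ := stable fun s => (32 * (κ₁ + 1) ^ 2 + 1) * (F s) + s
  refine ⟨Sc κ₁ (4 * (K + κ₁ + 1) + 1), ?_⟩
  set n₀ := Sc κ₁ (4 * (K + κ₁ + 1) + 1) with hn₀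
  intro n₁ hn₁ n₂ hn₂ α M _ E₁ E₂ C₁ D₂ e₁ e₂ x y x' y' hE₁ hE₂ hd hC₁ hD₂ hB₁ hG₁ hB₂ hG₂ hK hK'
  -- stable pair
  obtain ⟨⟨⟨a, b⟩, ⟨a', b'⟩, m⟩, hr, s, hs, hm, hst⟩ := hSc (β := (ℕ × ℕ) × (ℕ × ℕ) × ℕ)
    (fun p q => rect p.1.1 p.1.2 p.2.2 p.2.2 ⊆ rect q.1.1 q.1.2 q.2.2 q.2.2 ∧
      rect p.2.1.1 p.2.1.2 p.2.2 p.2.2 ⊆ rect q.2.1.1 q.2.1.2 q.2.2 q.2.2)
    (fun p => p.2.2)
    (fun p => kap M (blk E₁ e₁ p.1.1 p.1.2 p.2.2) (blk E₂ e₂ p.2.1.1 p.2.1.2 p.2.2))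
    (fun p => ⟨subset_refl _, subset_refl _⟩)
    (fun p q r h1 h2 => ⟨h1.1.trans h2.1, h1.2.trans h2.2⟩)
    (fun p q h => kap_mono (blk_sub.trans hE₁) (hd.mono blk_sub blk_sub)
      (ins_mono h.1) (ins_mono h.2))
    κ₁ (4 * (K + κ₁ + 1) + 1) ((x, y), (x', y'), n₀)
    (kap_le fun h => hK' (KGe_sets h blk_sub blk_sub)) (by show n₀ ≤ n₀; exact le_refl _)
  simp only at hr hm hst
  obtain ⟨hr1, hr2⟩ := hr
  have hsm : s ≤ m := le_trans (Nat.le_add_left _ _) hm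
  set t := F s with ht
  have htm : (32 * (κ₁ + 1) ^ 2 + 1) * t ≤ m := le_trans (Nat.le_add_right _ _) hm
  have hbig1 : rect x y n₀ n₀ ⊆ rect x y n₁ n₁ :=
    rect_sub (le_refl _) (by omega) (le_refl _) (by omega)
  have hbig2 : rect x' y' n₀ n₀ ⊆ rect x' y' n₂ n₂ :=
    rect_sub (le_refl _) (by omega) (le_refl _) (by omega)
  have hr1' := hr1.trans hbig1
  have hr2' := hr2.trans hbig2
  set S₁ := blk E₁ e₁ a b m with hS₁
  set S₂ := blk E₂ e₂ a' b' m with hS₂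
  have hS₁E : S₁ ⊆ E₁ := blk_sub
  have hS₂E : S₂ ⊆ E₂ := blk_sub
  have hS₁M : S₁ ⊆ M.E := hS₁E.trans hE₁
  have hS₂M : S₂ ⊆ M.E := hS₂E.trans hE₂
  have hSd : Disjoint S₁ S₂ := hd.mono hS₁E hS₂E
  set κ := kap M S₁ S₂ with hκ
  have hκle : κ ≤ κ₁ := kap_le fun h => hK' (KGe_sets h hS₁E hS₂E)
  -- all pairs of subblocks of side s have linking number κ
  have hpair : ∀ c d c' d', rect c d s s ⊆ rect a b m m → rect c' d' s s ⊆ rect a' b' m m →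
      KGe M (blk E₁ e₁ c d s) (blk E₂ e₂ c' d' s) κ := by
    intro c d c' d' h1 h2
    have h3 := hst ((c, d), (c', d'), s) ⟨h1, h2⟩ (le_refl _)
    simp only at h3
    rw [← h3]
    exact KGe_kap
  have hrs1 : rect a b s s ⊆ rect a b m m :=
    rect_sub (le_refl _) (by omega) (le_refl _) (by omega)
  have hrs2 : rect a' b' s s ⊆ rect a' b' m m :=
    rect_sub (le_refl _) (by omega) (le_refl _) (by omega)
  have hKκ : K ≤ κ := by
    have h1 := low (s := s) hE₁ hE₂ hd hC₁ hD₂ hB₁ hG₁ hB₂ hG₂ hK (by omega)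
      (hrs1.trans hr1') (hrs2.trans hr2')
    have h2 := le_kap (blk_sub.trans hE₁) (hd.mono blk_sub blk_sub) h1
    have h3 := hst ((a, b), (a', b'), s) ⟨hrs1, hrs2⟩ (le_refl _)
    simp only at h3
    omega
  -- the separation X₀
  obtain ⟨X₀, hX1, hX2, hX3⟩ : ∃ X₀, S₁ ⊆ X₀ ∧ X₀ ⊆ M.E \ S₂ ∧ lam M ∅ ∅ X₀ = κ := by
    have h1 := not_KGe_kap hS₁M hSd
    rw [KGe_iff] at h1
    push Not at h1
    obtain ⟨X₀, g1, g2, g3⟩ := h1
    have h2 := KGe_iff.1 (KGe_kap (M := M) (S := S₁) (T := S₂)) X₀ g1 g2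
    refine ⟨X₀, g1, g2, ?_⟩
    push_cast at g3
    omega
  have hX₀ : X₀ ⊆ M.E := hX2.trans sdiff_subset
  have hS₂Y : S₂ ⊆ M.E \ X₀ := fun z hz => ⟨hS₂M hz, fun h => (hX2 h).2 hz⟩
  -- side 1
  obtain ⟨C', D', X, hC', hD', hCD', hXS, hPX, hlX, hWX, hisoX, hquoX, hdefX⟩ :=
    side_red (M := M) (X₀ := X₀) (E := S₁) (C := C₁) (ends := e₁) (x := a) (y := b) (m := m)
      (s := s) (κ := κ) hX₀ hX1 (hC₁.trans (sdiff_subset_sdiff_right hS₁E)) hsm hX3 (by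
      rintro A hA ⟨c, d, h1, h2⟩
      rw [blk_blk h1] at h2
      exact KGe_iff.1 (hpair c d a' b' h1 hrs2) A h2
        (fun z hz => ⟨hX₀ (hA hz), fun h => (hX2 (hA hz)).2 (blk_mono hrs2 h)⟩))
  -- side 2
  have hdual : ∀ B ⊆ M.E, lam M✶ ∅ ∅ B = lam M ∅ ∅ B := fun B hB =>
    lam_dual hB (empty_subset _) (empty_subset _) (disjoint_empty _) (disjoint_empty _)
  have hcompl : ∀ B ⊆ M.E, lam M ∅ ∅ (M.E \ B) = lam M ∅ ∅ B := fun B hB => by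
    have := lam_compl (M := M) (C := ∅) (D := ∅) hB (empty_subset _) (disjoint_empty _)
      (disjoint_empty _) (disjoint_empty _)
    rwa [union_empty, sdiff_empty] at this
  obtain ⟨C'', D'', Y, hC'', hD'', hCD'', hYS, hPY, hlY, hWY, hisoY, hquoY, hdefY⟩ :=
    side_red (M := M✶) (X₀ := M.E \ X₀) (E := S₂) (C := D₂) (ends := e₂) (x := a') (y := b')
      (m := m) (s := s) (κ := κ) sdiff_subset hS₂Y (hD₂.trans (sdiff_subset_sdiff_right hS₂E)) hsm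
      (by rw [hdual _ sdiff_subset, hcompl _ hX₀, hX3]) (by
      rintro B hB ⟨c, d, h1, h2⟩
      rw [blk_blk h1] at h2
      have hBE : B ⊆ M.E := hB.trans sdiff_subset
      rw [hdual _ hBE, ← hcompl _ hBE]
      refine KGe_iff.1 (hpair a b c d hrs1 h1) (M.E \ B) ?_ (sdiff_subset_sdiff_right h2)
      intro z hz
      exact ⟨hE₁ (blk_sub hz), fun h => (hB h).2 (hX1 (blk_mono hrs1 hz))⟩)
  -- large blocks inside X and Y
  have hfin1 : (M ／ C₁).Finite := ⟨M.ground_finite.subset sdiff_subset⟩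
  have hfin2 : (M✶ ／ D₂).Finite := ⟨M✶.ground_finite.subset sdiff_subset⟩
  have hmono : 32 * (κ + 1) ^ 2 ≤ 32 * (κ₁ + 1) ^ 2 :=
    Nat.mul_le_mul_left _ (Nat.pow_le_pow_left (by omega) 2)
  have hB₁' : Bic (M ／ C₁) S₁ e₁ := Bic_sub hB₁ hS₁E
  have hB₂' : Bic (M✶ ／ D₂) S₂ e₂ := Bic_sub hB₂ hS₂E
  have hG₁' : Grd S₁ e₁ a b m m := Grd_sub hG₁ hr1'
  have hG₂' : Grd S₂ e₂ a' b' m m := Grd_sub hG₂ hr2'
  obtain ⟨c, d, hcd, hST⟩ : ∃ c d, rect c d t t ⊆ rect a b m m ∧ blk E₁ e₁ c d t ⊆ X := by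
    obtain ⟨p, q, hp1, hp2⟩ := hPX
    have h1 : (S₁ \ X).ncard ≤ 32 * (κ + 1) ^ 2 :=
      iso' (j := κ) hB₁' hG₁' hXS (by omega) hp1 hp2 hisoX
    obtain ⟨c, d, h2, h3⟩ := exists_blk_avoid (E := S₁) (ends := e₁) (x := a) (y := b) (m := m)
      (t := t) (g := 32 * (κ₁ + 1) ^ 2) (S₁ \ X)
      (M.ground_finite.subset (sdiff_subset.trans hS₁M)) (h1.trans hmono) htm
    refine ⟨c, d, h2, fun z hz => ?_⟩
    by_contra hcon
    rw [← blk_blk h2] at hz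
    exact Set.disjoint_left.1 h3 hz ⟨blk_sub hz, hcon⟩
  obtain ⟨c', d', hcd', hST'⟩ : ∃ c' d', rect c' d' t t ⊆ rect a' b' m m ∧
      blk E₂ e₂ c' d' t ⊆ Y := by
    obtain ⟨p, q, hp1, hp2⟩ := hPY
    have h1 : (S₂ \ Y).ncard ≤ 32 * (κ + 1) ^ 2 :=
      iso' (j := κ) hB₂' hG₂' hYS (by omega) hp1 hp2 hisoY
    obtain ⟨c', d', h2, h3⟩ := exists_blk_avoid (E := S₂) (ends := e₂) (x := a') (y := b') (m := m)
      (t := t) (g := 32 * (κ₁ + 1) ^ 2) (S₂ \ Y)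
      (M.ground_finite.subset (sdiff_subset.trans hS₂M)) (h1.trans hmono) htm
    refine ⟨c', d', h2, fun z hz => ?_⟩
    by_contra hcon
    rw [← blk_blk h2] at hz
    exact Set.disjoint_left.1 h3 hz ⟨blk_sub hz, hcon⟩
  set S := blk E₁ e₁ c d t with hS
  set T := blk E₂ e₂ c' d' t with hT
  have hSS₁ : S ⊆ S₁ := hST.trans hXS
  have hTS₂ : T ⊆ S₂ := hST'.trans hYS
  -- set facts
  have hC'X : C' ⊆ X₀ := hC'.trans sdiff_subset
  have hD'X : D' ⊆ X₀ := hD'.trans sdiff_subset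
  have hC''Y : C'' ⊆ M.E \ X₀ := hC''.trans sdiff_subset
  have hD''Y : D'' ⊆ M.E \ X₀ := hD''.trans sdiff_subset
  have hXX : M.E \ (M.E \ X₀) = X₀ := sdiff_sdiff_cancel_left hX₀
  have hC'E : C' ⊆ M.E := hC'X.trans hX₀
  have hD'E : D' ⊆ M.E := hD'X.trans hX₀
  have hC''E : C'' ⊆ M.E := hC''Y.trans sdiff_subset
  have hD''E : D'' ⊆ M.E := hD''Y.trans sdiff_subset
  have q1 : ∀ z, z ∈ C' → z ∈ X₀ ∧ z ∉ S₁ := fun z h => hC' h
  have q2 : ∀ z, z ∈ D' → z ∈ X₀ ∧ z ∉ S₁ := fun z h => hD' h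
  have q3 : ∀ z, z ∈ C'' → (z ∈ M.E ∧ z ∉ X₀) ∧ z ∉ S₂ := fun z h => hC'' h
  have q4 : ∀ z, z ∈ D'' → (z ∈ M.E ∧ z ∉ X₀) ∧ z ∉ S₂ := fun z h => hD'' h
  have q5 : ∀ z, z ∈ C' → z ∉ D' := fun z h => Set.disjoint_left.1 hCD' h
  have q6 : ∀ z, z ∈ C'' → z ∉ D'' := fun z h => Set.disjoint_left.1 hCD'' h
  have q7 : ∀ z, z ∈ S₁ → z ∈ X₀ := fun z h => hX1 h
  have q8 : ∀ z, z ∈ S₂ → z ∈ M.E ∧ z ∉ X₀ := fun z h => hS₂Y h
  have q9 : ∀ z, z ∈ X₀ → z ∈ M.E := fun z h => hX₀ h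
  have hdisA : Disjoint (C' ∪ D'') (D' ∪ C'') := by
    rw [Set.disjoint_left]
    intro z
    have := q1 z
    have := q2 z
    have := q3 z
    have := q4 z
    have := q5 z
    have := q6 z
    simp only [mem_union]
    tauto
  have hCcE : C' ∪ D'' ⊆ M.E := union_subset hC'E hD''E
  have hDcE : D' ∪ C'' ⊆ M.E := union_subset hD'E hC''E
  have hm'1 : lam M ∅ ∅ X₀ ≤ lam M D'' C'' ((M.E \ X₀) \ (D'' ∪ C'')) := by
    have h1 : lam M✶ C'' D'' ((M.E \ X₀) \ (C'' ∪ D'')) =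
        lam M D'' C'' ((M.E \ X₀) \ (C'' ∪ D'')) := by
      refine lam_dual (sdiff_subset.trans sdiff_subset) hD''E hC''E ?_ ?_
      · rw [Set.disjoint_left]
        exact fun z hz hz' => hz.2 (Or.inr hz')
      · rw [Set.disjoint_left]
        exact fun z hz hz' => hz.2 (Or.inl hz')
    rw [hX3, union_comm D'' C'', ← h1, hlY]
  have hm'2 : lam M✶ ∅ ∅ (M.E \ X₀) ≤ lam M✶ D' C' ((M✶.E \ (M.E \ X₀)) \ (D' ∪ C')) := by
    have h1 : lam M✶ D' C' (X₀ \ (C' ∪ D')) = lam M C' D' (X₀ \ (C' ∪ D')) := by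
      refine lam_dual (sdiff_subset.trans hX₀) hC'E hD'E ?_ ?_
      · rw [Set.disjoint_left]
        exact fun z hz hz' => hz.2 (Or.inl hz')
      · rw [Set.disjoint_left]
        exact fun z hz hz' => hz.2 (Or.inr hz')
    rw [Matroid.dual_ground, hXX, union_comm D' C', h1, hlX, hdual _ sdiff_subset, hcompl _ hX₀,
      hX3]
  -- the minor
  set M' := M ／ (C' ∪ D'') ＼ (D' ∪ C'') with hM'
  have hM'E : M'.E = M.E \ ((C' ∪ D'') ∪ (D' ∪ C'')) := by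
    rw [hM', Matroid.delete_ground, Matroid.contract_ground, sdiff_sdiff]
  have hM'd : M'✶ = M✶ ／ (C'' ∪ D') ＼ (D'' ∪ C') := by
    rw [hM', Matroid.dual_contract_delete, union_comm C'' D', union_comm D'' C',
      Matroid.contract_delete_comm _ hdisA.symm]
  have hM'fin : M'.Finite := ⟨M.ground_finite.subset (by rw [hM'E]; exact sdiff_subset)⟩
  have hrkM' : ∀ A ⊆ X₀ \ (C' ∪ D'), rk M' A + rk M C' = rk M (A ∪ C') := fun A hA =>
    rk_comb hX₀ hD''Y hC''Y hCD''.symm hm'1 hC'X hA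
  have hrkM'd : ∀ B ⊆ (M.E \ X₀) \ (C'' ∪ D''), rk M'✶ B + rk M✶ C'' = rk M✶ (B ∪ C'') := by
    intro B hB
    rw [hM'd]
    exact rk_comb (M := M✶) (X₀ := M.E \ X₀) sdiff_subset
      (by rw [Matroid.dual_ground, hXX]; exact hD'X) (by rw [Matroid.dual_ground, hXX]; exact hC'X)
      hCD'.symm hm'2 hC''Y hB
  have hXsub : X ⊆ X₀ \ (C' ∪ D') := by
    intro z hz
    refine ⟨hX1 (hXS hz), ?_⟩
    rintro (h | h)
    · exact (hC' h).2 (hXS hz)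
    · exact (hD' h).2 (hXS hz)
  have hYsub : Y ⊆ (M.E \ X₀) \ (C'' ∪ D'') := by
    intro z hz
    refine ⟨hS₂Y (hYS hz), ?_⟩
    rintro (h | h)
    · exact (hC'' h).2 (hYS hz)
    · exact (hD'' h).2 (hYS hz)
  have hQX : Quo M' (M ／ C₁) X := by
    intro A B hAB hB
    have h1 := hquoX A B hAB hB
    have h2 := hrkM' A (hAB.trans (hB.trans hXsub))
    have h3 := hrkM' B (hB.trans hXsub)
    omega
  have hQY : Quo M'✶ (M✶ ／ D₂) Y := by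
    intro A B hAB hB
    have h1 := hquoY A B hAB hB
    have h2 := hrkM'd A (hAB.trans (hB.trans hYsub))
    have h3 := hrkM'd B (hB.trans hYsub)
    omega
  have hdS : rk M' S ≤ rk (M ／ C₁) S + κ₁ := by
    have h1 := hQX S X hST (subset_refl _)
    have h2 := hrkM' X hXsub
    omega
  have hdT : rk M'✶ T ≤ rk (M✶ ／ D₂) T + κ₁ := by
    have h1 := hQY T Y hST' (subset_refl _)
    have h2 := hrkM'd Y hYsub
    omega
  refine ⟨s, M', Matroid.contract_delete_isMinor _ _ _, S, T, M ／ C₁, M✶ ／ D₂, c, d, c', d',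
    hfin1, hfin2, hSd.mono hSS₁ hTS₂, ?_, ?_, Bic_sub hB₁ blk_sub, Grd_sub hG₁ (hcd.trans hr1'),
    fun A B hAB hB => hQX A B hAB (hB.trans hST), hdS, Bic_sub hB₂ blk_sub,
    Grd_sub hG₂ (hcd'.trans hr2'), fun A B hAB hB => hQY A B hAB (hB.trans hST'), hdT, ?_⟩
  · rw [hM'E]
    intro z hz
    have := q1 z
    have := q2 z
    have := q3 z
    have := q4 z
    have := q7 z (hSS₁ hz)
    have := q9 z
    have h8 : z ∈ S₁ := hSS₁ hz
    simp only [mem_sdiff, mem_union]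
    tauto
  · rw [hM'E]
    intro z hz
    have := q1 z
    have := q2 z
    have := q3 z
    have := q4 z
    have h8 : z ∈ S₂ := hTS₂ hz
    have := q8 z h8
    simp only [mem_sdiff, mem_union]
    tauto
  · -- linking number of small blocks in M'
    intro p q p' q' hr3 hr4
    rw [hS, hT, blk_blk hr3, blk_blk hr4]
    refine KGe_anti ?_ hKκ
    rw [KGe_iff]
    intro Z hZ1 hZ2
    have hW1X : blk E₁ e₁ p q s ⊆ X := (blk_mono hr3).trans hST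
    have hW2Y : blk E₂ e₂ p' q' s ⊆ Y := (blk_mono hr4).trans hST'
    have hZE : Z ⊆ M.E \ ((C' ∪ D'') ∪ (D' ∪ C'')) := hM'E ▸ hZ2.trans sdiff_subset
    rw [hM', lam_minor_eq hCcE hdisA hZE]
    have z1 : ∀ z, z ∈ Z → z ∈ M.E ∧ ¬ ((z ∈ C' ∨ z ∈ D'') ∨ (z ∈ D' ∨ z ∈ C'')) :=
      fun z h => hZE h
    -- X₀'
    have a1 : lam M (C' ∪ D'') (D' ∪ C'') (X₀ \ (C' ∪ D')) = κ := by
      rw [lam_comb hX₀ hD''Y hC''Y hCD''.symm hm'1 hC'X hD'X sdiff_subset, hlX]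
    have a2 : (κ : ℤ) ≤ lam M (C' ∪ D'') (D' ∪ C'') (Z ∩ (X₀ \ (C' ∪ D'))) := by
      rw [lam_comb hX₀ hD''Y hC''Y hCD''.symm hm'1 hC'X hD'X
        (inter_subset_right.trans sdiff_subset)]
      refine hWX _ inter_subset_right ⟨p, q, hr3.trans hcd, ?_⟩
      rw [blk_blk (hr3.trans hcd)]
      exact subset_inter (subset_inter hZ1 (hW1X.trans hXsub)) hW1X
    have a3 : (κ : ℤ) ≤ lam M (C' ∪ D'') (D' ∪ C'') (Z ∪ (X₀ \ (C' ∪ D'))) := by
      have b1 : (M.E \ ((C' ∪ D'') ∪ (D' ∪ C''))) \ (Z ∪ (X₀ \ (C' ∪ D'))) =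
          ((M.E \ X₀) \ (C'' ∪ D'')) \ Z := by
        ext z
        have := q1 z
        have := q2 z
        simp only [mem_sdiff, mem_union]
        tauto
      have b2 := lam_compl_dual (M := M) (C := C' ∪ D'') (D := D' ∪ C'')
        (A := Z ∪ (X₀ \ (C' ∪ D'))) (union_subset (hZE.trans sdiff_subset)
          (sdiff_subset.trans hX₀)) hCcE hDcE hdisA (by
          rw [Set.disjoint_left]
          intro z
          have := z1 z
          have := q4 z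
          have := q9 z
          simp only [mem_sdiff, mem_union]
          tauto) (by
          rw [Set.disjoint_left]
          intro z
          have := z1 z
          have := q3 z
          have := q9 z
          simp only [mem_sdiff, mem_union]
          tauto)
      rw [b1] at b2
      rw [← b2, union_comm D' C'', union_comm C' D'']
      rw [lam_comb (M := M✶) (X₀ := M.E \ X₀) sdiff_subset
        (by rw [Matroid.dual_ground, hXX]; exact hD'X)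
        (by rw [Matroid.dual_ground, hXX]; exact hC'X) hCD'.symm hm'2 hC''Y hD''Y
        (sdiff_subset.trans sdiff_subset)]
      refine hWY _ sdiff_subset ⟨p', q', hr4.trans hcd', ?_⟩
      rw [blk_blk (hr4.trans hcd')]
      refine subset_inter ?_ hW2Y
      intro z hz
      exact ⟨hYsub (hW2Y hz), fun h => (hZ2 h).2 hz⟩
    have a4 := lam_submod (M := M) (C' ∪ D'') (D' ∪ C'') Z (X₀ \ (C' ∪ D'))
    omega

end BICS
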