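import Pool.Agent.BICS.Base
import Pool.Agent.Helper11.ISO

open Set BIC

namespace BICS

section rkrect

variable {α : Type*} {N : Matroid α} {S : Set α} {ends : α → Sym2 (ℕ × ℕ)} {x y a b : ℕ}

/-- The rank of a rectangle is the number of its vertices. -/
theorem rk_rect [N.Finite] (hB : Bic N S ends) (hG : Grd S ends x y a b) (ha : 2 ≤ a)
    (hb : 2 ≤ b) : rk N S = a * b := by
  classical
  set U : Finset (ℕ × ℕ) := (Finset.range a) ×ˢ (Finset.range b) with hU
  set pt : ℕ × ℕ → ℕ × ℕ := fun u => (x + u.1, y + u.2) with hpt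
  set q : ℕ × ℕ → ℕ × ℕ := fun u =>
    if u.1 + 1 = a then (if u.2 = 0 then (u.1 - 1, 0) else (u.1, u.2 - 1))
    else (if u.2 + 1 = b then (u.1 + 1, u.2) else (u.1, u.2 + 1)) with hq
  have hmem : ∀ u ∈ U, u.1 < a ∧ u.2 < b := by
    intro u hu
    rw [hU, Finset.mem_product, Finset.mem_range, Finset.mem_range] at hu
    exact hu
  have hcard : U.card = a * b := by
    rw [hU, Finset.card_product, Finset.card_range, Finset.card_range]
  apply le_antisymm
  · have h1 := hB.rk (rect x y a b)
    rw [Grd_ins_self hG] at h1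
    have h2 : rect x y a b = ((U.image pt : Finset (ℕ × ℕ)) : Set (ℕ × ℕ)) := by
      ext v
      simp only [Finset.coe_image, Set.mem_image, Finset.mem_coe]
      constructor
      · rintro ⟨h3, h4, h5, h6⟩
        refine ⟨(v.1 - x, v.2 - y), ?_, ?_⟩
        · rw [hU, Finset.mem_product, Finset.mem_range, Finset.mem_range]
          exact ⟨by simp only; omega, by simp only; omega⟩
        · rw [hpt]
          exact Prod.ext (by simp only; omega) (by simp only; omega)
      · rintro ⟨u, hu, rfl⟩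
        obtain ⟨h3, h4⟩ := hmem u hu
        rw [hpt]
        exact ⟨by simp only; omega, by simp only; omega, by simp only; omega, by simp only; omega⟩
    rw [h2, Set.encard_coe_eq_coe_finsetCard, ← cast_rk] at h1
    have h3 : rk N S ≤ (U.image pt).card := by exact_mod_cast h1
    have h4 := Finset.card_image_le (s := U) (f := pt)
    omega
  · have H : ∀ u ∈ U, ∃ e, e ∈ S ∧ ends e = s(pt u, pt (q u)) := by
      intro u hu
      obtain ⟨h3, h4⟩ := hmem u hu
      obtain ⟨i, j⟩ := u
      simp only at h3 h4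
      have h5 : adj (pt (i, j)) (pt (q (i, j))) ∧ pt (i, j) ∈ rect x y a b ∧
          pt (q (i, j)) ∈ rect x y a b := by
        simp only [hpt, hq, adj, rect, Set.mem_ofPred_eq]
        split_ifs <;> simp only [true_and] <;> omega
      obtain ⟨e, he, he'⟩ := hG.surj _ _ h5.1 h5.2.1 h5.2.2
      exact ⟨e, he, he'⟩
    have hne : Nonempty α := by
      have h0 : ((0, 0) : ℕ × ℕ) ∈ U := by
        rw [hU, Finset.mem_product, Finset.mem_range, Finset.mem_range]
        exact ⟨by simp only; omega, by simp only; omega⟩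
      exact ⟨(H _ h0).choose⟩
    choose! g hg using H
    rw [← hcard]
    refine rk_ge_card hB (Subset.refl S) (p := pt) ?_ (g := g) ?_ ?_
    · rintro ⟨i, j⟩ _ ⟨i', j'⟩ _ h
      simp only [hpt, Prod.mk.injEq] at h ⊢
      omega
    · rintro ⟨i, j⟩ hu ⟨i', j'⟩ hu' h
      have e1 := (hg _ hu).2
      have e2 := (hg _ hu').2
      rw [h, e2] at e1
      obtain ⟨h3, h4⟩ := hmem _ hu
      obtain ⟨h5, h6⟩ := hmem _ hu'
      simp only at h3 h4 h5 h6
      rw [Sym2.eq_iff] at e1
      simp only [hpt, hq, Prod.mk.injEq] at e1 ⊢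
      rcases e1 with ⟨⟨h7, h8⟩, _⟩ | ⟨⟨h7, h8⟩, ⟨h9, h10⟩⟩
      · omega
      · split_ifs at h7 h8 h9 h10 <;> simp only at h7 h8 h9 h10 <;> omega
    · intro u hu
      refine ⟨(hg u hu).1, ?_⟩
      rw [(hg u hu).2]
      exact Sym2.mem_mk_left _ _

end rkrect

end BICS
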