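import Pool.Agent.BICS.RkRect

/-!
From the three by three blocks to a whole grid. (Problem MP_5165fa_co.)
-/

open Set BIC
open scoped Matroid

namespace BICS

universe u

section tile

variable {α : Type u} {L N : Matroid α} {S Z : Set α} {ends : α → Sym2 (ℕ × ℕ)} {x y a b : ℕ}

/-- One step: two sets with a large overlap. -/
lemma tile_step [L.Finite] {X Y W : Set α} (hQ : ∀ X ⊆ S, rk L Z + rk N X ≤ rk L (Z ∪ X))
    (hW : W ⊆ S) (hWX : W ⊆ X) (hWY : W ⊆ Y) {u v w t : ℕ} (hw : w ≤ rk N W)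
    (hX : rk L (Z ∪ X) ≤ rk L Z + u) (hY : rk L (Z ∪ Y) ≤ rk L Z + v) (ht : u + v ≤ t + w)
    {T : Set α} (hT : T ⊆ X ∪ Y) : rk L (Z ∪ T) ≤ rk L Z + t := by
  have h1 := rk_submod L (Z ∪ X) (Z ∪ Y)
  have h2 : rk L (Z ∪ W) ≤ rk L ((Z ∪ X) ∩ (Z ∪ Y)) :=
    rk_mono L (subset_inter (union_subset_union_right Z hWX) (union_subset_union_right Z hWY))
  have h3 : rk L (Z ∪ T) ≤ rk L (Z ∪ X ∪ (Z ∪ Y)) := by
    refine rk_mono L ?_
    rintro e (he | he)
    · exact Or.inl (Or.inl he)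
    · rcases hT he with he | he
      · exact Or.inl (Or.inr he)
      · exact Or.inr (Or.inr he)
  have h4 := hQ W hW
  omega

/-- An edge of the grid inside the union of two overlapping rectangles (in width). -/
lemma ins_rect_width (hG : Grd S ends x y a b) {x' y' a' b' : ℕ} (ha : 2 ≤ a') :
    ins S ends (rect x' y' (a' + 1) b') ⊆
      ins S ends (rect x' y' a' b') ∪ ins S ends (rect (x' + (a' - 2)) y' 3 b') := by
  rintro e ⟨he, he'⟩
  obtain ⟨p, q, h1, h2, _, _⟩ := hG.mem e he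
  have hp := he' p (by rw [h1]; simp)
  have hq := he' q (by rw [h1]; simp)
  obtain ⟨p1, p2, p3, p4⟩ := hp
  obtain ⟨q1, q2, q3, q4⟩ := hq
  by_cases hc : p.1 < x' + a' ∧ q.1 < x' + a'
  · left
    refine ⟨he, ?_⟩
    intro v hv
    rw [h1] at hv
    rcases Sym2.mem_iff.1 hv with rfl | rfl
    · exact ⟨p1, hc.1, p3, p4⟩
    · exact ⟨q1, hc.2, q3, q4⟩
  · right
    have h3 : x' + (a' - 2) ≤ p.1 ∧ x' + (a' - 2) ≤ q.1 := by
      rcases h2 with ⟨h5, h6 | h6⟩ | ⟨h5, h6 | h6⟩ <;> omega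
    refine ⟨he, ?_⟩
    intro v hv
    rw [h1] at hv
    rcases Sym2.mem_iff.1 hv with rfl | rfl
    · exact ⟨h3.1, by omega, p3, p4⟩
    · exact ⟨h3.2, by omega, q3, q4⟩

/-- An edge of the grid inside the union of two overlapping rectangles (in height). -/
lemma ins_rect_height (hG : Grd S ends x y a b) {x' y' a' b' : ℕ} (hb : 2 ≤ b') :
    ins S ends (rect x' y' a' (b' + 1)) ⊆
      ins S ends (rect x' y' a' b') ∪ ins S ends (rect x' (y' + (b' - 2)) a' 3) := by
  rintro e ⟨he, he'⟩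
  obtain ⟨p, q, h1, h2, _, _⟩ := hG.mem e he
  have hp := he' p (by rw [h1]; simp)
  have hq := he' q (by rw [h1]; simp)
  obtain ⟨p1, p2, p3, p4⟩ := hp
  obtain ⟨q1, q2, q3, q4⟩ := hq
  by_cases hc : p.2 < y' + b' ∧ q.2 < y' + b'
  · left
    refine ⟨he, ?_⟩
    intro v hv
    rw [h1] at hv
    rcases Sym2.mem_iff.1 hv with rfl | rfl
    · exact ⟨p1, p2, p3, hc.1⟩
    · exact ⟨q1, q2, q3, hc.2⟩
  · right
    have h3 : y' + (b' - 2) ≤ p.2 ∧ y' + (b' - 2) ≤ q.2 := by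
      rcases h2 with ⟨h5, h6 | h6⟩ | ⟨h5, h6 | h6⟩ <;> omega
    refine ⟨he, ?_⟩
    intro v hv
    rw [h1] at hv
    rcases Sym2.mem_iff.1 hv with rfl | rfl
    · exact ⟨p1, p2, h3.1, by omega⟩
    · exact ⟨q1, q2, h3.2, by omega⟩

theorem tile_of
    (hrect : ∀ {α : Type u} {N : Matroid α} {S : Set α} {ends : α → Sym2 (ℕ × ℕ)}
      {x y a b : ℕ} [N.Finite], Bic N S ends → Grd S ends x y a b → 2 ≤ a → 2 ≤ b →
      rk N S = a * b)
    [L.Finite] [N.Finite] (hB : Bic N S ends) (hG : Grd S ends x y a b)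
    (hQ : ∀ X ⊆ S, rk L Z + rk N X ≤ rk L (Z ∪ X)) (ha : 3 ≤ a) (hb : 3 ≤ b)
    (h : ∀ x' y', rect x' y' 3 3 ⊆ rect x y a b →
      rk L (Z ∪ ins S ends (rect x' y' 3 3)) ≤ rk L Z + 9) :
    rk L (Z ∪ S) ≤ rk L Z + a * b := by
  -- the rank of a subrectangle
  have hr : ∀ {x' y' a' b' : ℕ}, 2 ≤ a' → 2 ≤ b' → rect x' y' a' b' ⊆ rect x y a b →
      a' * b' ≤ rk N (ins S ends (rect x' y' a' b')) := by
    intro x' y' a' b' h1 h2 h3
    exact (hrect (Bic_sub hB (fun e he => he.1)) (Grd_sub hG h3) h1 h2).ge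
  have hrow : ∀ a' : ℕ, 3 ≤ a' → ∀ x' y', rect x' y' a' 3 ⊆ rect x y a b →
      rk L (Z ∪ ins S ends (rect x' y' a' 3)) ≤ rk L Z + a' * 3 := by
    intro a' ha'
    induction a', ha' using Nat.le_induction with
    | base => exact fun x' y' h1 => h x' y' h1
    | succ a' ha' ih =>
      intro x' y' h1
      have h2 : rect x' y' a' 3 ⊆ rect x' y' (a' + 1) 3 :=
        rect_sub (by omega) (by omega) (by omega) (by omega)
      have h3 : rect (x' + (a' - 2)) y' 3 3 ⊆ rect x' y' (a' + 1) 3 :=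
        rect_sub (by omega) (by omega) (by omega) (by omega)
      have h4 : rect (x' + (a' - 2)) y' 2 3 ⊆ rect x' y' a' 3 :=
        rect_sub (by omega) (by omega) (by omega) (by omega)
      have h5 : rect (x' + (a' - 2)) y' 2 3 ⊆ rect (x' + (a' - 2)) y' 3 3 :=
        rect_sub (by omega) (by omega) (by omega) (by omega)
      exact tile_step hQ (W := ins S ends (rect (x' + (a' - 2)) y' 2 3)) (fun e he => he.1)
        (ins_mono h4) (ins_mono h5) (hr (by omega) (by omega) (h4.trans (h2.trans h1)))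
        (ih x' y' (h2.trans h1)) (h _ _ (h3.trans h1)) (by omega)
        (ins_rect_width hG (by omega))
  have hcol : ∀ b' : ℕ, 3 ≤ b' → ∀ a' : ℕ, 3 ≤ a' → ∀ x' y', rect x' y' a' b' ⊆ rect x y a b →
      rk L (Z ∪ ins S ends (rect x' y' a' b')) ≤ rk L Z + a' * b' := by
    intro b' hb'
    induction b', hb' using Nat.le_induction with
    | base => exact fun a' ha' x' y' h1 => hrow a' ha' x' y' h1
    | succ b' hb' ih =>
      intro a' ha' x' y' h1
      have h2 : rect x' y' a' b' ⊆ rect x' y' a' (b' + 1) :=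
        rect_sub (by omega) (by omega) (by omega) (by omega)
      have h3 : rect x' (y' + (b' - 2)) a' 3 ⊆ rect x' y' a' (b' + 1) :=
        rect_sub (by omega) (by omega) (by omega) (by omega)
      have h4 : rect x' (y' + (b' - 2)) a' 2 ⊆ rect x' y' a' b' :=
        rect_sub (by omega) (by omega) (by omega) (by omega)
      have h5 : rect x' (y' + (b' - 2)) a' 2 ⊆ rect x' (y' + (b' - 2)) a' 3 :=
        rect_sub (by omega) (by omega) (by omega) (by omega)
      exact tile_step hQ (W := ins S ends (rect x' (y' + (b' - 2)) a' 2)) (fun e he => he.1)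
        (ins_mono h4) (ins_mono h5) (hr (by omega) (by omega) (h4.trans (h2.trans h1)))
        (ih a' ha' x' y' (h2.trans h1)) (hrow a' ha' _ _ (h3.trans h1)) (by ring_nf; omega)
        (ins_rect_height hG (by omega))
  have h6 := hcol b hb a ha x y (subset_refl _)
  rwa [Grd_ins_self hG] at h6

/-- Row `tile` of the stub. -/
theorem tile [L.Finite] [N.Finite] (hB : Bic N S ends) (hG : Grd S ends x y a b)
    (hQ : ∀ X ⊆ S, rk L Z + rk N X ≤ rk L (Z ∪ X)) (ha : 3 ≤ a) (hb : 3 ≤ b)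
    (h : ∀ x' y', rect x' y' 3 3 ⊆ rect x y a b →
      rk L (Z ∪ ins S ends (rect x' y' 3 3)) ≤ rk L Z + 9) :
    rk L (Z ∪ S) ≤ rk L Z + a * b :=
  tile_of rk_rect hB hG hQ ha hb h

end tile

end BICS
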